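import Pool.Agent.EBM.HomE

/-! # The elliptic Baker theorem (Masser; Bertrand and Masser) -/

namespace Pool.Agent.EBM

/-- `1` and elliptic logarithms which are linearly independent over the endomorphism field are
linearly independent over the algebraic numbers -/
theorem ebaker (L : PeriodPair) (h2 : IsAlgebraic ℚ L.g₂) (h3 : IsAlgebraic ℚ L.g₃) {ι : Type}
    [Fintype ι] (p : ι → ℂ) (hp : ∀ j, p j ∈ ELog L)
    (hind : ∀ c : ι → ℂ, (∀ j, c j ∈ EndF L) → ∑ j, c j * p j = 0 → ∀ j, c j = 0)
    (b : ι → ℂ) (b0 : ℂ) (hb : ∀ i, IsAlgebraic ℚ (b i)) (hb0 : IsAlgebraic ℚ b0)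
    (h : b0 + ∑ i, b i * p i = 0) : b0 = 0 ∧ ∀ i, b i = 0 := by
  classical
  have hfs : (insert b0 (Set.range b)).Finite := (Set.finite_range b).insert b0
  have : Finite ↥(insert b0 (Set.range b)) := hfs.to_subtype
  let K := IntermediateField.adjoin (EndK L) (insert b0 (Set.range b))
  have hfin : FiniteDimensional (EndK L) K := by
    apply IntermediateField.finiteDimensional_adjoin
    intro x hx
    have hx' : IsAlgebraic ℚ x := by
      rcases hx with rfl | ⟨i, rfl⟩
      · exact hb0
      · exact hb i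
    exact hx'.isIntegral.tower_top
  have hm0 : b0 ∈ K := IntermediateField.subset_adjoin _ _ (Set.mem_insert _ _)
  have hm : ∀ i, b i ∈ K := fun i =>
    IntermediateField.subset_adjoin _ _ (Set.mem_insert_of_mem _ ⟨i, rfl⟩)
  have h4 := ebaker_inh L h2 h3 p hp hind K (fun i => (⟨b i, hm i⟩ : K)) K.val ⟨b0, hm0⟩
    (by simpa using h)
  refine ⟨congrArg Subtype.val h4.1, fun i => congrArg Subtype.val (h4.2 i)⟩

end Pool.Agent.EBM
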