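import Pool.Agent.EBM.Defs

/-! # Algebra of the derivations `T` -/

namespace Pool.Agent.EBM
open MvPolynomial Pool.Agent.BKR Pool.Agent.ZCM

variable {R : Type*} [CommRing R] {n d D0 D : ℕ}

theorem T_X (a : R) (g : Fin n → R) (l : Fin d → Fin n → R) (w : Fin n → R) (v : EV d) :
    T a g l w (X v) = gen a g l w v := mkDerivation_X _ _ _

theorem T_C (a : R) (g : Fin n → R) (l : Fin d → Fin n → R) (w : Fin n → R) (r : R) :
    T a g l w (C r) = 0 := by
  rw [← algebraMap_eq]
  exact Derivation.map_algebraMap _ _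

theorem T_three (a : R) (g : Fin n → R) (l : Fin d → Fin n → R) (w : Fin n → R) :
    T a g l w (3 : MvPolynomial (EV d) R) = 0 := by
  have : (3 : MvPolynomial (EV d) R) = C 3 := (map_ofNat C 3).symm
  rw [this, T_C]

theorem gen_none (a : R) (g : Fin n → R) (l : Fin d → Fin n → R) (w : Fin n → R) :
    gen a g l w none = C (dot g w) := rfl

theorem gen_x (a : R) (g : Fin n → R) (l : Fin d → Fin n → R) (w : Fin n → R) (k : Fin d) :
    gen a g l w (some (k, 0)) = C (2 * dot (l k) w) * X (some (k, 1)) := rfl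

theorem gen_y (a : R) (g : Fin n → R) (l : Fin d → Fin n → R) (w : Fin n → R) (k : Fin d) :
    gen a g l w (some (k, 1)) = C (dot (l k) w) * (3 * X (some (k, 0)) ^ 2 + C a) := rfl

theorem td_X {σ : Type*} (i : σ) : (X i : MvPolynomial σ R).totalDegree ≤ 1 := by
  refine (totalDegree_monomial_le _ _).trans ?_
  simp

theorem T_comm (a : R) (g : Fin n → R) (l : Fin d → Fin n → R) (w w' : Fin n → R)
    (P : MvPolynomial (EV d) R) : T a g l w (T a g l w' P) = T a g l w' (T a g l w P) := by
  have h : ⁅T a g l w, T a g l w'⁆ = 0 := by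
    refine derivation_ext fun v => ?_
    rw [Derivation.commutator_apply, T_X, T_X, Derivation.coe_zero, Pi.zero_apply]
    rcases v with - | ⟨k, i⟩
    · rw [gen_none, gen_none, T_C, T_C, sub_zero]
    · by_cases hi : i = 0
      · subst hi
        rw [gen_x, gen_x, Derivation.leibniz, Derivation.leibniz, T_C, T_C, T_X, T_X, gen_y, gen_y]
        simp only [smul_eq_mul, mul_zero, add_zero, map_mul]
        ring
      · have hi1 : i = 1 := by omega
        subst hi1
        rw [gen_y, gen_y, Derivation.leibniz, Derivation.leibniz, map_add, map_add,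
          Derivation.leibniz, Derivation.leibniz, T_three, T_three, T_C, T_C, T_C, T_C,
          Derivation.leibniz_pow, Derivation.leibniz_pow, T_X, T_X, gen_x, gen_x]
        simp only [smul_eq_mul, mul_zero, add_zero, map_mul, nsmul_eq_mul]
        ring
  have h2 := DFunLike.congr_fun h P
  rw [Derivation.commutator_apply] at h2
  exact sub_eq_zero.1 h2

theorem TW_perm (a : R) (g : Fin n → R) (l : Fin d → Fin n → R) {ws ws' : List (Fin n → R)}
    (h : ws.Perm ws') (P : MvPolynomial (EV d) R) : TW a g l ws P = TW a g l ws' P := by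
  induction h with
  | nil => rfl
  | cons w _ ih => exact congrArg (T a g l w) ih
  | swap w w' ws => exact T_comm a g l w' w (TW a g l ws P)
  | trans _ _ ih1 ih2 => exact ih1.trans ih2

theorem TW_sum (a : R) (g : Fin n → R) (l : Fin d → Fin n → R) (ws : List (Fin n → R))
    (c : Idx D0 D d → R) : TW a g l ws (PC c) = ∑ i, C (c i) * TW a g l ws (mon R i) := by
  induction ws with
  | nil => rfl
  | cons w ws ih =>
    change T a g l w (TW a g l ws (PC c)) = ∑ i, C (c i) * T a g l w (TW a g l ws (mon R i))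
    rw [ih, map_sum]
    refine Finset.sum_congr rfl fun i _ => ?_
    rw [Derivation.leibniz, T_C, smul_zero, add_zero, smul_eq_mul]

theorem map_dot {S : Type*} [CommRing S] (φ : R →+* S) (y z : Fin n → R) :
    φ (dot y z) = dot (fun j => φ (y j)) (fun j => φ (z j)) := by
  simp [dot]

theorem map_gen {S : Type*} [CommRing S] (φ : R →+* S) (a : R) (g : Fin n → R)
    (l : Fin d → Fin n → R) (w : Fin n → R) (v : EV d) :
    map φ (gen a g l w v) = gen (φ a) (fun j => φ (g j)) (fun k j => φ (l k j))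
      (fun j => φ (w j)) v := by
  rcases v with - | ⟨k, i⟩
  · simp only [gen, map_C, map_dot]
  · by_cases hi : i = 0
    · simp only [gen, if_pos hi, map_mul, map_C, map_X, map_dot, map_ofNat]
    · simp only [gen, if_neg hi, map_mul, map_C, map_X, map_dot, map_ofNat, map_add, map_pow]

theorem TW_map {S : Type*} [CommRing S] (φ : R →+* S) (a : R) (g : Fin n → R)
    (l : Fin d → Fin n → R) (js : List (Fin n)) (P : MvPolynomial (EV d) R) :
    map φ (TW a g l (js.map (uv R)) P) = TW (φ a) (fun j => φ (g j)) (fun k j => φ (l k j))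
      (js.map (uv S)) (map φ P) := by
  induction js with
  | nil => rfl
  | cons j js ih =>
    change map φ (T a g l (uv R j) (TW a g l (js.map (uv R)) P)) =
      T (φ a) (fun j => φ (g j)) (fun k j => φ (l k j)) (uv S j) (TW (φ a) (fun j => φ (g j))
        (fun k j => φ (l k j)) (js.map (uv S)) (map φ P))
    rw [← ih]
    have huv : (fun j' => φ (uv R j j')) = uv S j := by
      funext j'
      simp only [uv]
      split_ifs <;> simp
    have h1 := Size_map_deriv φ (gen a g l (uv R j)) (gen (φ a) (fun j => φ (g j))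
      (fun k j => φ (l k j)) (uv S j)) (fun v => by rw [map_gen, huv])
      (TW a g l (js.map (uv R)) P)
    exact h1

theorem map_mon {S : Type*} [CommRing S] (φ : R →+* S) (i : Idx D0 D d) :
    map φ (mon R i) = mon S i := by
  simp [mon, map_mul, map_pow, map_prod]

theorem map_PC {S : Type*} [CommRing S] (φ : R →+* S) (c : Idx D0 D d → R) :
    map φ (PC c) = PC fun i => φ (c i) := by
  simp only [PC, map_sum, map_mul, map_C, map_mon]

theorem td_gen (a : R) (g : Fin n → R) (l : Fin d → Fin n → R) (w : Fin n → R) (v : EV d) :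
    (gen a g l w v).totalDegree ≤ 2 := by
  rcases v with - | ⟨k, i⟩
  · simp [gen]
  · by_cases hi : i = 0
    · simp only [gen, if_pos hi]
      refine (totalDegree_mul _ _).trans ?_
      rw [totalDegree_C, zero_add]
      exact (td_X _).trans (by norm_num)
    · simp only [gen, if_neg hi]
      refine (totalDegree_mul _ _).trans ?_
      rw [totalDegree_C, zero_add]
      refine (totalDegree_add _ _).trans (max_le ?_ (by simp))
      have e3 : (3 : MvPolynomial (EV d) R) = C 3 := (map_ofNat C 3).symm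
      rw [e3]
      refine (totalDegree_mul _ _).trans ?_
      rw [totalDegree_C, zero_add]
      refine (totalDegree_pow _ _).trans ?_
      have := td_X (R := R) (some (k, 0) : EV d)
      omega

theorem td_TW (a : R) (g : Fin n → R) (l : Fin d → Fin n → R) (ws : List (Fin n → R))
    (P : MvPolynomial (EV d) R) : (TW a g l ws P).totalDegree ≤ P.totalDegree + ws.length := by
  induction ws with
  | nil => exact le_rfl
  | cons w ws ih =>
    change (T a g l w (TW a g l ws P)).totalDegree ≤ _
    have h1 := Size_totalDegree_deriv (gen a g l w) (td_gen a g l w) (TW a g l ws P)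
    have h2 : (T a g l w (TW a g l ws P)).totalDegree ≤ (TW a g l ws P).totalDegree + 1 := h1
    rw [List.length_cons]
    omega

theorem td_mon (i : Idx D0 D d) : (mon R i).totalDegree ≤ D0 + d * D := by
  unfold mon
  refine (totalDegree_mul _ _).trans (Nat.add_le_add ?_ ?_)
  · refine (totalDegree_pow _ _).trans ?_
    have h1 := td_X (R := R) (none : EV d)
    have h2 := i.1.2
    calc (i.1 : ℕ) * (X none : MvPolynomial (EV d) R).totalDegree ≤ (i.1 : ℕ) * 1 :=
          Nat.mul_le_mul_left _ h1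
      _ ≤ D0 := by omega
  · refine (totalDegree_finsetProd _ _).trans ?_
    have h3 : ∀ k ∈ (Finset.univ : Finset (Fin d)),
        (X (some (k, 0)) ^ ((i.2 k : Fin D) : ℕ) : MvPolynomial (EV d) R).totalDegree ≤ D := by
      intro k _
      refine (totalDegree_pow _ _).trans ?_
      have h1 := td_X (R := R) (some (k, 0) : EV d)
      have h2 := (i.2 k).2
      calc ((i.2 k : Fin D) : ℕ) * (X (some (k, 0)) : MvPolynomial (EV d) R).totalDegree ≤
            ((i.2 k : Fin D) : ℕ) * 1 := Nat.mul_le_mul_left _ h1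
        _ ≤ D := by omega
    refine (Finset.sum_le_sum h3).trans ?_
    simp

theorem nm_mon (i : Idx D0 D d) : nm (mon ℂ i) ≤ 1 := by
  unfold mon
  have h1 : ∀ s : Finset (Fin d),
      nm (∏ k ∈ s, (X (some (k, 0)) : MvPolynomial (EV d) ℂ) ^ ((i.2 k : Fin D) : ℕ)) ≤ 1 := by
    intro s
    classical
    induction s using Finset.induction_on with
    | empty =>
      rw [Finset.prod_empty]
      exact nm_one_le
    | insert k s hk ih =>
      rw [Finset.prod_insert hk]
      refine (nm_mul_le _ _).trans ?_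
      have h2 : nm ((X (some (k, 0)) : MvPolynomial (EV d) ℂ) ^ ((i.2 k : Fin D) : ℕ)) ≤ 1 := by
        refine (nm_pow_le _ _).trans ?_
        rw [nm_X, one_pow]
      calc _ ≤ (1 : ℝ) * 1 := mul_le_mul h2 ih (nm_nonneg _) zero_le_one
        _ = 1 := one_mul 1
  refine (nm_mul_le _ _).trans ?_
  have h2 : nm ((X none : MvPolynomial (EV d) ℂ) ^ (i.1 : ℕ)) ≤ 1 := by
    refine (nm_pow_le _ _).trans ?_
    rw [nm_X, one_pow]
  calc _ ≤ (1 : ℝ) * 1 := mul_le_mul h2 (h1 _) (nm_nonneg _) zero_le_one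
    _ = 1 := one_mul 1

theorem algT_dot_uv (x : Fin n → R) (j : Fin n) : dot x (uv R j) = x j := by
  simp [dot, uv]

theorem algT_nm_three : nm (3 : MvPolynomial (EV d) ℂ) = 3 := by
  have : (3 : MvPolynomial (EV d) ℂ) = C 3 := (map_ofNat C 3).symm
  rw [this, nm_C]; simp

theorem algT_nm_gen (a : ℂ) (g : Fin n → ℂ) (l : Fin d → Fin n → ℂ) (j : Fin n) (B : ℝ)
    (hB : 1 ≤ B) (ha : ‖a‖ ≤ B) (hg : ∀ j, ‖g j‖ ≤ B) (hl : ∀ k j, ‖l k j‖ ≤ B) (v : EV d) :
    nm (gen a g l (uv ℂ j) v) ≤ 4 * B ^ 2 := by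
  have hB2 : B ≤ B ^ 2 := by nlinarith
  rcases v with - | ⟨k, i⟩
  · rw [gen_none, algT_dot_uv, nm_C]
    linarith [hg j]
  · by_cases hi : i = 0
    · subst hi
      rw [gen_x, algT_dot_uv]
      refine (nm_mul_le _ _).trans ?_
      rw [nm_C, nm_X, mul_one, norm_mul, Complex.norm_ofNat]
      linarith [hl k j]
    · have hi1 : i = 1 := by omega
      subst hi1
      rw [gen_y, algT_dot_uv]
      refine (nm_mul_le _ _).trans ?_
      rw [nm_C]
      have h1 : nm (3 * X (some (k, 0)) ^ 2 + C a : MvPolynomial (EV d) ℂ) ≤ 3 + B := by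
        refine (nm_add_le _ _).trans (add_le_add ?_ ?_)
        · refine (nm_mul_le _ _).trans ?_
          have h5 := nm_pow_le (X (some (k, 0)) : MvPolynomial (EV d) ℂ) 2
          rw [nm_X, one_pow] at h5
          rw [algT_nm_three]
          linarith
        · rw [nm_C]; exact ha
      have h0 : 0 ≤ B := by linarith
      calc ‖l k j‖ * nm (3 * X (some (k, 0)) ^ 2 + C a : MvPolynomial (EV d) ℂ) ≤ B * (3 + B) :=
            mul_le_mul (hl k j) h1 (nm_nonneg _) h0
        _ ≤ 4 * B ^ 2 := by nlinarith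

/-- the length grows at most by the factor `4 B ^ 2 * (degree)` for each letter -/
theorem nm_TW (a : ℂ) (g : Fin n → ℂ) (l : Fin d → Fin n → ℂ) (js : List (Fin n))
    (P : MvPolynomial (EV d) ℂ) (B : ℝ) (hB : 1 ≤ B) (ha : ‖a‖ ≤ B) (hg : ∀ j, ‖g j‖ ≤ B)
    (hl : ∀ k j, ‖l k j‖ ≤ B) (A : ℕ) (hA : P.totalDegree ≤ A) :
    nm (TW a g l (js.map (uv ℂ)) P) ≤ (4 * B ^ 2 * (A + js.length)) ^ js.length * nm P := by
  have hB0 : 0 ≤ 4 * B ^ 2 := by positivity
  induction js with
  | nil => simp [TW]
  | cons j js ih =>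
    have e : TW a g l ((j :: js).map (uv ℂ)) P =
        mkDerivation ℂ (gen a g l (uv ℂ j)) (TW a g l (js.map (uv ℂ)) P) := rfl
    rw [e]
    refine (Size_nm_deriv _ (4 * B ^ 2) (algT_nm_gen a g l j B hB ha hg hl) hB0 _).trans ?_
    have h1 : (((TW a g l (js.map (uv ℂ)) P).totalDegree : ℕ) : ℝ) ≤ A + js.length := by
      have h2 := td_TW a g l (js.map (uv ℂ)) P
      rw [List.length_map] at h2
      have h3 : (TW a g l (js.map (uv ℂ)) P).totalDegree ≤ A + js.length := by omega
      exact_mod_cast h3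
    have h2 : 4 * B ^ 2 * (((TW a g l (js.map (uv ℂ)) P).totalDegree : ℕ) : ℝ) ≤
        4 * B ^ 2 * (A + (js.length + 1 : ℕ)) := by
      refine mul_le_mul_of_nonneg_left ?_ hB0
      push_cast
      linarith
    have h3 : (4 * B ^ 2 * ((A : ℝ) + js.length)) ^ js.length ≤
        (4 * B ^ 2 * ((A : ℝ) + (js.length + 1 : ℕ))) ^ js.length := by
      refine pow_le_pow_left₀ (by positivity) ?_ _
      refine mul_le_mul_of_nonneg_left ?_ hB0
      push_cast
      linarith
    rw [List.length_cons]
    calc 4 * B ^ 2 * (((TW a g l (js.map (uv ℂ)) P).totalDegree : ℕ) : ℝ) *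
          nm (TW a g l (js.map (uv ℂ)) P)
        ≤ (4 * B ^ 2 * (A + (js.length + 1 : ℕ))) *
          ((4 * B ^ 2 * ((A : ℝ) + (js.length + 1 : ℕ))) ^ js.length * nm P) := by
          refine mul_le_mul h2 (ih.trans ?_) (nm_nonneg _) (by positivity)
          exact mul_le_mul_of_nonneg_right h3 (nm_nonneg _)
      _ = (4 * B ^ 2 * ((A : ℝ) + (js.length + 1 : ℕ))) ^ (js.length + 1) * nm P := by ring

section integral

variable {K : Type*} [Field K] {σ : Type*}

theorem algT_nat (m : ℕ) : IsIntegral ℤ (m : K) := by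
  have := isIntegral_algebraMap (R := ℤ) (A := K) (x := (m : ℤ))
  simpa using this

theorem algT_mul {r s : K} {P Q : MvPolynomial σ K} (hP : ∀ m, IsIntegral ℤ (r * P.coeff m))
    (hQ : ∀ m, IsIntegral ℤ (s * Q.coeff m)) (m : σ →₀ ℕ) :
    IsIntegral ℤ (r * s * (P * Q).coeff m) := by
  classical
  rw [coeff_mul, Finset.mul_sum]
  refine IsIntegral.sum _ fun x _ => ?_
  have : r * s * (P.coeff x.1 * Q.coeff x.2) = (r * P.coeff x.1) * (s * Q.coeff x.2) := by ring
  rw [this]
  exact (hP _).mul (hQ _)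

theorem algT_sum {ι : Type*} {r : K} (s : Finset ι) (F : ι → MvPolynomial σ K)
    (h : ∀ i ∈ s, ∀ m, IsIntegral ℤ (r * (F i).coeff m)) (m : σ →₀ ℕ) :
    IsIntegral ℤ (r * (∑ i ∈ s, F i).coeff m) := by
  rw [coeff_sum, Finset.mul_sum]
  exact IsIntegral.sum _ fun i hi => h i hi m

theorem algT_monomial {r c : K} (h : IsIntegral ℤ (r * c)) (u m : σ →₀ ℕ) :
    IsIntegral ℤ (r * (monomial u c : MvPolynomial σ K).coeff m) := by
  classical
  rw [coeff_monomial]
  split_ifs
  · exact h
  · rw [mul_zero]; exact isIntegral_zero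

theorem algT_C {r c : K} (h : IsIntegral ℤ (r * c)) (m : σ →₀ ℕ) :
    IsIntegral ℤ (r * (C c : MvPolynomial σ K).coeff m) := algT_monomial h _ _

theorem algT_deriv (f : σ → MvPolynomial σ K) (r s : K)
    (hf : ∀ i m, IsIntegral ℤ (s * (f i).coeff m)) (P : MvPolynomial σ K)
    (hP : ∀ m, IsIntegral ℤ (r * P.coeff m)) (m : σ →₀ ℕ) :
    IsIntegral ℤ (r * s * (mkDerivation K f P).coeff m) := by
  classical
  have h1 : mkDerivation K f P = ∑ u ∈ P.support, mkDerivation K f (monomial u (P.coeff u)) := by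
    conv_lhs => rw [P.as_sum]
    rw [map_sum]
  rw [h1]
  refine algT_sum _ _ (fun u _ => ?_) m
  rw [mkDerivation_monomial, smul_eq_C_mul]
  refine algT_mul (algT_C (hP u)) ?_
  rw [Finsupp.sum]
  refine algT_sum _ _ fun i _ => ?_
  rw [smul_eq_mul]
  intro m'
  have h2 : ∀ m'', IsIntegral ℤ ((1 : K) *
      (monomial (u - Finsupp.single i 1) ((u i : ℕ) : K)).coeff m'') := by
    refine algT_monomial ?_ _
    rw [one_mul]
    exact algT_nat _
  have h3 := algT_mul h2 (hf i) m'
  rwa [one_mul] at h3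

theorem algT_gen (a : K) (g : Fin n → K) (l : Fin d → Fin n → K) (b : ℕ)
    (ha : IsIntegral ℤ ((b : K) * a)) (hg : ∀ j, IsIntegral ℤ ((b : K) * g j))
    (hl : ∀ k j, IsIntegral ℤ ((b : K) * l k j)) (j : Fin n) (v : EV d) (m : EV d →₀ ℕ) :
    IsIntegral ℤ ((b : K) ^ 2 * (gen a g l (uv K j) v).coeff m) := by
  have hb : IsIntegral ℤ (b : K) := algT_nat b
  rcases v with - | ⟨k, i⟩
  · rw [gen_none, algT_dot_uv]
    refine algT_C ?_ m
    have : (b : K) ^ 2 * g j = b * (b * g j) := by ring
    rw [this]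
    exact hb.mul (hg j)
  · by_cases hi : i = 0
    · subst hi
      rw [gen_x, algT_dot_uv]
      rw [pow_two]
      refine algT_mul (algT_C ?_) (algT_monomial ?_ _) m
      · have : (b : K) * (2 * l k j) = ((2 : ℕ) : K) * (b * l k j) := by push_cast; ring
        rw [this]
        exact (algT_nat 2).mul (hl k j)
      · rw [mul_one]; exact hb
    · have hi1 : i = 1 := by omega
      subst hi1
      rw [gen_y, algT_dot_uv]
      rw [pow_two]
      refine algT_mul (algT_C (hl k j)) (fun m' => ?_) m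
      rw [coeff_add, mul_add]
      refine IsIntegral.add ?_ (algT_C ha m')
      have e3 : (3 : MvPolynomial (EV d) K) = C 3 := (map_ofNat C 3).symm
      have h2 : ∀ m'', IsIntegral ℤ ((1 : K) *
          (X (some (k, 0)) ^ 2 : MvPolynomial (EV d) K).coeff m'') := by
        rw [X_pow_eq_monomial]
        refine algT_monomial ?_ _
        rw [one_mul]
        exact isIntegral_one
      have h3 : ∀ m'', IsIntegral ℤ ((b : K) * (3 : MvPolynomial (EV d) K).coeff m'') := by
        rw [e3]
        refine algT_C ?_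
        exact hb.mul (by simpa using algT_nat (K := K) 3)
      have h4 := algT_mul h3 h2 m'
      rwa [mul_one] at h4

end integral

/-- integrality of the coefficients -/
theorem int_TW {K : Type*} [Field K] (a : K) (g : Fin n → K) (l : Fin d → Fin n → K)
    (js : List (Fin n)) (P : MvPolynomial (EV d) K) (b : ℕ) (r : K)
    (ha : IsIntegral ℤ ((b : K) * a)) (hg : ∀ j, IsIntegral ℤ ((b : K) * g j))
    (hl : ∀ k j, IsIntegral ℤ ((b : K) * l k j)) (hP : ∀ m, IsIntegral ℤ (r * P.coeff m))
    (m : EV d →₀ ℕ) :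
    IsIntegral ℤ (r * (b : K) ^ (2 * js.length) * (TW a g l (js.map (uv K)) P).coeff m) := by
  induction js generalizing m with
  | nil => simpa [TW] using hP m
  | cons j js ih =>
    have e : TW a g l ((j :: js).map (uv K)) P =
        mkDerivation K (gen a g l (uv K j)) (TW a g l (js.map (uv K)) P) := rfl
    rw [e]
    have h := algT_deriv (gen a g l (uv K j)) (r * (b : K) ^ (2 * js.length)) ((b : K) ^ 2)
      (fun v m => algT_gen a g l b ha hg hl j v m) _ ih m
    rw [List.length_cons, mul_add, mul_one, pow_add, ← mul_assoc]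
    exact h

theorem int_eval {K : Type*} [Field K] {σ : Type*} (P : MvPolynomial σ K) (w : σ → K) (b : ℕ)
    (r : K) (hw : ∀ i, IsIntegral ℤ ((b : K) * w i)) (hP : ∀ m, IsIntegral ℤ (r * P.coeff m))
    (A : ℕ) (hA : P.totalDegree ≤ A) : IsIntegral ℤ (r * (b : K) ^ A * eval w P) := by
  rw [eval_eq, Finset.mul_sum]
  refine IsIntegral.sum _ fun m hm => ?_
  have h1 : ∑ i ∈ m.support, m i ≤ A := (le_totalDegree hm).trans hA
  have h2 : (b : K) ^ A = (b : K) ^ (A - ∑ i ∈ m.support, m i) * ∏ i ∈ m.support, (b : K) ^ m i := by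
    rw [Finset.prod_pow_eq_pow_sum, ← pow_add, Nat.sub_add_cancel h1]
  have h3 : r * (b : K) ^ A * (P.coeff m * ∏ i ∈ m.support, w i ^ m i) =
      (r * P.coeff m) * ((b : K) ^ (A - ∑ i ∈ m.support, m i) *
        ∏ i ∈ m.support, ((b : K) * w i) ^ m i) := by
    rw [h2]
    simp only [mul_pow, Finset.prod_mul_distrib]
    ring
  rw [h3]
  refine (hP m).mul (((algT_nat b).pow _).mul ?_)
  exact IsIntegral.prod _ fun i _ => (hw i).pow _

end Pool.Agent.EBM
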