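import Pool.Agent.BKR.Defs
import Pool.Agent.ZCM.Size

/-!
# Definitions for the elliptic Baker theorem (Masser, Bertrand and Masser) by Schneider and Lang on a grid

`n` complex variables `z`, linear forms `l k` (`k < d`) and `g`, the functions `g · z`, `℘ (l k · z)`.
Variables of the polynomial ring: `none` is `Z = g · z`, `some (k, 0)` is `X_k = ℘ (l k · z)`,
`some (k, 1)` is `Y_k = ℘' (l k · z) / 2`.
-/

namespace Pool.Agent.EBM
open MvPolynomial Pool.Agent.BKR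

/-- index set of the variables -/
abbrev EV (d : ℕ) : Type := Option (Fin d × Fin 2)

variable {R : Type*} [CommRing R] {n d D0 D : ℕ}

def dot (y z : Fin n → R) : R := ∑ j, y j * z j

/-- images of the variables under differentiation in the direction `w` -/
noncomputable def gen (a : R) (g : Fin n → R) (l : Fin d → Fin n → R) (w : Fin n → R) :
    EV d → MvPolynomial (EV d) R
  | none => C (dot g w)
  | some (k, i) => if i = 0 then C (2 * dot (l k) w) * X (some (k, 1))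
      else C (dot (l k) w) * (3 * X (some (k, 0)) ^ 2 + C a)

/-- differentiation in the direction `w` -/
noncomputable def T (a : R) (g : Fin n → R) (l : Fin d → Fin n → R) (w : Fin n → R) :
    Derivation R (MvPolynomial (EV d) R) (MvPolynomial (EV d) R) := mkDerivation R (gen a g l w)

/-- iterated differentiation along a list of directions -/
noncomputable def TW (a : R) (g : Fin n → R) (l : Fin d → Fin n → R) (ws : List (Fin n → R))
    (P : MvPolynomial (EV d) R) : MvPolynomial (EV d) R := ws.foldr (fun w P => T a g l w P) P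

/-- the monomial with index `i` -/
noncomputable def mon (R : Type*) [CommRing R] (i : Idx D0 D d) : MvPolynomial (EV d) R :=
  X none ^ (i.1 : ℕ) * ∏ k, X (some (k, 0)) ^ ((i.2 k : Fin D) : ℕ)

/-- the polynomial with coefficients `c` -/
noncomputable def PC (c : Idx D0 D d → R) : MvPolynomial (EV d) R := ∑ i, C (c i) * mon R i

/-- everything that is needed about the lattice and its functions -/
structure Ell where
  (Λ : AddSubgroup ℂ)
  (x y S Q : ℂ → ℂ)
  (a b : ℂ)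
  (hS : Differentiable ℂ S)
  (hQ : Differentiable ℂ Q)
  (hS0 : ∀ z, S z = 0 ↔ z ∈ Λ)
  (hx : ∀ z, z ∉ Λ → Q z = S z ^ 2 * x z)
  (dx : ∀ z, z ∉ Λ → HasDerivAt x (2 * y z) z)
  (dy : ∀ z, z ∉ Λ → HasDerivAt y (3 * x z ^ 2 + a) z)
  (gr : ∃ C : ℝ, 0 ≤ C ∧ ∀ z, ‖S z‖ ≤ Real.exp (C * (1 + ‖z‖ ^ 2)) ∧
    ‖Q z‖ ≤ Real.exp (C * (1 + ‖z‖ ^ 2)))
  (xper : ∀ z, z ∉ Λ → ∀ w ∈ Λ, x (z + w) = x z)
  (xeq : ∀ z w, z ∉ Λ → w ∉ Λ → x z = x w → z - w ∈ Λ ∨ z + w ∈ Λ)
  (ctb : (Λ : Set ℂ).Countable)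

/-- the values of the functions at `z` -/
noncomputable def cpt (E : Ell) (g : Fin n → ℂ) (l : Fin d → Fin n → ℂ) (z : Fin n → ℂ) :
    EV d → ℂ
  | none => dot g z
  | some (k, i) => if i = 0 then E.x (dot (l k) z) else E.y (dot (l k) z)

/-- no form has a pole at `z` -/
def Good (E : Ell) (l : Fin d → Fin n → ℂ) (z : Fin n → ℂ) : Prop := ∀ k, dot (l k) z ∉ E.Λ

/-- the denominator -/
noncomputable def SP (E : Ell) (l : Fin d → Fin n → ℂ) (D : ℕ) (z : Fin n → ℂ) : ℂ :=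
  ∏ k, E.S (dot (l k) z) ^ (2 * D)

/-- the entire function -/
noncomputable def Phi (E : Ell) (g : Fin n → ℂ) (l : Fin d → Fin n → ℂ) (c : Idx D0 D d → ℂ)
    (z : Fin n → ℂ) : ℂ :=
  ∑ i, c i * (dot g z ^ (i.1 : ℕ) *
    ∏ k, (E.S (dot (l k) z) ^ (2 * (D - (i.2 k : ℕ))) * E.Q (dot (l k) z) ^ (i.2 k : ℕ)))

/-- directional derivative -/
noncomputable def Dd (w : Fin n → ℂ) (Φ : (Fin n → ℂ) → ℂ) : (Fin n → ℂ) → ℂ :=
  fun z => fderiv ℂ Φ z w

/-- iterated directional derivatives -/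
noncomputable def DW (ws : List (Fin n → ℂ)) (Φ : (Fin n → ℂ) → ℂ) : (Fin n → ℂ) → ℂ :=
  ws.foldr Dd Φ

/-- smooth -/
abbrev Sm (Φ : (Fin n → ℂ) → ℂ) : Prop := ContDiff ℂ (⊤ : ℕ∞) Φ

/-- the grid point `u + ∑ a_i v_i` -/
def gq (u : Fin n → ℂ) (v : Fin n → Fin n → ℂ) (a : Fin n → ℕ) : Fin n → ℂ :=
  fun j => u j + ∑ i, (a i : ℂ) * v i j

/-- the endomorphism field `{c : N c Λ ⊆ Λ for some N > 0}` -/
def EndF (L : PeriodPair) : Set ℂ :=
  {c | ∃ N : ℕ, 0 < N ∧ ∀ x ∈ L.lattice, (N : ℂ) * c * x ∈ L.lattice}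

/-- elliptic logarithms of algebraic points (and periods) -/
def ELog (L : PeriodPair) : Set ℂ := {u | u ∈ L.lattice ∨ IsAlgebraic ℚ (L.weierstrassP u)}

end Pool.Agent.EBM
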