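import Pool.Agent.EBM.Defs

/-! # Directional derivatives of smooth functions on `ℂ^n` -/

namespace Pool.Agent.EBM
open Pool.Agent.BKR

variable {n : ℕ}

theorem sm_Dd {Φ : (Fin n → ℂ) → ℂ} (h : Sm Φ) (w : Fin n → ℂ) : Sm (Dd w Φ) := by
  have h1 : ContDiff ℂ (⊤ : ℕ∞) (fderiv ℂ Φ) := h.fderiv_right (by simp)
  exact h1.clm_apply contDiff_const

theorem sm_DW {Φ : (Fin n → ℂ) → ℂ} (h : Sm Φ) (ws : List (Fin n → ℂ)) : Sm (DW ws Φ) := by
  induction ws with
  | nil => exact h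
  | cons w ws ih => exact sm_Dd ih w

private theorem dir_diff {Φ : (Fin n → ℂ) → ℂ} (h : Sm Φ) : Differentiable ℂ Φ :=
  h.differentiable (by simp)

private theorem dir_diff' {Φ : (Fin n → ℂ) → ℂ} (h : Sm Φ) : Differentiable ℂ (fderiv ℂ Φ) := by
  have h1 : ContDiff ℂ (⊤ : ℕ∞) (fderiv ℂ Φ) := h.fderiv_right (by simp)
  exact h1.differentiable (by simp)

private theorem dir_snd {Φ : (Fin n → ℂ) → ℂ} (h : Sm Φ) (w w' z : Fin n → ℂ) :
    Dd w (Dd w' Φ) z = fderiv ℂ (fderiv ℂ Φ) z w w' := by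
  unfold Dd
  rw [fderiv_clm_apply (dir_diff' h z) (differentiableAt_const w')]
  simp

theorem Dd_comm {Φ : (Fin n → ℂ) → ℂ} (h : Sm Φ) (w w' : Fin n → ℂ) :
    Dd w (Dd w' Φ) = Dd w' (Dd w Φ) := by
  funext z
  rw [dir_snd h, dir_snd h]
  have hs : IsSymmSndFDerivAt ℂ Φ z := by
    refine ContDiffAt.isSymmSndFDerivAt (n := ((⊤ : ℕ∞) : WithTop ℕ∞)) h.contDiffAt ?_
    rw [minSmoothness_of_isRCLikeNormedField]
    exact WithTop.coe_le_coe.2 (le_top : (2 : ℕ∞) ≤ ⊤)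
  exact hs.eq w w'

theorem DW_append (ws ws' : List (Fin n → ℂ)) (Φ : (Fin n → ℂ) → ℂ) :
    DW (ws ++ ws') Φ = DW ws (DW ws' Φ) := by
  unfold DW
  rw [List.foldr_append]

private theorem DW_cons (w : Fin n → ℂ) (ws : List (Fin n → ℂ)) (Φ : (Fin n → ℂ) → ℂ) :
    DW (w :: ws) Φ = Dd w (DW ws Φ) := rfl

theorem DW_perm {Φ : (Fin n → ℂ) → ℂ} (h : Sm Φ) {ws ws' : List (Fin n → ℂ)}
    (hp : ws.Perm ws') : DW ws Φ = DW ws' Φ := by
  induction hp with
  | nil => rfl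
  | cons w _ ih => rw [DW_cons, DW_cons, ih]
  | swap w w' l => rw [DW_cons, DW_cons, DW_cons, DW_cons, Dd_comm (sm_DW h l)]
  | trans _ _ ih1 ih2 => exact ih1.trans ih2

private theorem dir_Dd_sum {ι : Type*} (s : Finset ι) (x : ι → ℂ) (G : ι → (Fin n → ℂ) → ℂ)
    (hG : ∀ i, Sm (G i)) (w : Fin n → ℂ) :
    Dd w (fun z => ∑ i ∈ s, x i * G i z) = fun z => ∑ i ∈ s, x i * Dd w (G i) z := by
  funext z
  have h1 : HasFDerivAt (fun z => ∑ i ∈ s, x i * G i z)
      (∑ i ∈ s, x i • fderiv ℂ (G i) z) z :=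
    HasFDerivAt.fun_sum fun i _ => (((dir_diff (hG i)) z).hasFDerivAt).const_mul (x i)
  unfold Dd
  rw [h1.fderiv, sum_apply]
  exact Finset.sum_congr rfl fun i _ => by simp

private theorem dir_DW_sum {ι : Type*} (s : Finset ι) (x : ι → ℂ) (G : ι → (Fin n → ℂ) → ℂ)
    (hG : ∀ i, Sm (G i)) (ws : List (Fin n → ℂ)) :
    DW ws (fun z => ∑ i ∈ s, x i * G i z) = fun z => ∑ i ∈ s, x i * DW ws (G i) z := by
  induction ws with
  | nil => rfl
  | cons w ws ih =>
    rw [DW_cons, ih, dir_Dd_sum s x _ (fun i => sm_DW (hG i) ws)]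
    rfl

/-- linearity in one direction -/
theorem DW_sum_dir {Φ : (Fin n → ℂ) → ℂ} (h : Sm Φ) (ws ws' : List (Fin n → ℂ)) {ι : Type*}
    (s : Finset ι) (x : ι → ℂ) (u : ι → Fin n → ℂ) (z : Fin n → ℂ) :
    DW (ws ++ (fun j => ∑ i ∈ s, x i * u i j) :: ws') Φ z =
      ∑ i ∈ s, x i * DW (ws ++ u i :: ws') Φ z := by
  have h1 : Dd (fun j => ∑ i ∈ s, x i * u i j) (DW ws' Φ) =
      fun z => ∑ i ∈ s, x i * Dd (u i) (DW ws' Φ) z := by
    funext y
    unfold Dd
    have h2 : (fun j => ∑ i ∈ s, x i * u i j) = ∑ i ∈ s, x i • u i := by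
      funext j
      simp [Finset.sum_apply]
    rw [h2, map_sum]
    exact Finset.sum_congr rfl fun i _ => by rw [map_smul, smul_eq_mul]
  rw [DW_append, DW_cons, h1, dir_DW_sum s x _ (fun i => sm_Dd (sm_DW h ws') (u i))]
  refine Finset.sum_congr rfl fun i _ => ?_
  rw [DW_append, DW_cons]

private theorem dir_line {Φ : (Fin n → ℂ) → ℂ} (h : Sm Φ) (z w : Fin n → ℂ) (s : ℂ) :
    HasDerivAt (fun s : ℂ => Φ (fun j => z j + s * w j)) (Dd w Φ (fun j => z j + s * w j)) s := by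
  have h1 : HasDerivAt (fun s : ℂ => (fun j => z j + s * w j : Fin n → ℂ)) w s := by
    rw [hasDerivAt_pi]
    intro j
    simpa using ((hasDerivAt_id s).mul_const (w j)).const_add (z j)
  exact ((dir_diff h) (fun j => z j + s * w j)).hasFDerivAt.comp_hasDerivAt s h1

theorem iteratedDeriv_line {Φ : (Fin n → ℂ) → ℂ} (h : Sm Φ) (z w : Fin n → ℂ) (k : ℕ) (s : ℂ) :
    iteratedDeriv k (fun s : ℂ => Φ (fun j => z j + s * w j)) s =
      DW (List.replicate k w) Φ (fun j => z j + s * w j) := by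
  induction k generalizing s with
  | zero => simp [DW]
  | succ k ih =>
    rw [iteratedDeriv_succ]
    have h' : iteratedDeriv k (fun s : ℂ => Φ (fun j => z j + s * w j)) =
        fun s => DW (List.replicate k w) Φ (fun j => z j + s * w j) := funext ih
    rw [h', (dir_line (sm_DW h (List.replicate k w)) z w s).deriv, List.replicate_succ]
    rfl

theorem differentiable_line {Φ : (Fin n → ℂ) → ℂ} (h : Sm Φ) (z w : Fin n → ℂ) :
    Differentiable ℂ fun s : ℂ => Φ (fun j => z j + s * w j) :=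
  fun s => (dir_line h z w s).differentiableAt

private theorem dir_bound_aux {Φ : (Fin n → ℂ) → ℂ} (h : Sm Φ) (V ρ M : ℝ) (N : ℕ) (hN : 0 < N)
    (hΦ : ∀ z : Fin n → ℂ, (∀ j, ‖z j‖ ≤ ρ + V) → ‖Φ z‖ ≤ M)
    (ws : List (Fin n → ℂ)) (hw : ∀ w ∈ ws, ∀ j, ‖w j‖ ≤ V) (z : Fin n → ℂ)
    (hz : ∀ j, ‖z j‖ ≤ ρ + V - V * (ws.length / N)) :
    ‖DW ws Φ z‖ ≤ (N : ℝ) ^ ws.length * M := by
  induction ws generalizing z with
  | nil =>
    simp only [List.length_nil, CharP.cast_eq_zero, zero_div, mul_zero, sub_zero] at hz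
    simpa [DW] using hΦ z hz
  | cons w ws ih =>
    have hN' : (0 : ℝ) < N := by exact_mod_cast hN
    have hw' : ∀ w ∈ ws, ∀ j, ‖w j‖ ≤ V := fun v hv => hw v (List.mem_cons_of_mem _ hv)
    have hd : deriv (fun s : ℂ => DW ws Φ (fun j => z j + s * w j)) 0 = Dd w (DW ws Φ) z := by
      have := (dir_line (sm_DW h ws) z w 0).deriv
      simpa using this
    rw [DW_cons, ← hd]
    have hR : (0 : ℝ) < 1 / N := by positivity
    have hb := Complex.norm_deriv_le_of_forall_mem_sphere_norm_le (c := 0) (R := 1 / (N : ℝ))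
      (C := (N : ℝ) ^ ws.length * M) (f := fun s : ℂ => DW ws Φ (fun j => z j + s * w j)) hR
      (differentiable_line (sm_DW h ws) z w).diffContOnCl (fun s hs => ?_)
    · refine hb.trans (le_of_eq ?_)
      rw [List.length_cons, pow_succ]
      field_simp
    · refine ih hw' _ fun j => ?_
      have hs' : ‖s‖ = 1 / N := by simpa using hs
      have h1 : ‖z j + s * w j‖ ≤ ‖z j‖ + 1 / N * V := by
        refine (norm_add_le _ _).trans ?_
        rw [norm_mul, hs']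
        have := hw w (List.mem_cons_self) j
        gcongr
      refine h1.trans ?_
      have h2 := hz j
      rw [List.length_cons] at h2
      push_cast at h2
      have h3 : V * (((ws.length : ℝ) + 1) / N) = V * (ws.length / N) + 1 / N * V := by
        field_simp
      linarith

/-- Cauchy's inequalities -/
theorem DW_bound {Φ : (Fin n → ℂ) → ℂ} (h : Sm Φ) (ws : List (Fin n → ℂ)) (V ρ M : ℝ)
    (hV : 0 ≤ V) (hM : 0 ≤ M) (hw : ∀ w ∈ ws, ∀ j, ‖w j‖ ≤ V)
    (hΦ : ∀ z : Fin n → ℂ, (∀ j, ‖z j‖ ≤ ρ + V) → ‖Φ z‖ ≤ M) (z : Fin n → ℂ)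
    (hz : ∀ j, ‖z j‖ ≤ ρ) : ‖DW ws Φ z‖ ≤ (ws.length : ℝ) ^ ws.length * M := by
  rcases Nat.eq_zero_or_pos ws.length with h0 | h0
  · have hnil : ws = [] := List.length_eq_zero_iff.1 h0
    subst hnil
    simpa [DW] using hΦ z fun j => (hz j).trans (by linarith)
  · refine dir_bound_aux h V ρ M ws.length h0 hΦ ws hw z fun j => ?_
    have h1 : (ws.length : ℝ) ≠ 0 := by exact_mod_cast h0.ne'
    rw [div_self h1, mul_one]
    simpa using hz j

end Pool.Agent.EBM
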