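import Pool.Agent.EBM.Defs
import Pool.Agent.CHU.SL2K

/-! # The elliptic logarithms of algebraic points form a group -/

namespace Pool.Agent.EBM
open Pool.Agent.CHU.SL

theorem elog_add' (L : PeriodPair) (h2 : IsAlgebraic ℚ L.g₂) (h3 : IsAlgebraic ℚ L.g₃)
    {u w : ℂ} (hu : u ∈ ELog L) (hw : w ∈ ELog L) : u + w ∈ ELog L := by
  have per : ∀ z l : ℂ, l ∈ L.lattice → z ∈ ELog L → z + l ∈ ELog L := by
    intro z l hl hz
    rcases hz with hz | hz
    · exact Or.inl (L.lattice.add_mem hz hl)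
    · have e1 := L.weierstrassP_add_coe z ⟨l, hl⟩
      simp only at e1
      exact Or.inr (by rw [e1]; exact hz)
  by_cases hul : u ∈ L.lattice
  · rw [add_comm]
    exact per w u hul hw
  by_cases hwl : w ∈ L.lattice
  · exact per u w hwl hu
  by_cases huw : u + w ∈ L.lattice
  · exact Or.inl huw
  have hPu : IsAlgebraic ℚ (L.weierstrassP u) := hu.resolve_left hul
  have hPw : IsAlgebraic ℚ (L.weierstrassP w) := hw.resolve_left hwl
  have a4 : IsAlgebraic ℚ (-(1 / 4) : ℂ) := by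
    have := isAlgebraic_algebraMap (R := ℚ) (A := ℂ) (-(1 / 4) : ℚ)
    simpa using this
  obtain ⟨g, hg⟩ : ∃ g : ℂ, g = -(1 / 4) * L.g₂ := ⟨_, rfl⟩
  obtain ⟨b, hb⟩ : ∃ b : ℂ, b = -(1 / 4) * L.g₃ := ⟨_, rfl⟩
  have ag : IsAlgebraic ℚ g := by rw [hg]; exact a4.mul h2
  have ab : IsAlgebraic ℚ b := by rw [hb]; exact a4.mul h3
  have k2 : L.g₂ = -4 * g := by rw [hg]; ring
  have k3 : L.g₃ = -4 * b := by rw [hb]; ring
  have key := InK_add L g b k2 k3 (algebraicClosure ℚ ℂ) (mem_algebraicClosure_iff.2 ag) u w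
    hul hwl huw
    ⟨mem_algebraicClosure_iff.2 hPu, mem_algebraicClosure_iff.2 (y_alg L g b k2 k3 ag ab u hul hPu)⟩
    ⟨mem_algebraicClosure_iff.2 hPw, mem_algebraicClosure_iff.2 (y_alg L g b k2 k3 ag ab w hwl hPw)⟩
  exact Or.inr (mem_algebraicClosure_iff.1 key.1)

theorem elog_sum' (L : PeriodPair) (h2 : IsAlgebraic ℚ L.g₂) (h3 : IsAlgebraic ℚ L.g₃)
    {ι : Type*} (s : Finset ι) (u : ι → ℂ) (hu : ∀ i ∈ s, u i ∈ ELog L) :
    ∑ i ∈ s, u i ∈ ELog L := by
  classical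
  induction s using Finset.induction_on with
  | empty =>
    rw [Finset.sum_empty]
    exact Or.inl (zero_mem _)
  | insert a s ha ih =>
    rw [Finset.sum_insert ha]
    exact elog_add' L h2 h3 (hu a (Finset.mem_insert_self a s))
      (ih fun i hi => hu i (Finset.mem_insert_of_mem hi))

end Pool.Agent.EBM
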