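import Pool.Agent.EBM.Defs
import Pool.Agent.CHU.CMP

/-! # Multiplication of elliptic logarithms by elements of the endomorphism field -/

set_option autoImplicit false

namespace Pool.Agent.EBM
open Pool.Agent.CHU

/-- a number which maps the lattice into itself is algebraic -/
theorem stab_alg (L : PeriodPair) (al : ℂ) (hal : ∀ l ∈ L.lattice, al * l ∈ L.lattice) :
    IsAlgebraic ℚ al := by
  have h1 : L.ω₁ ≠ 0 := by
    have hind := LinearIndependent.pair_iff.mp L.indep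
    intro h
    have := hind 1 0 (by simp [h])
    exact one_ne_zero this.1
  obtain ⟨p, q, h4⟩ := PeriodPair.mem_lattice.mp (hal _ L.ω₁_mem_lattice)
  obtain ⟨p', q', h5⟩ := PeriodPair.mem_lattice.mp (hal _ L.ω₂_mem_lattice)
  have key : al ^ 2 - ((p + q' : ℤ) : ℂ) * al + ((p * q' - q * p' : ℤ) : ℂ) = 0 := by
    have : (al ^ 2 - ((p + q' : ℤ) : ℂ) * al + ((p * q' - q * p' : ℤ) : ℂ)) * L.ω₁ = 0 := by
      push_cast
      linear_combination (-(al - q')) * h4 - (q : ℂ) * h5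
    exact (mul_eq_zero.mp this).resolve_right h1
  obtain ⟨c, hc⟩ : ∃ c : ℚ, c = ((p + q' : ℤ) : ℚ) := ⟨_, rfl⟩
  obtain ⟨d, hd⟩ : ∃ d : ℚ, d = ((p * q' - q * p' : ℤ) : ℚ) := ⟨_, rfl⟩
  refine ⟨Polynomial.X ^ 2 - Polynomial.C c * Polynomial.X + Polynomial.C d, ?_, ?_⟩
  · intro h
    have h6 : (Polynomial.X ^ 2 - Polynomial.C c * Polynomial.X +
      Polynomial.C d : Polynomial ℚ).natDegree = 2 := by compute_degree!
    rw [h] at h6
    simp at h6
  · rw [← key, hc, hd]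
    simp

/-- an element of the endomorphism field is algebraic -/
theorem endF_alg' (L : PeriodPair) {c : ℂ} (hc : c ∈ EndF L) : IsAlgebraic ℚ c := by
  obtain ⟨N, hN, h⟩ := hc
  have h1 := stab_alg L ((N : ℂ) * c) h
  have h2 : IsAlgebraic ℚ ((N : ℂ)) := by
    have := CM_alg_int (N : ℤ)
    simpa using this
  have hN0 : (N : ℂ) ≠ 0 := by exact_mod_cast hN.ne'
  have h3 : c = (N : ℂ)⁻¹ * ((N : ℂ) * c) := by field_simp
  rw [h3]
  exact h2.inv.mul h1

/-- `℘` is algebraic at the torsion points -/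
theorem P_tors (L : PeriodPair) (h2 : IsAlgebraic ℚ L.g₂) (h3 : IsAlgebraic ℚ L.g₃) (w : ℂ)
    (hw : w ∉ L.lattice) (n : ℕ) (hn : 0 < n) (hnw : (n : ℂ) * w ∈ L.lattice) :
    IsAlgebraic ℚ (L.weierstrassP w) :=
  P_torsion_alg L (((-1 / 4 : ℚ) : ℂ) * L.g₂) (((-1 / 4 : ℚ) : ℂ) * L.g₃)
    (ZFR.SchSc_rat _ h2) (ZFR.SchSc_rat _ h3) (by push_cast; ring) (by push_cast; ring) w hw n hn
    hnw

/-- division by a positive integer -/
theorem P_div_alg (L : PeriodPair) (h2 : IsAlgebraic ℚ L.g₂) (h3 : IsAlgebraic ℚ L.g₃) (w : ℂ)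
    (hw : w ∉ L.lattice) (n : ℕ) (hn : 0 < n)
    (hnw : IsAlgebraic ℚ (L.weierstrassP ((n : ℂ) * w))) : IsAlgebraic ℚ (L.weierstrassP w) := by
  by_cases hw2 : 2 * ((n : ℂ) * w) ∈ L.lattice
  · refine P_tors L h2 h3 w hw (2 * n) (by omega) ?_
    have e : ((2 * n : ℕ) : ℂ) * w = 2 * ((n : ℂ) * w) := by push_cast; ring
    rw [e]
    exact hw2
  have hw1 : 2 * w ∉ L.lattice := by
    intro h
    apply hw2
    have e : 2 * ((n : ℂ) * w) = (n : ℤ) • (2 * w) := by rw [zsmul_eq_mul]; push_cast; ring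
    rw [e]
    exact L.lattice.smul_mem _ h
  obtain ⟨a, ha⟩ : ∃ a, a = ((-1 / 4 : ℚ) : ℂ) * L.g₂ := ⟨_, rfl⟩
  obtain ⟨b, hb⟩ : ∃ b, b = ((-1 / 4 : ℚ) : ℂ) * L.g₃ := ⟨_, rfl⟩
  have ha' : IsAlgebraic ℚ a := by rw [ha]; exact ZFR.SchSc_rat _ h2
  have hb' : IsAlgebraic ℚ b := by rw [hb]; exact ZFR.SchSc_rat _ h3
  have e2 : L.g₂ = -4 * a := by rw [ha]; push_cast; ring
  have e3 : L.g₃ = -4 * b := by rw [hb]; push_cast; ring
  refine CM_alg_of_derivation _ fun D => ?_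
  obtain ⟨A, B, hAB⟩ := ZFR.exists_AB L a b e2 e3 D (CM_der_alg D ha') (CM_der_alg D hb')
    (fun z w => ZFR.zeta_add L a b e2 e3 z w) (fun z w => ZFR.derivP_add L a b e2 e3 z w)
  have hA : A ((n : ℂ) * w) = 0 := by
    have h6 := (hAB _ hw2).1
    rw [CM_der_alg D hnw] at h6
    exact (mul_eq_zero.1 h6.symm).resolve_right (ZFR.derivP_ne_zero L a b e2 e3 hw2)
  have h5 : A ((n : ℂ) * w) = (n : ℂ) * A w := by
    rw [← nsmul_eq_mul, map_nsmul, nsmul_eq_mul]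
  rw [h5] at hA
  have h6 : A w = 0 := (mul_eq_zero.1 hA).resolve_left (by exact_mod_cast hn.ne')
  rw [(hAB w hw1).1, h6, zero_mul]

/-- the elliptic logarithms are closed under multiplication by the endomorphism field -/
theorem elog_mul' (L : PeriodPair) (h2 : IsAlgebraic ℚ L.g₂) (h3 : IsAlgebraic ℚ L.g₃) {c u : ℂ}
    (hc : c ∈ EndF L) (hu : u ∈ ELog L) : c * u ∈ ELog L := by
  by_cases hz : c * u ∈ L.lattice
  · exact Or.inl hz
  right
  obtain ⟨N, hN, hNc⟩ := hc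
  by_cases hv : (N : ℂ) * (c * u) ∈ L.lattice
  · exact P_tors L h2 h3 _ hz N hN hv
  rcases hu with hu | hu
  · exact absurd (by have := hNc u hu; rwa [mul_assoc] at this) hv
  have hc0 : c ≠ 0 := by
    rintro rfl
    apply hz
    rw [zero_mul]
    exact L.lattice.zero_mem
  have hN0 : (N : ℂ) ≠ 0 := by exact_mod_cast hN.ne'
  refine P_div_alg L h2 h3 _ hz N hN ?_
  have hv' : (N : ℂ) * c * u ∉ L.lattice := by rwa [mul_assoc]
  have h := P_CM_alg L h2 h3 ((N : ℂ) * c) (mul_ne_zero hN0 hc0) (stab_alg L _ hNc) hNc u hv' hu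
  rwa [mul_assoc] at h

end Pool.Agent.EBM
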