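import Pool.Agent.EBM.ELogK
import Pool.Agent.EBM.ELogAdd
import Pool.Agent.EBM.ELogMul

/-! # The group of elliptic logarithms, the endomorphism field -/

namespace Pool.Agent.EBM

variable (L : PeriodPair)

variable (h2 : IsAlgebraic ℚ L.g₂) (h3 : IsAlgebraic ℚ L.g₃)
include h2 h3

theorem elog_add {u w : ℂ} (hu : u ∈ ELog L) (hw : w ∈ ELog L) : u + w ∈ ELog L :=
  elog_add' L h2 h3 hu hw

theorem elog_sum {ι : Type*} (s : Finset ι) (u : ι → ℂ) (hu : ∀ i ∈ s, u i ∈ ELog L) :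
    ∑ i ∈ s, u i ∈ ELog L :=
  elog_sum' L h2 h3 s u hu

/-- multiplication by elements of the endomorphism field -/
theorem elog_mul {c u : ℂ} (hc : c ∈ EndF L) (hu : u ∈ ELog L) : c * u ∈ ELog L :=
  elog_mul' L h2 h3 hc hu

end Pool.Agent.EBM
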