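import Pool.Agent.EBM.Defs

/-! # The endomorphism field of a lattice -/

namespace Pool.Agent.EBM

variable (L : PeriodPair)

theorem endF_alg0 {L : PeriodPair} {θ : ℂ} (h : ∀ x ∈ L.lattice, θ * x ∈ L.lattice) :
    IsAlgebraic ℚ θ := by
  obtain ⟨a, b, h1⟩ := PeriodPair.mem_lattice.1 (h _ L.ω₁_mem_lattice)
  obtain ⟨p, q, h2⟩ := PeriodPair.mem_lattice.1 (h _ L.ω₂_mem_lattice)
  have hne : L.ω₁ ≠ 0 := by
    have := L.indep.ne_zero 0
    simpa using this
  have h3 : (θ - a) * (θ - q) - b * p = 0 := by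
    have h4 : ((θ - a) * (θ - q) - b * p) * L.ω₁ = 0 := by
      linear_combination (-(θ - q)) * h1 - (b : ℂ) * h2
    exact (mul_eq_zero.1 h4).resolve_right hne
  refine ⟨(Polynomial.X - Polynomial.C (a : ℚ)) * (Polynomial.X - Polynomial.C (q : ℚ)) -
    Polynomial.C ((b : ℚ) * p), ?_, ?_⟩
  · intro h0
    have hm : ((Polynomial.X - Polynomial.C (a : ℚ)) * (Polynomial.X - Polynomial.C (q : ℚ)) -
        Polynomial.C ((b : ℚ) * p)).Monic := by
      have h5 : ((Polynomial.X - Polynomial.C (a : ℚ)) *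
          (Polynomial.X - Polynomial.C (q : ℚ))).Monic :=
        (Polynomial.monic_X_sub_C _).mul (Polynomial.monic_X_sub_C _)
      refine h5.sub_of_left ?_
      refine Polynomial.degree_C_le.trans_lt ?_
      rw [Polynomial.degree_mul, Polynomial.degree_X_sub_C, Polynomial.degree_X_sub_C]
      norm_num
    rw [h0] at hm
    exact hm.ne_zero rfl
  · simp only [map_sub, map_mul, Polynomial.aeval_X, Polynomial.aeval_C, eq_ratCast, Rat.cast_intCast]
    exact h3

theorem endF_alg {c : ℂ} (hc : c ∈ EndF L) : IsAlgebraic ℚ c := by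
  obtain ⟨N, hN, h⟩ := hc
  have h1 : IsAlgebraic ℚ ((N : ℂ) * c) := endF_alg0 h
  have h2 : c = ((N : ℚ)⁻¹ : ℚ) • ((N : ℂ) * c) := by
    have : (N : ℂ) ≠ 0 := by exact_mod_cast hN.ne'
    rw [Algebra.smul_def]
    simp only [eq_ratCast, Rat.cast_inv, Rat.cast_natCast]
    field_simp
  rw [h2]
  exact h1.smul _

/-- the endomorphism field as a subalgebra -/
noncomputable def EndA : Subalgebra ℚ ℂ where
  carrier := EndF L
  mul_mem' := by
    rintro c d ⟨N, hN, hc⟩ ⟨M, hM, hd⟩
    refine ⟨N * M, Nat.mul_pos hN hM, fun x hx => ?_⟩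
    have := hc _ (hd x hx)
    convert this using 1
    push_cast; ring
  add_mem' := by
    rintro c d ⟨N, hN, hc⟩ ⟨M, hM, hd⟩
    refine ⟨N * M, Nat.mul_pos hN hM, fun x hx => ?_⟩
    have h1 := L.lattice.smul_mem (M : ℤ) (hc x hx)
    have h2 := L.lattice.smul_mem (N : ℤ) (hd x hx)
    have h3 := L.lattice.add_mem h1 h2
    convert h3 using 1
    simp only [zsmul_eq_mul, Int.cast_natCast]
    push_cast; ring
  algebraMap_mem' := by
    intro q
    refine ⟨q.den, q.den_pos, fun x hx => ?_⟩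
    have h1 := L.lattice.smul_mem q.num hx
    convert h1 using 1
    have h2 : ((q.den : ℂ)) * (q : ℂ) = (q.num : ℂ) := by
      have := Rat.den_mul_eq_num q
      exact_mod_cast this
    rw [zsmul_eq_mul, eq_ratCast, h2]

/-- the endomorphism field as an intermediate field -/
noncomputable def EndK : IntermediateField ℚ ℂ :=
  (EndA L).toIntermediateField fun x hx =>
    (EndA L).inv_mem_of_algebraic (x := ⟨x, hx⟩) (endF_alg L hx)

theorem mem_EndK (c : ℂ) : c ∈ EndK L ↔ c ∈ EndF L := Iff.rfl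

theorem elog_zero : (0 : ℂ) ∈ ELog L := Or.inl (zero_mem _)

end Pool.Agent.EBM
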