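import Pool.Agent.EBM.ELog
import Pool.Agent.CHU.SL2K

/-! # All values on the grid lie in one number field -/

namespace Pool.Agent.EBM
open Pool.Agent.BKR

private theorem flde_dot (n : ℕ) (l : Fin n → ℂ) (u : Fin n → ℂ) (v : Fin n → Fin n → ℂ)
    (a : Fin n → ℕ) : dot l (gq u v a) = dot l u + ∑ i, (a i : ℂ) * dot l (v i) := by
  simp only [dot, gq, mul_add, Finset.sum_add_distrib, Finset.mul_sum]
  congr 1
  rw [Finset.sum_comm]
  refine Finset.sum_congr rfl fun i _ => Finset.sum_congr rfl fun j _ => ?_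
  ring

/-- adding points one after the other inside the grid -/
private theorem flde_grid (L : PeriodPair) (g b : ℂ) (h2 : L.g₂ = -4 * g) (h3 : L.g₃ = -4 * b)
    (K : IntermediateField ℚ ℂ) (hg : g ∈ K) (n : ℕ) (U : ℂ) (V : Fin n → ℂ)
    (hgr : ∀ a : Fin n → ℕ, U + ∑ i, (a i : ℂ) * V i ∉ L.lattice)
    (hU : CHU.SL.InK L K U) (hV : ∀ i, V i ∉ L.lattice → CHU.SL.InK L K (V i)) :
    ∀ (m : ℕ) (a : Fin n → ℕ), ∑ i, a i = m →
      CHU.SL.InK L K (U + ∑ i, (a i : ℂ) * V i) := by
  intro m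
  induction m with
  | zero =>
    intro a ha
    have h0 : ∀ i, a i = 0 := fun i => (Finset.sum_eq_zero_iff.1 ha) i (Finset.mem_univ i)
    simpa [h0] using hU
  | succ m ih =>
    intro a ha
    have hex : ∃ i, a i ≠ 0 := by
      by_contra hc
      push Not at hc
      simp [hc] at ha
    obtain ⟨i0, hi0⟩ := hex
    classical
    set a' : Fin n → ℕ := Function.update a i0 (a i0 - 1) with ha'
    have hsum : ∑ i, a' i = m := by
      have h1 : ∑ i, a' i + 1 = ∑ i, a i := by
        rw [ha', Finset.sum_update_of_mem (Finset.mem_univ i0),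
          ← Finset.add_sum_erase Finset.univ a (Finset.mem_univ i0),
          Finset.sdiff_singleton_eq_erase]
        omega
      omega
    have he : U + ∑ i, (a i : ℂ) * V i = (U + ∑ i, (a' i : ℂ) * V i) + V i0 := by
      have h1 : ∑ i, (a i : ℂ) * V i = ∑ i, (a' i : ℂ) * V i + V i0 := by
        rw [← Finset.add_sum_erase Finset.univ (fun i => (a i : ℂ) * V i) (Finset.mem_univ i0),
          ← Finset.add_sum_erase Finset.univ (fun i => (a' i : ℂ) * V i) (Finset.mem_univ i0)]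
        have h2' : ∑ x ∈ Finset.univ.erase i0, (a' x : ℂ) * V x =
            ∑ x ∈ Finset.univ.erase i0, (a x : ℂ) * V x := by
          refine Finset.sum_congr rfl fun x hx => ?_
          rw [ha', Function.update_of_ne (Finset.ne_of_mem_erase hx)]
        have h3' : ((a' i0 : ℕ) : ℂ) + 1 = (a i0 : ℂ) := by
          have : a' i0 + 1 = a i0 := by
            rw [ha', Function.update_self]
            omega
          exact_mod_cast this
        rw [h2', ← h3']
        ring
      rw [h1]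
      ring
    rw [he]
    have hin := ih a' hsum
    by_cases hl : V i0 ∈ L.lattice
    · exact CHU.SL.InK_lat L K _ _ hl hin
    · refine CHU.SL.InK_add L g b h2 h3 K hg _ _ (hgr a') hl ?_ hin (hV i0 hl)
      rw [← he]
      exact hgr a

/-- addition law: CHU/SL2K `InK_add`, `InK_lat`, `y_alg` -/
theorem exists_fld (L : PeriodPair) (h2 : IsAlgebraic ℚ L.g₂) (h3 : IsAlgebraic ℚ L.g₃)
    (E : Ell) (hΛ : E.Λ = L.lattice.toAddSubgroup) (hx : E.x = L.weierstrassP)
    (hy : ∀ z, E.y z = L.derivWeierstrassP z / 2) (ha : E.a = -L.g₂ / 4) (n d : ℕ)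
    (g : Fin n → ℂ) (l : Fin d → Fin n → ℂ) (v : Fin n → Fin n → ℂ) (u : Fin n → ℂ)
    (hg : ∀ j, IsAlgebraic ℚ (g j)) (hl : ∀ k j, IsAlgebraic ℚ (l k j))
    (hgv : ∀ i, IsAlgebraic ℚ (dot g (v i))) (hgu : IsAlgebraic ℚ (dot g u))
    (hlv : ∀ k i, dot (l k) (v i) ∈ ELog L) (hlu : ∀ k, dot (l k) u ∈ ELog L)
    (hgrid : ∀ a : Fin n → ℕ, Good E l (gq u v a)) :
    ∃ (K : Type) (_ : Field K) (_ : NumberField K) (ι : K →+* ℂ) (aK : K) (gK : Fin n → K)
      (lK : Fin d → Fin n → K) (wK : (Fin n → ℕ) → EV d → K), ι aK = E.a ∧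
      (∀ j, ι (gK j) = g j) ∧ (∀ k j, ι (lK k j) = l k j) ∧
      ∀ a i, ι (wK a i) = cpt E g l (gq u v a) i := by
  classical
  have hgood : ∀ (a : Fin n → ℕ) (k : Fin d), dot (l k) (gq u v a) ∉ L.lattice := by
    intro a k h
    refine hgrid a k ?_
    rw [hΛ]
    exact h
  have hgood' : ∀ (k : Fin d) (a : Fin n → ℕ),
      dot (l k) u + ∑ i, (a i : ℂ) * dot (l k) (v i) ∉ L.lattice := by
    intro k a
    rw [← flde_dot]
    exact hgood a k
  have hulat : ∀ k, dot (l k) u ∉ L.lattice := by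
    intro k
    simpa using hgood' k 0
  -- the generators
  let X : (Unit ⊕ Fin n ⊕ (Fin d × Fin n)) ⊕ (Unit ⊕ Fin n) ⊕ (Fin d × Fin 2) ⊕
      (Fin d × Fin n × Fin 2) → ℂ := fun t => match t with
    | Sum.inl (Sum.inl _) => E.a
    | Sum.inl (Sum.inr (Sum.inl j)) => g j
    | Sum.inl (Sum.inr (Sum.inr (k, j))) => l k j
    | Sum.inr (Sum.inl (Sum.inl _)) => dot g u
    | Sum.inr (Sum.inl (Sum.inr i)) => dot g (v i)
    | Sum.inr (Sum.inr (Sum.inl (k, e))) =>
        if e = 0 then L.weierstrassP (dot (l k) u) else L.derivWeierstrassP (dot (l k) u) / 2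
    | Sum.inr (Sum.inr (Sum.inr (k, i, e))) =>
        if dot (l k) (v i) ∈ L.lattice then 0
        else if e = 0 then L.weierstrassP (dot (l k) (v i))
        else L.derivWeierstrassP (dot (l k) (v i)) / 2
  have hgE : L.g₂ = -4 * E.a := by rw [ha]; ring
  have hbE : L.g₃ = -4 * (-L.g₃ / 4) := by ring
  have hq : ∀ q : ℚ, IsAlgebraic ℚ (q : ℂ) := fun q => isAlgebraic_algebraMap q
  have haA : IsAlgebraic ℚ E.a := by
    have h4 : IsAlgebraic ℚ (((-1 / 4 : ℚ)) : ℂ) := hq _
    have : E.a = (((-1 / 4 : ℚ)) : ℂ) * L.g₂ := by rw [ha]; push_cast; ring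
    rw [this]
    exact h4.mul h2
  have hbA : IsAlgebraic ℚ (-L.g₃ / 4) := by
    have h4 : IsAlgebraic ℚ (((-1 / 4 : ℚ)) : ℂ) := hq _
    have : -L.g₃ / 4 = (((-1 / 4 : ℚ)) : ℂ) * L.g₃ := by push_cast; ring
    rw [this]
    exact h4.mul h3
  have hPalg : ∀ w ∈ ELog L, w ∉ L.lattice → IsAlgebraic ℚ (L.weierstrassP w) := by
    intro w hw hwl
    rcases hw with h | h
    · exact absurd h hwl
    · exact h
  have hXalg : ∀ t, IsAlgebraic ℚ (X t) := by
    rintro ((_ | j | ⟨k, j⟩) | (_ | i) | ⟨k, e⟩ | ⟨k, i, e⟩)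
    · exact haA
    · exact hg j
    · exact hl k j
    · exact hgu
    · exact hgv i
    · change IsAlgebraic ℚ (if e = 0 then L.weierstrassP (dot (l k) u)
        else L.derivWeierstrassP (dot (l k) u) / 2)
      have hP := hPalg _ (hlu k) (hulat k)
      split_ifs
      · exact hP
      · exact CHU.SL.y_alg L E.a (-L.g₃ / 4) hgE hbE haA hbA _ (hulat k) hP
    · change IsAlgebraic ℚ (if dot (l k) (v i) ∈ L.lattice then 0
        else if e = 0 then L.weierstrassP (dot (l k) (v i))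
        else L.derivWeierstrassP (dot (l k) (v i)) / 2)
      split_ifs with hlat he
      · exact isAlgebraic_zero
      · exact hPalg _ (hlv k i) hlat
      · exact CHU.SL.y_alg L E.a (-L.g₃ / 4) hgE hbE haA hbA _ hlat
          (hPalg _ (hlv k i) hlat)
  let K := IntermediateField.adjoin ℚ (Set.range X)
  have hXK : ∀ t, X t ∈ K := fun t => IntermediateField.subset_adjoin ℚ _ ⟨t, rfl⟩
  have hfin : FiniteDimensional ℚ K := by
    refine IntermediateField.finiteDimensional_adjoin ?_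
    rintro _ ⟨t, rfl⟩
    exact (hXalg t).isIntegral
  have hNF : NumberField K := { to_charZero := inferInstance, to_finiteDimensional := hfin }
  have haK : E.a ∈ K := hXK (Sum.inl (Sum.inl ()))
  have hgK : ∀ j, g j ∈ K := fun j => hXK (Sum.inl (Sum.inr (Sum.inl j)))
  have hlK : ∀ k j, l k j ∈ K := fun k j => hXK (Sum.inl (Sum.inr (Sum.inr (k, j))))
  have hguK : dot g u ∈ K := hXK (Sum.inr (Sum.inl (Sum.inl ())))
  have hgvK : ∀ i, dot g (v i) ∈ K := fun i => hXK (Sum.inr (Sum.inl (Sum.inr i)))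
  have hUK : ∀ k, CHU.SL.InK L K (dot (l k) u) := by
    intro k
    constructor
    · have := hXK (Sum.inr (Sum.inr (Sum.inl (k, 0))))
      simpa [X] using this
    · have := hXK (Sum.inr (Sum.inr (Sum.inl (k, 1))))
      simpa [X] using this
  have hVK : ∀ k i, dot (l k) (v i) ∉ L.lattice → CHU.SL.InK L K (dot (l k) (v i)) := by
    intro k i hlat
    constructor
    · have := hXK (Sum.inr (Sum.inr (Sum.inr (k, i, 0))))
      simpa [X, hlat] using this
    · have := hXK (Sum.inr (Sum.inr (Sum.inr (k, i, 1))))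
      simpa [X, hlat] using this
  have hcpt : ∀ (a : Fin n → ℕ) (i : EV d), cpt E g l (gq u v a) i ∈ K := by
    intro a i
    rcases i with _ | ⟨k, e⟩
    · change dot g (gq u v a) ∈ K
      rw [flde_dot]
      exact K.add_mem hguK (K.sum_mem fun i _ => K.mul_mem (K.natCast_mem (a i)) (hgvK i))
    · have hin := flde_grid L E.a (-L.g₃ / 4) hgE hbE K haK n (dot (l k) u)
        (fun i => dot (l k) (v i)) (hgood' k) (hUK k) (hVK k) _ a rfl
      rw [← flde_dot] at hin
      change (if e = 0 then E.x (dot (l k) (gq u v a)) else E.y (dot (l k) (gq u v a))) ∈ K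
      split_ifs
      · rw [hx]
        exact hin.1
      · rw [hy]
        exact hin.2
  exact ⟨K, inferInstance, hNF, (K.val : K →+* ℂ), ⟨E.a, haK⟩, fun j => ⟨g j, hgK j⟩,
    fun k j => ⟨l k j, hlK k j⟩, fun a i => ⟨_, hcpt a i⟩, rfl, fun _ => rfl, fun _ _ => rfl,
    fun _ _ => rfl⟩

end Pool.Agent.EBM
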