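import Mathlib

/-! # Basis and dual basis of a finite extension `K / F`, embeddings over `F` -/

namespace Pool.Agent.EBM

/-- cf. BKR/Trace; `Algebra.traceForm F K`, `Algebra.trace_eq_sum_embeddings` -/
theorem exists_basisF (F K : Type) [Field F] [Field K] [CharZero F] [Algebra F K]
    [FiniteDimensional F K] [Algebra F ℂ] {ι : Type} [Fintype ι] (β : ι → K) :
    ∃ (δ : ℕ) (e e' : Fin δ → K) (cc : ι → Fin δ → Fin δ → F) (σs : Fin δ ≃ (K →ₐ[F] ℂ)),
      LinearIndependent F e' ∧
      (∀ j i, e i * β j = ∑ m, algebraMap F K (cc j i m) * e m) ∧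
      (∀ s s' : Fin δ, ∑ m, σs s (e m) * σs s' (e' m) = if s = s' then 1 else 0) ∧
      (∀ i m : Fin δ, ∑ s, σs s (e i) * σs s (e' m) = if i = m then 1 else 0) := by
  classical
  let b := Module.finBasis F K
  have hB : (Algebra.traceForm F K).Nondegenerate := traceForm_nondegenerate F K
  let b' := (Algebra.traceForm F K).dualBasis hB b
  have hcard : Fintype.card (K →ₐ[F] ℂ) = Module.finrank F K := AlgHom.card F K ℂ
  let σs : Fin (Module.finrank F K) ≃ (K →ₐ[F] ℂ) := (Fintype.equivFinOfCardEq hcard).symm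
  have h2 : ∀ i m : Fin (Module.finrank F K),
      ∑ s, σs s (b i) * σs s (b' m) = if i = m then 1 else 0 := by
    intro i m
    have h := LinearMap.BilinForm.apply_dualBasis_right hB (Algebra.traceForm_isSymm F) b i m
    rw [Algebra.traceForm_apply] at h
    have h3 : (algebraMap F ℂ) (Algebra.trace F K (b i * b' m)) =
        ∑ σ : K →ₐ[F] ℂ, σ (b i * b' m) := trace_eq_sum_embeddings ℂ
    rw [h] at h3
    have h4 : ∑ s, σs s (b i) * σs s (b' m) = ∑ σ : K →ₐ[F] ℂ, σ (b i * b' m) := by
      rw [← Fintype.sum_equiv σs (fun s => σs s (b i * b' m)) (fun σ => σ (b i * b' m))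
        (fun s => rfl)]
      exact Finset.sum_congr rfl fun s _ => (map_mul _ _ _).symm
    rw [h4, ← h3]
    split_ifs <;> simp
  refine ⟨Module.finrank F K, b, b', fun j i m => b.repr (b i * β j) m, σs,
    b'.linearIndependent, ?_, ?_, h2⟩
  · intro j i
    have h := b.sum_repr (b i * β j)
    conv_lhs => rw [← h]
    refine Finset.sum_congr rfl fun m _ => ?_
    rw [Algebra.smul_def]
  · intro s s'
    let A : Matrix (Fin (Module.finrank F K)) (Fin (Module.finrank F K)) ℂ :=
      fun i s => σs s (b i)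
    let C : Matrix (Fin (Module.finrank F K)) (Fin (Module.finrank F K)) ℂ :=
      fun s m => σs s (b' m)
    have h7 : A * C = 1 := by
      ext i m
      rw [Matrix.mul_apply, Matrix.one_apply]
      exact h2 i m
    have h8 : C * A = 1 := mul_eq_one_comm.mp h7
    have h9 := congrFun (congrFun h8 s') s
    rw [Matrix.mul_apply, Matrix.one_apply] at h9
    calc ∑ m, σs s (b m) * σs s' (b' m) = ∑ m, C s' m * A m s :=
          Finset.sum_congr rfl fun m _ => mul_comm _ _
      _ = if s' = s then 1 else 0 := h9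
      _ = if s = s' then 1 else 0 := by simp only [eq_comm]

end Pool.Agent.EBM
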