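import Pool.Agent.EBM.SLGL
import Pool.Agent.EBM.TraceF
import Pool.Agent.EBM.ELog

/-! # The elliptic Baker theorem: the inhomogeneous case from the homogeneous one -/

namespace Pool.Agent.EBM

/-- values of an embedding over the endomorphism field are algebraic -/
theorem inhE_alg (L : PeriodPair) (K : Type) [Field K] [Algebra (EndK L) K]
    [FiniteDimensional (EndK L) K] (σ : K →ₐ[EndK L] ℂ) (x : K) : IsAlgebraic ℚ (σ x) := by
  have h1 : IsAlgebraic (EndK L) x := Algebra.IsAlgebraic.isAlgebraic x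
  have h2 : IsAlgebraic (EndK L) (σ x) := h1.algHom σ
  have h3 : Algebra.IsAlgebraic ℚ (EndK L) := by
    refine ⟨fun c => ?_⟩
    have h4 : IsAlgebraic ℚ (c : ℂ) := endF_alg L ((mem_EndK L _).1 c.2)
    have h5 : IsAlgebraic ℚ (algebraMap (EndK L) ℂ c) := h4
    exact (isAlgebraic_algebraMap_iff (algebraMap (EndK L) ℂ).injective).1 h5
  exact h2.restrictScalars ℚ

/-- the pairing of the dual basis with the vectors `s_σ σ (e_i)` -/
theorem inhE_pair (L : PeriodPair) (K : Type) [Field K] [Algebra (EndK L) K]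
    {ι : Type} [Fintype ι] (p : ι → ℂ) (β : ι → K) {δ : ℕ} (e e' : Fin δ → K)
    (cc : ι → Fin δ → Fin δ → EndK L) (σs : Fin δ ≃ (K →ₐ[EndK L] ℂ))
    (hmul : ∀ j i, e i * β j = ∑ m, algebraMap (EndK L) K (cc j i m) * e m)
    (horth : ∀ i m : Fin δ, ∑ s, σs s (e i) * σs s (e' m) = if i = m then 1 else 0)
    (m i : Fin δ) :
    ∑ s, σs s (e' m) * ((∑ j, σs s (β j) * p j) * σs s (e i)) =
      ∑ j, (cc j i m : ℂ) * p j := by
  have h1 : ∀ s, σs s (e' m) * ((∑ j, σs s (β j) * p j) * σs s (e i)) =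
      ∑ j, p j * ∑ m', (cc j i m' : ℂ) * (σs s (e m') * σs s (e' m)) := by
    intro s
    have h2 : ∀ j, (σs s (e i) * σs s (β j)) = ∑ m', (cc j i m' : ℂ) * σs s (e m') := by
      intro j
      have h0 := congrArg (σs s) (hmul j i)
      rw [map_mul, map_sum] at h0
      rw [h0]
      refine Finset.sum_congr rfl fun m' _ => ?_
      rw [map_mul, AlgHom.commutes]
      rfl
    rw [Finset.sum_mul, Finset.mul_sum]
    refine Finset.sum_congr rfl fun j _ => ?_
    have h3 := h2 j
    calc σs s (e' m) * ((σs s (β j) * p j) * σs s (e i))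
        = p j * (((σs s (e i) * σs s (β j))) * σs s (e' m)) := by ring
      _ = p j * ((∑ m', (cc j i m' : ℂ) * σs s (e m')) * σs s (e' m)) := by rw [h3]
      _ = p j * ∑ m', (cc j i m' : ℂ) * (σs s (e m') * σs s (e' m)) := by
          rw [Finset.sum_mul]
          congr 1
          exact Finset.sum_congr rfl fun m' _ => by ring
  rw [Finset.sum_congr rfl fun s _ => h1 s, Finset.sum_comm]
  refine Finset.sum_congr rfl fun j _ => ?_
  rw [← Finset.mul_sum, Finset.sum_comm]
  have h4 : ∀ m', ∑ s, (cc j i m' : ℂ) * (σs s (e m') * σs s (e' m)) =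
      (cc j i m' : ℂ) * (if m' = m then 1 else 0) := by
    intro m'
    rw [← Finset.mul_sum, horth m' m]
  rw [Finset.sum_congr rfl fun m' _ => h4 m']
  simp [mul_comm]

theorem inhE_of_hom (L : PeriodPair) (h2 : IsAlgebraic ℚ L.g₂) (h3 : IsAlgebraic ℚ L.g₃)
    {ι : Type} [Fintype ι] (p : ι → ℂ) (hp : ∀ j, p j ∈ ELog L)
    (K : Type) [Field K] [Algebra (EndK L) K] [FiniteDimensional (EndK L) K]
    (β : ι → K) (hom : ∀ σ : K →ₐ[EndK L] ℂ, ∑ j, σ (β j) * p j = 0 → ∀ j, β j = 0)
    (σ : K →ₐ[EndK L] ℂ) (β0 : K) (h : σ β0 + ∑ j, σ (β j) * p j = 0) :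
    β0 = 0 ∧ ∀ j, β j = 0 := by
  by_cases hβ0 : β0 = 0
  · refine ⟨hβ0, hom σ ?_⟩
    simpa [hβ0] using h
  exfalso
  obtain ⟨δ, e, e', cc, σs, he', hmul, -, horth⟩ := exists_basisF (EndK L) K β
  have hne : ∀ s, ∑ j, σs s (β j) * p j ≠ 0 := by
    intro s hs
    have hb := hom (σs s) hs
    apply hβ0
    have h0 : σ β0 = 0 := by simpa [hb] using h
    exact (map_eq_zero σ).1 h0
  obtain ⟨s0, hs0⟩ : ∃ s0, σs s0 = σ := ⟨σs.symm σ, by simp⟩
  have hδ : 0 < δ := s0.pos
  have hsum : ∀ (c : Fin δ → ℂ) (m : Fin δ), (∀ s, ∑ i, c i * σs s (e i) = 0) → c m = 0 := by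
    intro c m h1
    have h4 : ∑ s, (∑ i, c i * σs s (e i)) * σs s (e' m) = c m := by
      have h5 : ∀ s, (∑ i, c i * σs s (e i)) * σs s (e' m) =
          ∑ i, c i * (σs s (e i) * σs s (e' m)) := by
        intro s
        rw [Finset.sum_mul]
        exact Finset.sum_congr rfl fun i _ => by ring
      rw [Finset.sum_congr rfl fun s _ => h5 s, Finset.sum_comm]
      have h6 : ∀ i, ∑ s, c i * (σs s (e i) * σs s (e' m)) = c i * (if i = m then 1 else 0) := by
        intro i
        rw [← Finset.mul_sum, horth i m]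
      rw [Finset.sum_congr rfl fun i _ => h6 i]
      simp
    rw [← h4]
    simp [h1]
  have hsum' : ∀ (c : Fin δ → ℂ) (m : Fin δ), (∀ s, ∑ i, c i * σs s (e' i) = 0) → c m = 0 := by
    intro c m h1
    have h4 : ∑ s, (∑ i, c i * σs s (e' i)) * σs s (e m) = c m := by
      have h5 : ∀ s, (∑ i, c i * σs s (e' i)) * σs s (e m) =
          ∑ i, c i * (σs s (e m) * σs s (e' i)) := by
        intro s
        rw [Finset.sum_mul]
        exact Finset.sum_congr rfl fun i _ => by ring
      rw [Finset.sum_congr rfl fun s _ => h5 s, Finset.sum_comm]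
      have h6 : ∀ i, ∑ s, c i * (σs s (e m) * σs s (e' i)) = c i * (if m = i then 1 else 0) := by
        intro i
        rw [← Finset.mul_sum, horth m i]
      rw [Finset.sum_congr rfl fun i _ => h6 i]
      simp
    rw [← h4]
    simp [h1]
  refine slgL_inh L h2 h3 δ hδ (fun i s => (∑ j, σs s (β j) * p j) * σs s (e i)) ?_
    (fun s => if s = s0 then 1 else 0) ?_ ?_ (fun m s => σs s (e' m)) ?_ ?_ ?_ ?_
  · rw [Fintype.linearIndependent_iff]
    intro c hc m
    refine hsum c m fun s => ?_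
    have h2 := congrFun hc s
    simp only [Finset.sum_apply, Pi.smul_apply, smul_eq_mul, Pi.zero_apply] at h2
    have h3 : (∑ j, σs s (β j) * p j) * ∑ i, c i * σs s (e i) = 0 := by
      rw [Finset.mul_sum, ← h2]
      exact Finset.sum_congr rfl fun i _ => by ring
    exact (mul_eq_zero.1 h3).resolve_left (hne s)
  · intro h0
    have := congrFun h0 s0
    simp at this
  · intro s
    by_cases hs : s = s0
    · simp [hs, isAlgebraic_one]
    · simp [hs, isAlgebraic_zero]
  · rw [Fintype.linearIndependent_iff]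
    intro c hc m
    refine hsum' c m fun s => ?_
    have h2 := congrFun hc s
    simpa only [Finset.sum_apply, Pi.smul_apply, smul_eq_mul, Pi.zero_apply] using h2
  · intro m s
    exact inhE_alg L K (σs s) (e' m)
  · intro i
    have h7 : dot (fun s => if s = s0 then (1 : ℂ) else 0)
        (fun s => (∑ j, σs s (β j) * p j) * σs s (e i)) = σ (-(β0 * e i)) := by
      unfold dot
      rw [Finset.sum_eq_single s0 (fun b _ hb => by simp [hb]) (fun hb => by simp at hb)]
      have h8 : ∑ j, σ (β j) * p j = - σ β0 := by linear_combination h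
      simp only [if_true, one_mul, hs0, h8, map_neg, map_mul]
      ring
    rw [h7]
    exact inhE_alg L K σ _
  · intro m i
    have h9 : dot (fun s => σs s (e' m)) (fun s => (∑ j, σs s (β j) * p j) * σs s (e i)) =
        ∑ j, (cc j i m : ℂ) * p j := inhE_pair L K p β e e' cc σs hmul horth m i
    rw [h9]
    exact elog_sum L h2 h3 _ _ fun j _ => elog_mul L h2 h3 (cc j i m).2 (hp j)

end Pool.Agent.EBM
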