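import Pool.Agent.EBM.Defs

/-! # Choice of bases -/

namespace Pool.Agent.EBM

private theorem top_le_span (δ n : ℕ) (w : Fin δ → Fin n → ℂ)
    (hw : ∀ x : Fin n → ℂ, ∃ y : Fin δ → ℂ, x = fun j => ∑ k, y k * w k j) :
    (⊤ : Submodule ℂ (Fin n → ℂ)) ≤ Submodule.span ℂ (Set.range w) := by
  intro x _
  obtain ⟨y, hy⟩ := hw x
  have h : x = ∑ k, y k • w k := by
    rw [hy]
    funext j
    simp [Finset.sum_apply, Pi.smul_apply, smul_eq_mul]
  rw [h]
  exact Submodule.sum_mem _ fun k _ =>
    Submodule.smul_mem _ _ (Submodule.subset_span ⟨k, rfl⟩)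

private theorem exists_sel_aux (δ n : ℕ) (w : Fin δ → Fin n → ℂ)
    (hw : ∀ x : Fin n → ℂ, ∃ y : Fin δ → ℂ, x = fun j => ∑ k, y k * w k j) :
    ∃ f : Fin n → Fin δ, Function.Injective f ∧ (LinearIndependent ℂ fun i => w (f i)) ∧
      (⊤ : Submodule ℂ (Fin n → ℂ)) ≤ Submodule.span ℂ (Set.range fun i => w (f i)) := by
  obtain ⟨κ, a, ha, hsp, hli⟩ := exists_linearIndependent' ℂ w
  have htop : (⊤ : Submodule ℂ (Fin n → ℂ)) ≤ Submodule.span ℂ (Set.range (w ∘ a)) := by
    rw [hsp]; exact top_le_span δ n w hw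
  let b : Module.Basis κ ℂ (Fin n → ℂ) := Module.Basis.mk hli htop
  let e : Fin n ≃ κ := (Pi.basisFun ℂ (Fin n)).indexEquiv b
  refine ⟨a ∘ e, ha.comp e.injective, ?_, ?_⟩
  · exact hli.comp e e.injective
  · have h : Set.range (fun i => w ((a ∘ e) i)) = Set.range (w ∘ a) := by
      have : (fun i => w ((a ∘ e) i)) = (w ∘ a) ∘ e := rfl
      rw [this, e.surjective.range_comp]
    rw [h]
    exact htop

/-- a spanning family contains a basis -/
theorem exists_sel (δ n : ℕ) (w : Fin δ → Fin n → ℂ)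
    (hw : ∀ x : Fin n → ℂ, ∃ y : Fin δ → ℂ, x = fun j => ∑ k, y k * w k j) :
    ∃ f : Fin n → Fin δ, Function.Injective f ∧ LinearIndependent ℂ fun i => w (f i) := by
  obtain ⟨f, hf, hli, _⟩ := exists_sel_aux δ n w hw
  exact ⟨f, hf, hli⟩

/-- and one more vector if `n < δ` -/
theorem exists_sel1 (δ n : ℕ) (hδ : n < δ) (w : Fin δ → Fin n → ℂ)
    (hw : ∀ x : Fin n → ℂ, ∃ y : Fin δ → ℂ, x = fun j => ∑ k, y k * w k j) :
    ∃ (f : Fin (n + 1) → Fin δ) (lam : Fin n → ℂ), Function.Injective f ∧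
      (LinearIndependent ℂ fun i : Fin n => w (f i.castSucc)) ∧
      w (f (Fin.last n)) = fun j => ∑ i : Fin n, lam i * w (f i.castSucc) j := by
  obtain ⟨f, hf, hli, htop⟩ := exists_sel_aux δ n w hw
  obtain ⟨k, hk⟩ : ∃ k : Fin δ, ∀ i, f i ≠ k := by
    by_contra hcon
    push Not at hcon
    have hs : Function.Surjective f := fun k => hcon k
    have := Fintype.card_le_of_surjective f hs
    simp only [Fintype.card_fin] at this
    omega
  have hm : w k ∈ Submodule.span ℂ (Set.range fun i => w (f i)) := htop trivial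
  rw [Submodule.mem_span_range_iff_exists_fun] at hm
  obtain ⟨lam, hlam⟩ := hm
  refine ⟨Fin.snoc (α := fun _ => Fin δ) f k, lam, ?_, ?_, ?_⟩
  · intro i j hij
    induction i using Fin.lastCases with
    | last =>
      induction j using Fin.lastCases with
      | last => rfl
      | cast j =>
        simp only [Fin.snoc_last, Fin.snoc_castSucc] at hij
        exact absurd hij.symm (hk j)
    | cast i =>
      induction j using Fin.lastCases with
      | last =>
        simp only [Fin.snoc_last, Fin.snoc_castSucc] at hij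
        exact absurd hij (hk i)
      | cast j =>
        simp only [Fin.snoc_castSucc] at hij
        rw [hf hij]
  · simpa only [Fin.snoc_castSucc] using hli
  · simp only [Fin.snoc_castSucc, Fin.snoc_last]
    rw [← hlam]
    funext j
    simp [Finset.sum_apply, Pi.smul_apply, smul_eq_mul]

end Pool.Agent.EBM
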