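import Pool.Agent.EBM.SLGL
import Pool.Agent.EBM.TraceF
import Pool.Agent.EBM.SelE
import Pool.Agent.EBM.InhE

/-! # The elliptic Baker theorem: coefficients in a finite extension of the endomorphism field -/

namespace Pool.Agent.EBM

variable (L : PeriodPair) (h2 : IsAlgebraic ℚ L.g₂) (h3 : IsAlgebraic ℚ L.g₃)
  {ι : Type} [Fintype ι] (p : ι → ℂ) (hp : ∀ j, p j ∈ ELog L)
  (hind : ∀ c : ι → ℂ, (∀ j, c j ∈ EndF L) → ∑ j, c j * p j = 0 → ∀ j, c j = 0)
  (K : Type) [Field K] [Algebra (EndK L) K] [FiniteDimensional (EndK L) K]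
  (β : ι → K) (σ : K →ₐ[EndK L] ℂ)

include h2 h3 hp hind

theorem ebaker_hom (h : ∑ j, σ (β j) * p j = 0) : ∀ j, β j = 0 := by
  classical
  by_contra hcon
  obtain ⟨δ, e, e', cc, σs, he', hmul, horth1, horth2⟩ := exists_basisF (EndK L) K β
  obtain ⟨sg, hsg⟩ : ∃ sg : Fin δ → ℂ, sg = fun s => ∑ j, σs s (β j) * p j := ⟨_, rfl⟩
  have hsg' : ∀ s, sg s = ∑ j, σs s (β j) * p j := fun s => by rw [hsg]
  have hpair : ∀ m i : Fin δ, ∑ s, σs s (e' m) * (sg s * σs s (e i)) =
      ∑ j, (cc j i m : ℂ) * p j := by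
    intro m i
    rw [← inhE_pair L K p β e e' cc σs hmul horth2 m i]
    exact Finset.sum_congr rfl fun s _ => by rw [hsg']
  obtain ⟨s0, hs0⟩ : ∃ s0, σs s0 = σ := ⟨σs.symm σ, by simp⟩
  have hs00 : sg s0 = 0 := by rw [hsg', hs0, h]
  obtain ⟨S, hS⟩ : ∃ S : Finset (Fin δ), S = Finset.univ.filter fun s => sg s ≠ 0 := ⟨_, rfl⟩
  have hmS : ∀ s, s ∈ S ↔ sg s ≠ 0 := by intro s; rw [hS]; simp
  have hSne : S.Nonempty := by
    by_contra hemp
    rw [Finset.not_nonempty_iff_eq_empty] at hemp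
    have h0 : ∀ s, sg s = 0 := by
      intro s
      by_contra hne
      have := (hmS s).2 hne
      rw [hemp] at this
      simp at this
    have h1 : ∀ j i m, cc j i m = 0 := by
      intro j i m
      have h4 := hind (fun j => (cc j i m : ℂ)) (fun j => (cc j i m).2) (by
        rw [← hpair m i]
        exact Finset.sum_eq_zero fun s _ => by rw [h0 s]; ring) j
      exact Subtype.ext h4
    apply hcon
    intro j
    have h4 : e s0 * β j = 0 := by
      rw [hmul j s0]
      exact Finset.sum_eq_zero fun m _ => by rw [h1 j s0 m, map_zero, zero_mul]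
    refine (mul_eq_zero.1 h4).resolve_left fun h5 => ?_
    have h6 := horth2 s0 s0
    rw [if_pos rfl, h5] at h6
    simp at h6
  obtain ⟨n, hnS⟩ : ∃ n, n = S.card := ⟨_, rfl⟩
  have hn : 0 < n := by rw [hnS]; exact hSne.card_pos
  have hnδ : n < δ := by
    have h1 : S ⊂ Finset.univ := by
      refine (Finset.ssubset_univ_iff).2 fun h1 => ?_
      have h4 : s0 ∈ S := by rw [h1]; exact Finset.mem_univ _
      exact (hmS s0).1 h4 hs00
    have h4 := Finset.card_lt_card h1
    rwa [← hnS, Finset.card_univ, Fintype.card_fin] at h4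
  obtain ⟨f0, hf0⟩ : ∃ f0 : Fin n ≃ S, f0 = (S.equivFinOfCardEq hnS.symm).symm := ⟨_, rfl⟩
  have hf0ne : ∀ s : Fin n, sg (f0 s) ≠ 0 := fun s => (hmS _).1 (f0 s).2
  have hf0inj : ∀ s s' : Fin n, ((f0 s : Fin δ) = f0 s') ↔ s = s' := by
    intro s s'
    rw [Subtype.coe_inj, f0.injective.eq_iff]
  -- spanning families
  have hwl : ∀ x : Fin n → ℂ, ∃ y : Fin δ → ℂ,
      x = fun s => ∑ m, y m * (fun (m : Fin δ) (s : Fin n) => σs (f0 s) (e' m)) m s := by
    intro x
    refine ⟨fun m => ∑ s', x s' * σs (f0 s') (e m), ?_⟩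
    funext s
    have h1 : ∀ m, (∑ s', x s' * σs (f0 s') (e m)) * σs (f0 s) (e' m) =
        ∑ s', x s' * (σs (f0 s') (e m) * σs (f0 s) (e' m)) := by
      intro m
      rw [Finset.sum_mul]
      exact Finset.sum_congr rfl fun _ _ => by ring
    change x s = ∑ m, (∑ s', x s' * σs (f0 s') (e m)) * σs (f0 s) (e' m)
    rw [Finset.sum_congr rfl fun m _ => h1 m, Finset.sum_comm]
    have h4 : ∀ s', ∑ m, x s' * (σs (f0 s') (e m) * σs (f0 s) (e' m)) =
        x s' * if s' = s then 1 else 0 := by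
      intro s'
      rw [← Finset.mul_sum, horth1]
      simp only [hf0inj]
    rw [Finset.sum_congr rfl fun s' _ => h4 s']
    simp
  have hwv : ∀ x : Fin n → ℂ, ∃ y : Fin δ → ℂ,
      x = fun s => ∑ m, y m * (fun (i : Fin δ) (s : Fin n) => sg (f0 s) * σs (f0 s) (e i)) m s := by
    intro x
    refine ⟨fun m => ∑ s', x s' / sg (f0 s') * σs (f0 s') (e' m), ?_⟩
    funext s
    have h1 : ∀ m, (∑ s', x s' / sg (f0 s') * σs (f0 s') (e' m)) *
        (sg (f0 s) * σs (f0 s) (e m)) =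
        ∑ s', x s' / sg (f0 s') * sg (f0 s) * (σs (f0 s) (e m) * σs (f0 s') (e' m)) := by
      intro m
      rw [Finset.sum_mul]
      exact Finset.sum_congr rfl fun _ _ => by ring
    change x s = ∑ m, (∑ s', x s' / sg (f0 s') * σs (f0 s') (e' m)) *
        (sg (f0 s) * σs (f0 s) (e m))
    rw [Finset.sum_congr rfl fun m _ => h1 m, Finset.sum_comm]
    have h4 : ∀ s', ∑ m, x s' / sg (f0 s') * sg (f0 s) *
        (σs (f0 s) (e m) * σs (f0 s') (e' m)) =
        x s' / sg (f0 s') * sg (f0 s) * if s = s' then 1 else 0 := by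
      intro s'
      rw [← Finset.mul_sum, horth1]
      simp only [hf0inj]
    rw [Finset.sum_congr rfl fun s' _ => h4 s']
    simp only [mul_ite, mul_one, mul_zero, Finset.sum_ite_eq, Finset.mem_univ, if_true]
    rw [div_mul_cancel₀ _ (hf0ne s)]
  obtain ⟨fv, hfv, hvlin⟩ := exists_sel δ n _ hwv
  obtain ⟨fl, lam, hfl, hllin, hlam⟩ := exists_sel1 δ n hnδ _ hwl
  obtain ⟨z0⟩ : Nonempty (Fin n) := ⟨⟨0, hn⟩⟩
  -- some coefficient is not in the endomorphism field
  obtain ⟨i0, hi0⟩ : ∃ i0, lam i0 ∉ EndF L := by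
    by_contra hno
    push Not at hno
    have h1 : e' (fl (Fin.last n)) =
        ∑ i : Fin n, (⟨lam i, (mem_EndK L _).2 (hno i)⟩ : EndK L) • e' (fl i.castSucc) := by
      have hinj : Function.Injective (σs (f0 z0)) := RingHom.injective (σs (f0 z0) : K →+* ℂ)
      apply hinj
      have h4 := congrFun hlam z0
      rw [map_sum]
      refine h4.trans (Finset.sum_congr rfl fun i _ => ?_)
      rw [map_smul]
      rfl
    have h4 := Fintype.linearIndependent_iff.1 (he'.comp fl hfl)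
      (Fin.snoc (α := fun _ => EndK L)
        (fun i : Fin n => -(⟨lam i, (mem_EndK L _).2 (hno i)⟩ : EndK L)) 1) (by
        rw [Fin.sum_univ_castSucc]
        simp only [Fin.snoc_castSucc, Fin.snoc_last, Function.comp_apply, neg_smul,
          Finset.sum_neg_distrib, one_smul]
        rw [h1]
        exact neg_add_cancel _) (Fin.last n)
    rw [Fin.snoc_last] at h4
    exact one_ne_zero h4
  refine slgL_hom L h2 h3 n hn _ hvlin (fun k s => σs (f0 s) (e' (fl k))) hllin lam hlam i0 hi0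
    ?_ ?_ ?_
  · intro k hk
    have h1 := congrFun hk z0
    have h4 : e' (fl k) = 0 := (map_eq_zero (σs (f0 z0))).1 h1
    exact he'.ne_zero (fl k) h4
  · intro k s
    exact inhE_alg L K (σs (f0 s)) _
  · intro k i
    have h9 : dot (fun s : Fin n => σs (f0 s) (e' (fl k)))
        (fun s : Fin n => sg (f0 s) * σs (f0 s) (e (fv i))) =
        ∑ j, (cc j (fv i) (fl k) : ℂ) * p j := by
      rw [← hpair (fl k) (fv i)]
      have h1 : ∑ s, σs s (e' (fl k)) * (sg s * σs s (e (fv i))) =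
          ∑ s ∈ S, σs s (e' (fl k)) * (sg s * σs s (e (fv i))) := by
        refine (Finset.sum_subset (Finset.subset_univ S) fun s _ hs => ?_).symm
        have h4 : sg s = 0 := by
          by_contra hne
          exact hs ((hmS s).2 hne)
        rw [h4]
        ring
      rw [h1, ← Finset.sum_coe_sort S, ← f0.sum_comp]
      rfl
    rw [show dot ((fun (k : Fin (n + 1)) (s : Fin n) => σs (f0 s) (e' (fl k))) k) _ = _ from h9]
    exact elog_sum L h2 h3 _ _ fun j _ => elog_mul L h2 h3 (cc j (fv i) (fl k)).2 (hp j)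

theorem ebaker_inh (β0 : K) (h : σ β0 + ∑ j, σ (β j) * p j = 0) : β0 = 0 ∧ ∀ j, β j = 0 :=
  inhE_of_hom L h2 h3 p hp K β (fun σ' h' => ebaker_hom L h2 h3 p hp hind K β σ' h') σ β0 h

end Pool.Agent.EBM
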