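import Pool.Agent.EBM.Defs

/-! # Functional independence, by periods -/

namespace Pool.Agent.EBM
open MvPolynomial Pool.Agent.BKR

/-- the function `x` takes infinitely many values outside a countable set -/
private theorem ind_inf (E : Ell) (B : Set ℂ) (hB : B.Countable) (hΛ : (E.Λ : Set ℂ) ⊆ B) :
    (E.x '' Bᶜ).Infinite := by
  intro hfin
  have h1 : ∀ r : ℂ, {s | s ∉ B ∧ E.x s = r}.Countable := by
    intro r
    rcases Set.eq_empty_or_nonempty {s | s ∉ B ∧ E.x s = r} with h | ⟨s0, hs0⟩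
    · rw [h]
      exact Set.countable_empty
    · have h2 : {s | s ∉ B ∧ E.x s = r} ⊆
          (fun s => s - s0) ⁻¹' (E.Λ : Set ℂ) ∪ (fun s => s + s0) ⁻¹' (E.Λ : Set ℂ) := by
        rintro s ⟨hs, hr⟩
        exact E.xeq s s0 (fun h => hs (hΛ h)) (fun h => hs0.1 (hΛ h)) (hr.trans hs0.2.symm)
      exact ((E.ctb.preimage (sub_left_injective)).union
        (E.ctb.preimage (add_left_injective s0))).mono h2
  have h3 : (Bᶜ : Set ℂ).Countable := by
    have h4 : (Bᶜ : Set ℂ) ⊆ ⋃ r ∈ E.x '' Bᶜ, {s | s ∉ B ∧ E.x s = r} := by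
      intro s hs
      simp only [Set.mem_iUnion]
      exact ⟨E.x s, ⟨s, hs, rfl⟩, hs, rfl⟩
    exact (hfin.countable.biUnion fun r _ => h1 r).mono h4
  apply not_countable_complex
  rw [← Set.union_compl_self B]
  exact hB.union h3

private theorem ind_poly {A : ℕ} (c : Fin A → ℂ) (S : Set ℂ) (hS : S.Infinite)
    (h : ∀ r ∈ S, ∑ i, c i * r ^ (i : ℕ) = 0) : c = 0 := by
  have h1 : (∑ i : Fin A, Polynomial.C (c i) * Polynomial.X ^ (i : ℕ)) = 0 := by
    refine Polynomial.eq_zero_of_infinite_isRoot _ (hS.mono fun r hr => ?_)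
    simp only [Set.mem_ofPred_eq, Polynomial.IsRoot.def, Polynomial.eval_finsetSum,
      Polynomial.eval_mul, Polynomial.eval_C, Polynomial.eval_pow, Polynomial.eval_X]
    exact h r hr
  funext j
  have h2 := congrArg (fun p => Polynomial.coeff p (j : ℕ)) h1
  simp only [Polynomial.finsetSum_coeff, Polynomial.coeff_C_mul, Polynomial.coeff_X_pow,
    Polynomial.coeff_zero] at h2
  rw [Finset.sum_eq_single j] at h2
  · simpa using h2
  · intro i _ hij
    rw [if_neg (fun h => hij (Fin.ext h.symm)), mul_zero]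
  · intro hj
    exact absurd (Finset.mem_univ _) hj

/-- `℘ s` and `℘ (lam s + e)` are algebraically independent if `lam` is not in the field of
endomorphisms -/
theorem one_hom (E : Ell) (lam : ℂ) (hlam : ∀ N : ℕ, 0 < N → ∃ w ∈ E.Λ, (N : ℂ) * (lam * w) ∉ E.Λ)
    (e : ℂ) (A : ℕ) (c : Fin A → Fin A → ℂ)
    (h : ∀ s, s ∉ E.Λ → lam * s + e ∉ E.Λ →
      ∑ i, ∑ j, c i j * E.x s ^ (i : ℕ) * E.x (lam * s + e) ^ (j : ℕ) = 0) : c = 0 := by
  classical
  have hl0 : lam ≠ 0 := by
    rintro rfl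
    obtain ⟨w, _, hw⟩ := hlam 1 one_pos
    apply hw
    rw [zero_mul, mul_zero]
    exact E.Λ.zero_mem
  -- the cosets of the subgroup of the `w` with `lam w` in the lattice
  let K : AddSubgroup E.Λ := (E.Λ.comap (AddMonoidHom.mulLeft lam)).addSubgroupOf E.Λ
  have hK : ∀ w : E.Λ, w ∈ K ↔ lam * (w : ℂ) ∈ E.Λ := by
    intro w
    rw [AddSubgroup.mem_addSubgroupOf, AddSubgroup.mem_comap, AddMonoidHom.coe_mulLeft]
  have hidx : K.index = 0 := by
    by_contra hne
    obtain ⟨w, hw, hN⟩ := hlam K.index (Nat.pos_of_ne_zero hne)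
    have h1 := (hK _).1 (K.nsmul_index_mem ⟨w, hw⟩)
    apply hN
    have h2 : lam * ((K.index • (⟨w, hw⟩ : E.Λ) : E.Λ) : ℂ) = (K.index : ℂ) * (lam * w) := by
      rw [AddSubgroup.coe_nsmul, nsmul_eq_mul]
      ring
    rwa [h2] at h1
  have : Infinite (E.Λ ⧸ K) := AddSubgroup.index_eq_zero_iff_infinite.1 hidx
  let f : ℕ ↪ (E.Λ ⧸ K) := Infinite.natEmbedding _
  let w : ℕ → E.Λ := fun i => (f i).out
  have hw : ∀ i j, lam * ((w i : ℂ) - (w j : ℂ)) ∈ E.Λ → i = j := by
    intro i j hij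
    apply f.injective
    have h1 : (QuotientAddGroup.mk (w j) : E.Λ ⧸ K) = QuotientAddGroup.mk (w i) := by
      rw [QuotientAddGroup.eq, hK]
      have h2 : lam * ((-(w j) + w i : E.Λ) : ℂ) = lam * ((w i : ℂ) - (w j : ℂ)) := by
        push_cast
        ring
      rwa [h2]
    have h3 : ∀ i, (QuotientAddGroup.mk (w i) : E.Λ ⧸ K) = f i := fun i => Quotient.out_eq' _
    rw [h3, h3] at h1
    exact h1.symm
  let B : Set ℂ := (E.Λ : Set ℂ) ∪ ((⋃ i : ℕ, (fun s => lam * (s + w i) + e) ⁻¹' (E.Λ : Set ℂ)) ∪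
    ⋃ i : ℕ, ⋃ j : ℕ, (fun s => lam * (2 * s + w i + w j) + 2 * e) ⁻¹' (E.Λ : Set ℂ))
  have hB : B.Countable := by
    refine E.ctb.union ((Set.countable_iUnion fun i => E.ctb.preimage ?_).union
      (Set.countable_iUnion fun i => Set.countable_iUnion fun j => E.ctb.preimage ?_))
    · intro s s' hs
      simp only at hs
      have h1 := mul_left_cancel₀ hl0 (add_right_cancel hs)
      exact add_right_cancel h1
    · intro s s' hs
      simp only at hs
      have h1 := mul_left_cancel₀ hl0 (add_right_cancel hs)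
      have h2 := add_right_cancel (add_right_cancel h1)
      exact mul_left_cancel₀ two_ne_zero h2
  have key : ∀ s ∉ B, (fun j : Fin A => ∑ i, c i j * E.x s ^ (i : ℕ)) = 0 := by
    intro s hs
    have hs1 : s ∉ E.Λ := fun h1 => hs (Or.inl h1)
    have hs2 : ∀ i, lam * (s + w i) + e ∉ E.Λ := fun i h1 =>
      hs (Or.inr (Or.inl (Set.mem_iUnion.2 ⟨i, h1⟩)))
    have hs3 : ∀ i j, lam * (2 * s + w i + w j) + 2 * e ∉ E.Λ := fun i j h1 =>
      hs (Or.inr (Or.inr (Set.mem_iUnion.2 ⟨i, Set.mem_iUnion.2 ⟨j, h1⟩⟩)))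
    refine ind_poly _ (Set.range fun i : ℕ => E.x (lam * (s + w i) + e))
      (Set.infinite_range_of_injective fun i j hij => ?_) ?_
    · rcases E.xeq _ _ (hs2 i) (hs2 j) hij with h1 | h1
      · apply hw i j
        have h2 : lam * (s + w i) + e - (lam * (s + w j) + e) = lam * ((w i : ℂ) - w j) := by ring
        rwa [h2] at h1
      · exfalso
        apply hs3 i j
        have h2 : lam * (s + w i) + e + (lam * (s + w j) + e) =
          lam * (2 * s + w i + w j) + 2 * e := by ring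
        rwa [h2] at h1
    · rintro r ⟨i, rfl⟩
      simp only
      have h1 := h (s + w i) (fun h2 => hs1 (by
        have h3 := E.Λ.sub_mem h2 (w i).2
        rwa [add_sub_cancel_right] at h3)) (hs2 i)
      rw [E.xper s hs1 _ (w i).2, Finset.sum_comm] at h1
      rw [← h1]
      exact Finset.sum_congr rfl fun j _ => by rw [Finset.sum_mul]
  funext i j
  have h1 := ind_poly (fun i => c i j) (E.x '' Bᶜ) (ind_inf E B hB Set.subset_union_left) (by
    rintro r ⟨s, hs, rfl⟩
    exact congrFun (key s hs) j)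
  exact congrFun h1 i

/-- `lam s + e` and `℘ s` are algebraically independent if `lam ≠ 0` -/
theorem one_inh (E : Ell) (hE : ∃ w ∈ E.Λ, w ≠ 0) (lam : ℂ) (hlam : lam ≠ 0)
    (e : ℂ) (A B : ℕ) (c : Fin A → Fin B → ℂ)
    (h : ∀ s, s ∉ E.Λ →
      ∑ i, ∑ j, c i j * (lam * s + e) ^ (i : ℕ) * E.x s ^ (j : ℕ) = 0) : c = 0 := by
  obtain ⟨w, hw, hw0⟩ := hE
  have key : ∀ s ∉ E.Λ, (fun i : Fin A => ∑ j, c i j * E.x s ^ (j : ℕ)) = 0 := by
    intro s hs
    have hmw : ∀ m : ℕ, (m : ℂ) * w ∈ E.Λ := fun m => by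
      rw [← nsmul_eq_mul]
      exact E.Λ.nsmul_mem hw m
    refine ind_poly _ (Set.range fun m : ℕ => lam * (s + m * w) + e)
      (Set.infinite_range_of_injective fun i j hij => ?_) ?_
    · have h1 := add_left_cancel (mul_left_cancel₀ hlam (add_right_cancel hij))
      exact_mod_cast mul_right_cancel₀ hw0 h1
    · rintro r ⟨m, rfl⟩
      simp only
      have h1 := h (s + m * w) (fun h2 => hs (by
        have h3 := E.Λ.sub_mem h2 (hmw m)
        rwa [add_sub_cancel_right] at h3))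
      rw [E.xper s hs _ (hmw m)] at h1
      rw [← h1]
      refine Finset.sum_congr rfl fun i _ => ?_
      rw [Finset.sum_mul]
      exact Finset.sum_congr rfl fun j _ => by ring
  funext i j
  have h1 := ind_poly (fun j => c i j) (E.x '' (E.Λ : Set ℂ)ᶜ)
    (ind_inf E _ E.ctb subset_rfl) (by
    rintro r ⟨s, hs, rfl⟩
    exact congrFun (key s hs) i)
  exact congrFun h1 j

/-- `℘ (z_1), .., ℘ (z_n)` are algebraically independent -/
theorem prod_ind (E : Ell) (n D : ℕ) (c : (Fin n → Fin D) → ℂ)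
    (h : ∀ z : Fin n → ℂ, (∀ k, z k ∉ E.Λ) → ∑ m, c m * ∏ k, E.x (z k) ^ (m k : ℕ) = 0) :
    c = 0 := by
  classical
  let μ : (Fin n → Fin D) → (Fin n →₀ ℕ) := fun m =>
    Finsupp.equivFunOnFinite.symm fun k => (m k : ℕ)
  have hμ : Function.Injective μ := by
    intro m m' hm
    have h1 := Finsupp.equivFunOnFinite.symm.injective hm
    funext k
    exact Fin.ext (congrFun h1 k)
  have h0 : (∑ m, monomial (μ m) (c m) : MvPolynomial (Fin n) ℂ) = 0 := by
    refine funext_set (fun _ => E.x '' (E.Λ : Set ℂ)ᶜ)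
      (fun _ => ind_inf E _ E.ctb subset_rfl) fun r hr => ?_
    have hr' : ∀ k, ∃ z, z ∉ E.Λ ∧ E.x z = r k := fun k => by
      obtain ⟨z, hz, hzr⟩ := hr k (Set.mem_univ _)
      exact ⟨z, hz, hzr⟩
    choose z hz hzr using hr'
    rw [map_sum, map_zero, ← h z hz]
    refine Finset.sum_congr rfl fun m _ => ?_
    rw [eval_monomial, Finsupp.prod_fintype _ _ (fun k => pow_zero _)]
    congr 1
    exact Finset.prod_congr rfl fun k _ => by rw [hzr k]; rfl
  funext m
  have h1 := congrArg (coeff (μ m)) h0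
  rw [coeff_sum, coeff_zero, Finset.sum_eq_single m] at h1
  · simpa using h1
  · intro m' _ hne
    rw [coeff_monomial, if_neg (fun h2 => hne (hμ h2))]
  · intro hm
    exact absurd (Finset.mem_univ _) hm

end Pool.Agent.EBM
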