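import Pool.Agent.EBM.Ind

/-! # Functional independence in `n` variables -/

namespace Pool.Agent.EBM
open MvPolynomial Pool.Agent.BKR

theorem IndN_ev (E : Ell) {n d D0 D : ℕ} (g : Fin n → ℂ) (l : Fin d → Fin n → ℂ)
    (z : Fin n → ℂ) (c : Idx D0 D d → ℂ) :
    eval (cpt E g l z) (PC c) =
      ∑ a : Fin D0, ∑ m : Fin d → Fin D, c (a, m) * (dot g z ^ (a : ℕ) *
        ∏ k, E.x (dot (l k) z) ^ (m k : ℕ)) := by
  unfold PC mon
  rw [map_sum, Fintype.sum_prod_type]
  refine Finset.sum_congr rfl fun a _ => Finset.sum_congr rfl fun m _ => ?_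
  simp only [map_mul, eval_C, map_pow, eval_X, map_prod, cpt, if_true]

/-- independence of the remaining variables -/
theorem IndN_split (E : Ell) {n D A : ℕ} (i0 : Fin n) (c : Fin A → (Fin n → Fin D) → ℂ)
    (H : ∀ ζ : Fin n → ℂ, (∀ k, ζ k ∉ E.Λ) → ∀ (a : Fin A) (i : Fin D),
      ∑ m : Fin n → Fin D, (if m i0 = i then c a m *
        ∏ k ∈ Finset.univ.erase i0, E.x (ζ k) ^ (m k : ℕ) else 0) = 0) (a : Fin A)
    (m : Fin n → Fin D) : c a m = 0 := by
  classical
  have h := prod_ind E n D (fun m' => if m' i0 = m i0 then c a m' else 0) (fun ζ hζ => by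
    have h1 := H ζ hζ a (m i0)
    have h2 : ∑ m' : Fin n → Fin D, (if m' i0 = m i0 then c a m' else 0) *
        ∏ k, E.x (ζ k) ^ (m' k : ℕ) = E.x (ζ i0) ^ ((m i0 : Fin D) : ℕ) *
        ∑ m' : Fin n → Fin D, (if m' i0 = m i0 then c a m' *
          ∏ k ∈ Finset.univ.erase i0, E.x (ζ k) ^ (m' k : ℕ) else 0) := by
      rw [Finset.mul_sum]
      refine Finset.sum_congr rfl fun m' _ => ?_
      split_ifs with h2
      · rw [← Finset.mul_prod_erase Finset.univ (fun k => E.x (ζ k) ^ (m' k : ℕ))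
          (Finset.mem_univ i0), h2]
        ring
      · simp
    rw [h2, h1, mul_zero])
  have h3 := congrFun h m
  simpa using h3

/-- grouping by the exponent of one variable -/
theorem IndN_group (E : Ell) {n D A : ℕ} (i0 : Fin n) (c : Fin A → (Fin n → Fin D) → ℂ)
    (ζ : Fin n → ℂ) (s u : ℂ) :
    ∑ a : Fin A, ∑ m : Fin n → Fin D, c a m * (u ^ (a : ℕ) *
      ∏ k, E.x (Function.update ζ i0 s k) ^ (m k : ℕ)) =
    ∑ a : Fin A, ∑ i : Fin D, (∑ m : Fin n → Fin D, (if m i0 = i then c a m *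
        ∏ k ∈ Finset.univ.erase i0, E.x (ζ k) ^ (m k : ℕ) else 0)) * u ^ (a : ℕ) *
          E.x s ^ (i : ℕ) := by
  classical
  refine Finset.sum_congr rfl fun a _ => ?_
  have h1 : ∀ i : Fin D, (∑ m : Fin n → Fin D, (if m i0 = i then c a m *
        ∏ k ∈ Finset.univ.erase i0, E.x (ζ k) ^ (m k : ℕ) else 0)) * u ^ (a : ℕ) *
          E.x s ^ (i : ℕ) = ∑ m : Fin n → Fin D, (if m i0 = i then c a m * (u ^ (a : ℕ) *
      ∏ k, E.x (Function.update ζ i0 s k) ^ (m k : ℕ)) else 0) := by
    intro i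
    rw [Finset.sum_mul, Finset.sum_mul]
    refine Finset.sum_congr rfl fun m _ => ?_
    split_ifs with h2
    · rw [← Finset.mul_prod_erase Finset.univ
        (fun k => E.x (Function.update ζ i0 s k) ^ (m k : ℕ)) (Finset.mem_univ i0),
        Function.update_self, h2]
      have h3 : ∏ k ∈ Finset.univ.erase i0, E.x (Function.update ζ i0 s k) ^ (m k : ℕ) =
          ∏ k ∈ Finset.univ.erase i0, E.x (ζ k) ^ (m k : ℕ) := by
        refine Finset.prod_congr rfl fun k hk => ?_
        rw [Function.update_of_ne (Finset.ne_of_mem_erase hk)]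
      rw [h3]
      ring
    · simp
  rw [Finset.sum_congr rfl fun i _ => h1 i, Finset.sum_comm]
  refine Finset.sum_congr rfl fun m _ => ?_
  rw [Finset.sum_ite_eq]
  simp

/-- change of variables -/
theorem IndN_z {n : ℕ} (l : Fin n → Fin n → ℂ) (hl : LinearIndependent ℂ l) :
    ∃ B : Matrix (Fin n) (Fin n) ℂ, B * Matrix.of l = 1 ∧ ∀ ζ : Fin n → ℂ, ∀ i,
      dot (l i) (B.mulVec ζ) = ζ i := by
  have h1 : IsUnit (Matrix.of l) := Matrix.linearIndependent_rows_iff_isUnit.1 hl
  have h2 : IsUnit (Matrix.of l).det := (Matrix.isUnit_iff_isUnit_det _).1 h1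
  refine ⟨(Matrix.of l)⁻¹, Matrix.nonsing_inv_mul _ h2, fun ζ i => ?_⟩
  have h3 : (Matrix.of l).mulVec ((Matrix.of l)⁻¹.mulVec ζ) = ζ := by
    rw [Matrix.mulVec_mulVec, Matrix.mul_nonsing_inv _ h2, Matrix.one_mulVec]
  exact congrFun h3 i

/-- homogeneous case: `n + 1` forms, the first `n` are a basis, the last one has a coefficient
outside the field of endomorphisms; `D0 = 1` -/
theorem ind_hom (E : Ell) (n D : ℕ) (g : Fin n → ℂ) (l : Fin (n + 1) → Fin n → ℂ)
    (hl : LinearIndependent ℂ fun i : Fin n => l i.castSucc) (lam : Fin n → ℂ)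
    (hlam : l (Fin.last n) = fun j => ∑ i : Fin n, lam i * l i.castSucc j) (i0 : Fin n)
    (hi0 : ∀ N : ℕ, 0 < N → ∃ w ∈ E.Λ, (N : ℂ) * (lam i0 * w) ∉ E.Λ)
    (c : Idx 1 D (n + 1) → ℂ)
    (h : ∀ z, Good E l z → eval (cpt E g l z) (PC c) = 0) : c = 0 := by
  classical
  obtain ⟨B, hB, hz⟩ := IndN_z _ hl
  set c' : Fin D → (Fin n → Fin D) → ℂ := fun j m => c (0, Fin.snoc m j) with hc'
  have key := IndN_split E i0 c' (fun ζ hζ j i => ?_)
  · funext ⟨a, m⟩
    have h1 := key (m (Fin.last n)) (Fin.init m)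
    have h2 : (Fin.snoc (Fin.init m) (m (Fin.last n)) : Fin (n + 1) → Fin D) = m :=
      Fin.snoc_init_self m
    rw [hc'] at h1
    simp only at h1
    rw [h2] at h1
    rw [Fin.fin_one_eq_zero a]
    exact h1
  · set e : ℂ := ∑ k ∈ Finset.univ.erase i0, lam k * ζ k with he
    have h1 := one_hom E (lam i0) hi0 e D (fun i j => ∑ m : Fin n → Fin D,
      (if m i0 = i then c' j m * ∏ k ∈ Finset.univ.erase i0, E.x (ζ k) ^ (m k : ℕ) else 0))
      (fun s hs hs2 => ?_)
    · exact congrFun (congrFun h1 i) j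
    · set z := B.mulVec (Function.update ζ i0 s) with hzd
      have hk : ∀ k : Fin n, dot (l k.castSucc) z = Function.update ζ i0 s k := hz _
      have hlast : dot (l (Fin.last n)) z = lam i0 * s + e := by
        have h3 : dot (l (Fin.last n)) z = ∑ i : Fin n, lam i * dot (l i.castSucc) z := by
          rw [hlam]
          unfold dot
          simp only [Finset.sum_mul, Finset.mul_sum]
          rw [Finset.sum_comm]
          refine Finset.sum_congr rfl fun i _ => Finset.sum_congr rfl fun j _ => by ring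
        rw [h3, ← Finset.add_sum_erase Finset.univ _ (Finset.mem_univ i0), hk,
          Function.update_self, he]
        congr 1
        refine Finset.sum_congr rfl fun k hk2 => ?_
        rw [hk, Function.update_of_ne (Finset.ne_of_mem_erase hk2)]
      have hgood : Good E l z := by
        intro k
        induction k using Fin.lastCases with
        | last => rw [hlast]; exact hs2
        | cast k =>
          rw [hk]
          by_cases hk0 : k = i0
          · rw [hk0, Function.update_self]; exact hs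
          · rw [Function.update_of_ne hk0]; exact hζ k
      have h4 := h z hgood
      rw [IndN_ev, Fin.sum_univ_one] at h4
      have h5 : ∑ m : Fin (n + 1) → Fin D, c (0, m) * (dot g z ^ ((0 : Fin 1) : ℕ) *
          ∏ k, E.x (dot (l k) z) ^ (m k : ℕ)) =
          ∑ j : Fin D, ∑ m : Fin n → Fin D, c' j m * ((E.x (lam i0 * s + e)) ^ (j : ℕ) *
            ∏ k, E.x (Function.update ζ i0 s k) ^ (m k : ℕ)) := by
        rw [← (Fin.snocEquiv fun _ : Fin (n + 1) => Fin D).sum_comp, Fintype.sum_prod_type]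
        refine Finset.sum_congr rfl fun j _ => Finset.sum_congr rfl fun m _ => ?_
        rw [Fin.prod_univ_castSucc]
        have h6 : (Fin.snocEquiv fun _ : Fin (n + 1) => Fin D) (j, m) = Fin.snoc m j := rfl
        rw [h6]
        simp only [Fin.snoc_castSucc, Fin.snoc_last, hk, hlast, hc']
        simp only [Fin.val_zero, pow_zero, one_mul]
        ring
      rw [h5, IndN_group E i0 c' ζ s (E.x (lam i0 * s + e)), Finset.sum_comm] at h4
      refine Eq.trans (Finset.sum_congr rfl fun i _ => Finset.sum_congr rfl fun j _ => ?_) h4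
      rw [mul_right_comm]

/-- inhomogeneous case: `n` forms, a basis, and `g ≠ 0` -/
theorem ind_inh (E : Ell) (hE : ∃ w ∈ E.Λ, w ≠ 0) (n D0 D : ℕ) (g : Fin n → ℂ) (hg : g ≠ 0)
    (l : Fin n → Fin n → ℂ) (hl : LinearIndependent ℂ l) (c : Idx D0 D n → ℂ)
    (h : ∀ z, Good E l z → eval (cpt E g l z) (PC c) = 0) : c = 0 := by
  classical
  obtain ⟨B, hB, hz⟩ := IndN_z _ hl
  set μ : Fin n → ℂ := Matrix.vecMul g B with hμ
  have hμ0 : μ ≠ 0 := by
    intro h0
    apply hg
    have h1 : Matrix.vecMul μ (Matrix.of l) = g := by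
      rw [hμ, Matrix.vecMul_vecMul, hB, Matrix.vecMul_one]
    rw [← h1, h0, Matrix.zero_vecMul]
  obtain ⟨i0, hi0⟩ : ∃ i, μ i ≠ 0 := by
    by_contra hcon
    push Not at hcon
    exact hμ0 (funext hcon)
  have hdot : ∀ ζ : Fin n → ℂ, dot g (B.mulVec ζ) = ∑ i, μ i * ζ i := by
    intro ζ
    have h1 : dot g (B.mulVec ζ) = g ⬝ᵥ (B.mulVec ζ) := rfl
    rw [h1, Matrix.dotProduct_mulVec]
    rfl
  have key := IndN_split E i0 (fun (a : Fin D0) m => c (a, m)) (fun ζ hζ a i => ?_)
  · funext ⟨a, m⟩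
    exact key a m
  · set e : ℂ := ∑ k ∈ Finset.univ.erase i0, μ k * ζ k with he
    have h1 := one_inh E hE (μ i0) hi0 e D0 D (fun a i => ∑ m : Fin n → Fin D,
      (if m i0 = i then c (a, m) * ∏ k ∈ Finset.univ.erase i0, E.x (ζ k) ^ (m k : ℕ) else 0))
      (fun s hs => ?_)
    · exact congrFun (congrFun h1 a) i
    · set z := B.mulVec (Function.update ζ i0 s) with hzd
      have hk : ∀ k : Fin n, dot (l k) z = Function.update ζ i0 s k := hz _
      have hgz : dot g z = μ i0 * s + e := by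
        rw [hzd, hdot, ← Finset.add_sum_erase Finset.univ _ (Finset.mem_univ i0),
          Function.update_self, he]
        congr 1
        refine Finset.sum_congr rfl fun k hk2 => ?_
        rw [Function.update_of_ne (Finset.ne_of_mem_erase hk2)]
      have hgood : Good E l z := by
        intro k
        rw [hk]
        by_cases hk0 : k = i0
        · rw [hk0, Function.update_self]; exact hs
        · rw [Function.update_of_ne hk0]; exact hζ k
      have h4 := h z hgood
      rw [IndN_ev] at h4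
      simp only [hk, hgz] at h4
      rw [IndN_group E i0 (fun (a : Fin D0) m => c (a, m)) ζ s (μ i0 * s + e)] at h4
      exact h4

end Pool.Agent.EBM
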