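import Pool.Agent.EBM.Defs
import Pool.Agent.CHU.SL2B
import Pool.Agent.ZFR.ZAdd2

/-! # The structure `Ell` of a lattice -/

namespace Pool.Agent.EBM

open Pool.Agent.ZCM

private theorem inst_countable (L : PeriodPair) :
    ((L.lattice.toAddSubgroup : AddSubgroup ℂ) : Set ℂ).Countable := by
  refine (Set.countable_range fun q : ℤ × ℤ => (q.1 : ℂ) * L.ω₁ + (q.2 : ℂ) * L.ω₂).mono ?_
  intro z hz
  obtain ⟨m, n, h⟩ := PeriodPair.mem_lattice.1 (show z ∈ L.lattice from hz)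
  exact ⟨(m, n), h⟩

/-- `S` and `Q` are `ZCM.ev (SS a b)`, `ZCM.ev (QQ a b)` with `g₂ = -4 a`, `g₃ = -4 b`;
growth: CHU/SL2B `norm_ev_exp` -/
theorem exists_ell (L : PeriodPair) : ∃ E : Ell, E.Λ = L.lattice.toAddSubgroup ∧
    E.x = L.weierstrassP ∧ (∀ z, E.y z = L.derivWeierstrassP z / 2) ∧ E.a = -L.g₂ / 4 ∧
    E.b = -L.g₃ / 4 := by
  have h2 : L.g₂ = -4 * (-L.g₂ / 4) := by ring
  have h3 : L.g₃ = -4 * (-L.g₃ / 4) := by ring
  refine ⟨{
    Λ := L.lattice.toAddSubgroup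
    x := L.weierstrassP
    y := fun z => L.derivWeierstrassP z / 2
    S := ev (SS (-L.g₂ / 4) (-L.g₃ / 4))
    Q := ev (QQ (-L.g₂ / 4) (-L.g₃ / 4))
    a := -L.g₂ / 4
    b := -L.g₃ / 4
    hS := differentiable_ev (Gr_SS _ _).ent
    hQ := differentiable_ev (Gr_QQ _ _).ent
    hS0 := fun z => S_eq_zero_iff L _ _ h2 h3 z
    hx := fun z hz => (link_Q L _ _ h2 h3 hz).symm
    dx := fun z hz => hasDerivAt_P L hz
    dy := fun z hz => hasDerivAt_P' L _ _ h2 h3 hz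
    gr := ?_
    xper := fun z _ w hw => L.weierstrassP_add_coe z ⟨w, hw⟩
    xeq := fun z w hz hw h => ?_
    ctb := inst_countable L }, rfl, rfl, fun _ => rfl, rfl, rfl⟩
  · obtain ⟨C1, hC1, g1⟩ := CHU.SL.norm_ev_exp _ (Gr_SS (-L.g₂ / 4) (-L.g₃ / 4))
    obtain ⟨C2, hC2, g2⟩ := CHU.SL.norm_ev_exp _ (Gr_QQ (-L.g₂ / 4) (-L.g₃ / 4))
    refine ⟨max C1 C2, le_max_of_le_left hC1, fun z => ⟨(g1 z).trans ?_, (g2 z).trans ?_⟩⟩
    · exact Real.exp_le_exp.2 (mul_le_mul_of_nonneg_right (le_max_left _ _) (by positivity))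
    · exact Real.exp_le_exp.2 (mul_le_mul_of_nonneg_right (le_max_right _ _) (by positivity))
  · exact ZFR.P_eq L _ _ h2 h3 hz hw h

end Pool.Agent.EBM
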