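import Pool.Agent.EBM.Dir

/-! # Derivatives of a product at a point where the second factor vanishes to order `t` -/

namespace Pool.Agent.EBM
open Pool.Agent.BKR

variable {n : ℕ}

private theorem leib_cons (w : Fin n → ℂ) (ws : List (Fin n → ℂ)) (Φ : (Fin n → ℂ) → ℂ) :
    DW (w :: ws) Φ = Dd w (DW ws Φ) := rfl

private theorem leib_snoc (w : Fin n → ℂ) (ws : List (Fin n → ℂ)) (Φ : (Fin n → ℂ) → ℂ) :
    DW (ws ++ [w]) Φ = DW ws (Dd w Φ) := by
  rw [DW_append]; rfl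

private theorem leib_congr_ev {F G : (Fin n → ℂ) → ℂ} {γ : Fin n → ℂ} (h : F =ᶠ[nhds γ] G)
    (ws : List (Fin n → ℂ)) : DW ws F =ᶠ[nhds γ] DW ws G := by
  induction ws with
  | nil => exact h
  | cons w ws ih =>
    rw [leib_cons, leib_cons]
    have h1 := ih.fderiv (𝕜 := ℂ)
    filter_upwards [h1] with z hz
    unfold Dd
    rw [hz]

/-- derivatives depend only on the germ -/
theorem DW_congr {F G : (Fin n → ℂ) → ℂ} {γ : Fin n → ℂ} (h : F =ᶠ[nhds γ] G)
    (ws : List (Fin n → ℂ)) : DW ws F γ = DW ws G γ :=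
  (leib_congr_ev h ws).eq_of_nhds

private theorem leib_sm_Dd {F : (Fin n → ℂ) → ℂ} {γ : Fin n → ℂ}
    (h : ContDiffAt ℂ (⊤ : ℕ∞) F γ) (w : Fin n → ℂ) : ContDiffAt ℂ (⊤ : ℕ∞) (Dd w F) γ := by
  have h1 : ContDiffAt ℂ (⊤ : ℕ∞) (fderiv ℂ F) γ := h.fderiv_right (by simp)
  exact h1.clm_apply contDiffAt_const

private theorem leib_sm_DW {F : (Fin n → ℂ) → ℂ} {γ : Fin n → ℂ}
    (h : ContDiffAt ℂ (⊤ : ℕ∞) F γ) (ws : List (Fin n → ℂ)) :
    ContDiffAt ℂ (⊤ : ℕ∞) (DW ws F) γ := by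
  induction ws with
  | nil => exact h
  | cons w ws ih => exact leib_sm_Dd ih w

private theorem leib_diff {F : (Fin n → ℂ) → ℂ} {γ : Fin n → ℂ}
    (h : ContDiffAt ℂ (⊤ : ℕ∞) F γ) : ∀ᶠ z in nhds γ, DifferentiableAt ℂ F z := by
  have h1 : ContDiffAt ℂ (1 : ℕ∞) F γ := h.of_le (by exact_mod_cast le_top)
  filter_upwards [h1.eventually (by simp)] with z hz
  exact hz.differentiableAt (by simp)

private theorem leib_add {F G : (Fin n → ℂ) → ℂ} {γ : Fin n → ℂ}
    (hF : ContDiffAt ℂ (⊤ : ℕ∞) F γ) (hG : ContDiffAt ℂ (⊤ : ℕ∞) G γ)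
    (ws : List (Fin n → ℂ)) :
    DW ws (fun z => F z + G z) =ᶠ[nhds γ] fun z => DW ws F z + DW ws G z := by
  induction ws with
  | nil => exact Filter.EventuallyEq.refl _ _
  | cons w ws ih =>
    rw [leib_cons, leib_cons, leib_cons]
    have h1 := ih.fderiv (𝕜 := ℂ)
    filter_upwards [h1, leib_diff (leib_sm_DW hF ws), leib_diff (leib_sm_DW hG ws)]
      with z hz h2 h3
    unfold Dd
    rw [hz, fderiv_fun_add h2 h3]
    rfl

private theorem leib_Dd_mul {S F : (Fin n → ℂ) → ℂ} (hS : Sm S) {γ : Fin n → ℂ}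
    (hF : ContDiffAt ℂ (⊤ : ℕ∞) F γ) (w : Fin n → ℂ) :
    Dd w (fun z => S z * F z) =ᶠ[nhds γ] fun z => Dd w S z * F z + S z * Dd w F z := by
  filter_upwards [leib_diff hF] with z hz
  unfold Dd
  rw [fderiv_fun_mul ((hS.differentiable (by simp)) z) hz]
  simp only [ContinuousLinearMap.add_apply, ContinuousLinearMap.smul_apply, smul_eq_mul]
  ring

private theorem leib_aux (γ : Fin n → ℂ) (k : ℕ) :
    ∀ (S F : (Fin n → ℂ) → ℂ), Sm S → ContDiffAt ℂ (⊤ : ℕ∞) F γ → ∀ t : ℕ,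
      (∀ ws : List (Fin n → ℂ), ws.length < t → DW ws F γ = 0) → ∀ ws : List (Fin n → ℂ),
      ws.length = k → ws.length ≤ t → DW ws (fun z => S z * F z) γ = S γ * DW ws F γ := by
  induction k with
  | zero =>
    intro S F _ _ t _ ws hk _
    rw [List.length_eq_zero_iff.1 hk]
    rfl
  | succ k ih =>
    intro S F hS hF t h0 ws hk ht
    rcases List.eq_nil_or_concat ws with h | ⟨vs, w, rfl⟩
    · rw [h] at hk
      exact absurd hk (by simp)
    · rw [List.concat_eq_append] at hk ht ⊢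
      have hk' : vs.length = k := by simpa using hk
      have ht' : vs.length < t := by
        have : vs.length + 1 ≤ t := by simpa using ht
        omega
      rw [leib_snoc, leib_snoc, DW_congr (leib_Dd_mul hS hF w) vs]
      have hSw : Sm (Dd w S) := sm_Dd hS w
      have hFw := leib_sm_Dd hF w
      have h1 : ContDiffAt ℂ (⊤ : ℕ∞) (fun z => Dd w S z * F z) γ := hSw.contDiffAt.mul hF
      have h2 : ContDiffAt ℂ (⊤ : ℕ∞) (fun z => S z * Dd w F z) γ := hS.contDiffAt.mul hFw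
      rw [(leib_add h1 h2 vs).eq_of_nhds]
      have e1 := ih (Dd w S) F hSw hF t h0 vs hk' ht'.le
      have e2 := ih S (Dd w F) hS hFw (t - 1) (fun us hus => by
        rw [← leib_snoc]
        exact h0 _ (by simp; omega)) vs hk' (by omega)
      rw [e1, e2, h0 vs ht', mul_zero, zero_add]

theorem DW_mul (S F : (Fin n → ℂ) → ℂ) (hS : Sm S) (γ : Fin n → ℂ)
    (hF : ContDiffAt ℂ (⊤ : ℕ∞) F γ) (t : ℕ)
    (h0 : ∀ ws : List (Fin n → ℂ), ws.length < t → DW ws F γ = 0) :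
    ∀ ws : List (Fin n → ℂ), ws.length ≤ t → DW ws (fun z => S z * F z) γ = S γ * DW ws F γ :=
  fun ws hws => leib_aux γ ws.length S F hS hF t h0 ws rfl hws

end Pool.Agent.EBM
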