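import Pool.Agent.EBM.Dir
import Pool.Agent.BKR.Words
import Pool.Agent.BKR.Schw

/-! # The bound for words in the directions of the grid -/

namespace Pool.Agent.EBM
open Pool.Agent.BKR

variable {n : ℕ}

private theorem lineE_pow {r t : ℕ} (h : r ≤ t) : (r : ℝ) ^ r ≤ (t : ℝ) ^ t := by
  have h1 : r ^ r ≤ t ^ t := by
    rcases Nat.eq_zero_or_pos t with ht | ht
    · have hr : r = 0 := by omega
      rw [hr, ht]
    · exact (Nat.pow_le_pow_left h r).trans (Nat.pow_le_pow_right ht h)
  exact_mod_cast h1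

theorem word_boundE (hn : 0 < n) {Φ : (Fin n → ℂ) → ℂ} (hΦ : Sm Φ) (u : Fin n → ℂ)
    (v : Fin n → Fin n → ℂ) (N t : ℕ)
    (hz : ∀ a : Fin n → ℕ, (∀ i, a i < N) → ∀ ws : List (Fin n → ℂ), ws.length < t →
      DW ws Φ (gq u v a) = 0)
    (V R M : ℝ) (hV : 1 ≤ V) (hM : 0 ≤ M) (hR : (N : ℝ) + 1 ≤ R) (hu : ∀ j, ‖u j‖ ≤ V)
    (hv : ∀ i j, ‖v i j‖ ≤ V)
    (hb : ∀ z : Fin n → ℂ, (∀ j, ‖z j‖ ≤ V * (n * N + R + 2)) → ‖Φ z‖ ≤ M)
    (is : List (Fin n)) (his : is.length = t) (a : Fin n → ℕ) (ha : ∀ i, a i < N) :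
    ‖DW (is.map v) Φ (gq u v a)‖ ≤
      t.factorial * ((t : ℝ) ^ t * M * ((2 * N + 1) / (R - N)) ^ (N * (t / n))) := by
  classical
  obtain ⟨j, rest, hperm⟩ := exists_rep hn is
  rw [his] at hperm
  obtain ⟨τ, hτ⟩ : ∃ τ, τ = t / n := ⟨_, rfl⟩
  rw [← hτ] at hperm ⊢
  have hlen : τ + rest.length = t := by
    have := hperm.length_eq
    rw [his, List.length_append, List.length_replicate] at this
    omega
  -- the function on the line
  obtain ⟨w, hw⟩ : ∃ w, w = v j := ⟨_, rfl⟩
  obtain ⟨Ψ, hΨ⟩ : ∃ Ψ, Ψ = DW (rest.map v) Φ := ⟨_, rfl⟩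
  have hΨs : Sm Ψ := by
    rw [hΨ]
    exact sm_DW hΦ _
  obtain ⟨z, hzdef⟩ : ∃ z : Fin n → ℂ, z = fun j' => gq u v a j' - (a j : ℂ) * w j' := ⟨_, rfl⟩
  obtain ⟨G, hG⟩ : ∃ G : ℂ → ℂ, G = fun s => Ψ (fun j' => z j' + s * w j') := ⟨_, rfl⟩
  have hGd : Differentiable ℂ G := by
    rw [hG]
    exact differentiable_line hΨs z w
  have hz4 : ∀ j', z j' = u j' + ∑ i ∈ Finset.univ.erase j, (a i : ℂ) * v i j' := by
    intro j'
    simp only [hzdef, gq, hw]
    rw [← Finset.add_sum_erase _ _ (Finset.mem_univ j)]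
    ring
  have hgp : ∀ b : ℕ, (fun j' => z j' + (b : ℂ) * w j') = gq u v (Function.update a j b) := by
    intro b
    funext j'
    rw [hz4]
    simp only [gq, hw]
    rw [← Finset.add_sum_erase Finset.univ
        (fun i => ((Function.update a j b i : ℕ) : ℂ) * v i j') (Finset.mem_univ j),
      Function.update_self]
    have : ∑ x ∈ Finset.univ.erase j, ((Function.update a j b x : ℕ) : ℂ) * v x j'
        = ∑ x ∈ Finset.univ.erase j, (a x : ℂ) * v x j' := by
      refine Finset.sum_congr rfl fun x hx => ?_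
      have hx' : x ≠ j := Finset.ne_of_mem_erase hx
      rw [Function.update_of_ne hx']
    rw [this]
    ring
  have hiter : ∀ (k b : ℕ), iteratedDeriv k G (b : ℂ) =
      DW (List.replicate k w ++ rest.map v) Φ (gq u v (Function.update a j b)) := by
    intro k b
    rw [hG, iteratedDeriv_line hΨs, hgp, hΨ, DW_append]
  have hzero : ∀ i : Fin N, ∀ k < τ, iteratedDeriv k G ((i : ℕ) : ℂ) = 0 := by
    intro i k hk
    rw [hiter]
    refine hz _ (fun i' => ?_) _ ?_
    · by_cases h : i' = j
      · subst h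
        rw [Function.update_self]
        exact i.2
      · rw [Function.update_of_ne h]
        exact ha i'
    · rw [List.length_append, List.length_replicate, List.length_map]
      omega
  have hn1 : (1 : ℝ) ≤ n := by exact_mod_cast hn
  have hN0 : (0 : ℝ) ≤ N := Nat.cast_nonneg N
  have hR1 : 1 ≤ R := by linarith
  have hV0 : 0 ≤ V := by linarith
  have hS0 : 0 ≤ (t : ℝ) ^ t * M := by positivity
  have hbound : ∀ s : ℂ, ‖s‖ = R → ‖G s‖ ≤ (t : ℝ) ^ t * M := by
    intro s hs
    rw [hG]
    simp only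
    have hρ : V * (n * N + R + 1) + V = V * (n * N + R + 2) := by ring
    have h1 := DW_bound hΦ (rest.map v) V (V * (n * N + R + 1)) M hV0 hM
      (by
        intro x hx j'
        obtain ⟨i', -, rfl⟩ := List.mem_map.1 hx
        exact hv i' j')
      (by
        intro y hy
        rw [hρ] at hy
        exact hb y hy)
      (fun j' => z j' + s * w j') (fun j' => ?_)
    · rw [← hΨ, List.length_map] at h1
      refine h1.trans (mul_le_mul_of_nonneg_right ?_ hM)
      exact lineE_pow (by omega)
    · -- the size of the point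
      have h3 : ‖z j'‖ ≤ V + V * (n * N) := by
        rw [hz4]
        refine (norm_add_le _ _).trans (add_le_add (hu j') ?_)
        refine (norm_sum_le _ _).trans ?_
        have h5 : ∀ i ∈ Finset.univ.erase j, ‖(a i : ℂ) * v i j'‖ ≤ V * N := by
          intro i _
          rw [norm_mul, Complex.norm_natCast, mul_comm]
          have : (a i : ℝ) ≤ N := by exact_mod_cast (ha i).le
          exact mul_le_mul (hv i j') this (Nat.cast_nonneg _) hV0
        refine (Finset.sum_le_sum h5).trans ?_
        rw [Finset.sum_const, nsmul_eq_mul]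
        have h6 : ((Finset.univ.erase j : Finset (Fin n)).card : ℝ) ≤ n := by
          have := Finset.card_le_univ (Finset.univ.erase j : Finset (Fin n))
          rw [Fintype.card_fin] at this
          exact_mod_cast this
        calc ((Finset.univ.erase j : Finset (Fin n)).card : ℝ) * (V * N) ≤ n * (V * N) := by
              gcongr
          _ = V * (n * N) := by ring
      calc ‖z j' + s * w j'‖ ≤ ‖z j'‖ + ‖s‖ * ‖w j'‖ := (norm_add_le _ _).trans
            (by rw [norm_mul])
        _ ≤ (V + V * (n * N)) + R * V := by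
            rw [hs, hw]
            gcongr
            exact hv j j'
        _ = V * (n * N + R + 1) := by ring
  have hinj : Function.Injective (fun i : Fin N => ((i : ℕ) : ℂ)) := by
    intro x y h
    exact Fin.ext (Nat.cast_injective (R := ℂ) h)
  have key := schwarz_line N τ G hGd (fun i => ((i : ℕ) : ℂ)) hinj
    (fun i => by
      rw [Complex.norm_natCast]
      exact_mod_cast i.2.le) hzero R ((t : ℝ) ^ t * M) hR hS0 hbound ⟨a j, ha j⟩
  simp only at key
  rw [hiter τ (a j), Function.update_eq_self] at key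
  have hTW : DW (is.map v) Φ = DW (List.replicate τ w ++ rest.map v) Φ := by
    refine DW_perm hΦ ?_
    have := hperm.map v
    rwa [List.map_append, List.map_replicate, ← hw] at this
  rw [hTW]
  refine key.trans ?_
  have hfac : (τ.factorial : ℝ) ≤ t.factorial := by
    exact_mod_cast Nat.factorial_le (by omega : τ ≤ t)
  have hq : 0 ≤ ((2 * N + 1) / (R - N) : ℝ) ^ (N * τ) :=
    pow_nonneg (div_nonneg (by positivity) (by linarith)) _
  exact mul_le_mul_of_nonneg_right hfac (mul_nonneg hS0 hq)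

end Pool.Agent.EBM
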