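import Pool.Agent.EBM.Dir

/-! # The analytic functions and the polynomials -/

namespace Pool.Agent.EBM
open MvPolynomial Pool.Agent.BKR

variable {n d D0 D : ℕ} (E : Ell) (g : Fin n → ℂ) (l : Fin d → Fin n → ℂ)

private theorem l39_pow {S q x : ℂ} (hq : q = S ^ 2 * x) {D a : ℕ} (h : a ≤ D) :
    S ^ (2 * (D - a)) * q ^ a = S ^ (2 * D) * x ^ a := by
  obtain ⟨e, rfl⟩ := Nat.exists_eq_add_of_le h
  rw [hq, Nat.add_sub_cancel_left, mul_pow, ← pow_mul, ← mul_assoc, ← pow_add]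
  congr 2
  ring

theorem Phi_eq (c : Idx D0 D d → ℂ) {z : Fin n → ℂ} (hz : Good E l z) :
    Phi E g l c z = SP E l D z * eval (cpt E g l z) (PC c) := by
  unfold Phi SP PC
  rw [map_sum, Finset.mul_sum]
  refine Finset.sum_congr rfl fun i _ => ?_
  have h1 : ∀ k : Fin d, E.S (dot (l k) z) ^ (2 * (D - ((i.2 k : Fin D) : ℕ))) *
      E.Q (dot (l k) z) ^ ((i.2 k : Fin D) : ℕ) =
      E.S (dot (l k) z) ^ (2 * D) * E.x (dot (l k) z) ^ ((i.2 k : Fin D) : ℕ) := by
    intro k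
    exact l39_pow (E.hx _ (hz k)) (i.2 k).2.le
  have h4 : eval (cpt E g l z) (C (c i) * mon ℂ i) = c i * (dot g z ^ (i.1 : ℕ) *
      ∏ k, E.x (dot (l k) z) ^ ((i.2 k : Fin D) : ℕ)) := by
    unfold mon
    rw [map_mul, map_mul, map_pow, map_prod]
    simp [cpt]
  rw [h4]
  simp_rw [h1]
  rw [Finset.prod_mul_distrib]
  ring

private theorem l39_dot_cd (y : Fin n → ℂ) : ContDiff ℂ (⊤ : ℕ∞) (fun z : Fin n → ℂ => dot y z) := by
  unfold dot
  exact ContDiff.sum fun j _ => contDiff_const.mul (contDiff_apply ℂ ℂ j)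

private theorem l39_cd {F : ℂ → ℂ} (h : Differentiable ℂ F) (y : Fin n → ℂ) :
    ContDiff ℂ (⊤ : ℕ∞) (fun z : Fin n → ℂ => F (dot y z)) :=
  (h.contDiff).comp (l39_dot_cd y)

theorem good_open : IsOpen {z | Good E l z} := by
  have h : {z | Good E l z} = ⋂ k, {z : Fin n → ℂ | E.S (dot (l k) z) ≠ 0} := by
    ext z
    simp only [Good, Set.mem_setOf_eq, Set.mem_iInter, ne_eq, E.hS0]
  rw [h]
  refine isOpen_iInter_of_finite fun k => ?_
  exact isOpen_ne_fun (l39_cd E.hS (l k)).continuous continuous_const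

private theorem l39_open : IsOpen {s : ℂ | s ∉ E.Λ} := by
  have h : {s : ℂ | s ∉ E.Λ} = {s : ℂ | E.S s ≠ 0} := by
    ext z
    simp only [Set.mem_setOf_eq, ne_eq, E.hS0]
  rw [h]
  exact isOpen_ne_fun E.hS.continuous continuous_const

private theorem l39_x {s : ℂ} (hs : s ∉ E.Λ) : ContDiffAt ℂ (⊤ : ℕ∞) E.x s := by
  have h1 : DifferentiableOn ℂ E.x {s : ℂ | s ∉ E.Λ} := fun t ht =>
    (E.dx t ht).differentiableAt.differentiableWithinAt
  exact (h1.analyticAt ((l39_open E).mem_nhds hs)).contDiffAt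

private theorem l39_y {s : ℂ} (hs : s ∉ E.Λ) : ContDiffAt ℂ (⊤ : ℕ∞) E.y s := by
  have h1 : DifferentiableOn ℂ E.y {s : ℂ | s ∉ E.Λ} := fun t ht =>
    (E.dy t ht).differentiableAt.differentiableWithinAt
  exact (h1.analyticAt ((l39_open E).mem_nhds hs)).contDiffAt

private theorem l39_cpt {z : Fin n → ℂ} (hz : Good E l z) (v : EV d) :
    ContDiffAt ℂ (⊤ : ℕ∞) (fun z => cpt E g l z v) z := by
  rcases v with _ | ⟨k, i⟩
  · exact (l39_dot_cd g).contDiffAt
  · by_cases hi : i = 0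
    · have h : (fun z => cpt E g l z (some (k, i))) = fun z => E.x (dot (l k) z) := by
        funext z; simp [cpt, hi]
      rw [h]
      exact (l39_x E (hz k)).comp z (l39_dot_cd (l k)).contDiffAt
    · have h : (fun z => cpt E g l z (some (k, i))) = fun z => E.y (dot (l k) z) := by
        funext z; simp [cpt, hi]
      rw [h]
      exact (l39_y E (hz k)).comp z (l39_dot_cd (l k)).contDiffAt

theorem sm_eval (P : MvPolynomial (EV d) ℂ) {z : Fin n → ℂ} (hz : Good E l z) :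
    ContDiffAt ℂ (⊤ : ℕ∞) (fun z => eval (cpt E g l z) P) z := by
  induction P using MvPolynomial.induction_on with
  | C c =>
    simp only [eval_C]
    exact contDiffAt_const
  | add p q hp hq =>
    simp only [map_add]
    exact hp.add hq
  | mul_X p v hp =>
    simp only [map_mul, eval_X]
    exact hp.mul (l39_cpt E g l hz v)

private theorem l39_dot_fd (y z : Fin n → ℂ) :
    HasFDerivAt (fun z : Fin n → ℂ => dot y z)
      (∑ j, y j • (ContinuousLinearMap.proj j : (Fin n → ℂ) →L[ℂ] ℂ)) z := by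
  unfold dot
  exact HasFDerivAt.fun_sum fun j _ => by
    simpa using ((ContinuousLinearMap.proj j : (Fin n → ℂ) →L[ℂ] ℂ).hasFDerivAt).const_mul (y j)

private theorem l39_dot_app (y w : Fin n → ℂ) :
    (∑ j, y j • (ContinuousLinearMap.proj j : (Fin n → ℂ) →L[ℂ] ℂ)) w = dot y w := by
  simp [dot]

private theorem l39_Dd_comp {F : ℂ → ℂ} {F' : ℂ} (y z w : Fin n → ℂ)
    (h : HasDerivAt F F' (dot y z)) : Dd w (fun z => F (dot y z)) z = F' * dot y w := by
  have h1 := h.comp_hasFDerivAt z (l39_dot_fd y z)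
  unfold Dd
  have h2 : HasFDerivAt (fun z => F (dot y z))
      (F' • ∑ j, y j • (ContinuousLinearMap.proj j : (Fin n → ℂ) →L[ℂ] ℂ)) z := h1
  rw [h2.fderiv, ContinuousLinearMap.smul_apply, l39_dot_app, smul_eq_mul]

private theorem l39_gen {z : Fin n → ℂ} (hz : Good E l z) (w : Fin n → ℂ) (v : EV d) :
    Dd w (fun z => cpt E g l z v) z = eval (cpt E g l z) (gen E.a g l w v) := by
  rcases v with _ | ⟨k, i⟩
  · have h : (fun z => cpt E g l z none) = fun z => dot g z := rfl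
    rw [h]
    unfold Dd
    rw [(l39_dot_fd g z).fderiv, l39_dot_app]
    simp [gen]
  · by_cases hi : i = 0
    · have h : (fun z => cpt E g l z (some (k, i))) = fun z => E.x (dot (l k) z) := by
        funext z; simp [cpt, hi]
      rw [h, l39_Dd_comp (l k) z w (E.dx _ (hz k))]
      simp only [gen, hi, if_true, map_mul, eval_C, eval_X]
      simp only [cpt, map_ofNat]
      simp
      ring
    · have h : (fun z => cpt E g l z (some (k, i))) = fun z => E.y (dot (l k) z) := by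
        funext z; simp [cpt, hi]
      rw [h, l39_Dd_comp (l k) z w (E.dy _ (hz k))]
      simp only [gen, hi, if_false, map_mul, map_add, map_pow, eval_C, eval_X]
      simp only [cpt, map_ofNat]
      simp
      ring

private theorem l39_T {z : Fin n → ℂ} (hz : Good E l z) (w : Fin n → ℂ)
    (P : MvPolynomial (EV d) ℂ) :
    Dd w (fun z => eval (cpt E g l z) P) z = eval (cpt E g l z) (T E.a g l w P) := by
  induction P using MvPolynomial.induction_on with
  | C c =>
    have h : (fun z => eval (cpt E g l z) (C c)) = fun _ => c := by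
      funext z; simp
    rw [h]
    unfold Dd
    simp [T, derivation_C]
  | add p q hp hq =>
    have h : (fun z => eval (cpt E g l z) (p + q)) =
        fun z => eval (cpt E g l z) p + eval (cpt E g l z) q := by
      funext z; simp
    have h1 := (sm_eval E g l p hz).differentiableAt (by simp)
    have h2 := (sm_eval E g l q hz).differentiableAt (by simp)
    rw [h, map_add, map_add, ← hp, ← hq]
    unfold Dd
    rw [fderiv_fun_add h1 h2]
    rfl
  | mul_X p v hp =>
    have h : (fun z => eval (cpt E g l z) (p * X v)) =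
        fun z => eval (cpt E g l z) p * cpt E g l z v := by
      funext z; simp
    have h1 := (sm_eval E g l p hz).differentiableAt (by simp)
    have h2 := (l39_cpt E g l hz v).differentiableAt (by simp)
    have h3 : T E.a g l w (p * X v) = p * gen E.a g l w v + X v * T E.a g l w p := by
      unfold T
      rw [Derivation.leibniz, mkDerivation_X, smul_eq_mul, smul_eq_mul]
    rw [h, h3, map_add, map_mul, map_mul, eval_X, ← hp, ← l39_gen E g l hz w v]
    unfold Dd
    rw [fderiv_fun_mul h1 h2]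
    simp only [ContinuousLinearMap.add_apply, ContinuousLinearMap.smul_apply, smul_eq_mul]

theorem DW_eval (ws : List (Fin n → ℂ)) (P : MvPolynomial (EV d) ℂ) {z : Fin n → ℂ}
    (hz : Good E l z) : DW ws (fun z => eval (cpt E g l z) P) z =
      eval (cpt E g l z) (TW E.a g l ws P) := by
  induction ws generalizing z with
  | nil => rfl
  | cons w ws ih =>
    have h1 : DW ws (fun z => eval (cpt E g l z) P) =ᶠ[nhds z]
        fun z => eval (cpt E g l z) (TW E.a g l ws P) := by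
      filter_upwards [(good_open E l).mem_nhds hz] with y hy
      exact ih hy
    have h2 : DW (w :: ws) (fun z => eval (cpt E g l z) P) z =
        Dd w (fun z => eval (cpt E g l z) (TW E.a g l ws P)) z := by
      show Dd w (DW ws (fun z => eval (cpt E g l z) P)) z = _
      unfold Dd
      rw [h1.fderiv_eq]
    rw [h2, l39_T E g l hz]
    rfl

theorem sm_Phi (c : Idx D0 D d → ℂ) : Sm (Phi E g l c) := by
  unfold Phi
  refine ContDiff.sum fun i _ => contDiff_const.mul ?_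
  refine ((l39_dot_cd g).pow _).mul (contDiff_prod fun k _ => ?_)
  exact ((l39_cd E.hS (l k)).pow _).mul ((l39_cd E.hQ (l k)).pow _)

theorem sm_SP (D : ℕ) : Sm (SP E l D) := by
  unfold SP
  exact contDiff_prod fun k _ => (l39_cd E.hS (l k)).pow _

/-- growth -/
theorem grow_Phi : ∃ C : ℝ, 1 ≤ C ∧ ∀ (D0 D : ℕ) (c : Idx D0 D d → ℂ) (ρ : ℝ) (z : Fin n → ℂ),
    1 ≤ ρ → (∀ j, ‖z j‖ ≤ ρ) →
    ‖Phi E g l c z‖ ≤ (∑ i, ‖c i‖) * ((C * ρ) ^ D0 * Real.exp (C * D * ρ ^ 2)) := by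
  obtain ⟨C0, hC0, hgr⟩ := E.gr
  -- bounds of the linear forms
  set G : ℝ := 1 + ∑ j, ‖g j‖ with hG
  set L : ℝ := 1 + ∑ k, ∑ j, ‖l k j‖ with hL
  have hG1 : 1 ≤ G := by
    have : 0 ≤ ∑ j, ‖g j‖ := Finset.sum_nonneg fun j _ => norm_nonneg _
    linarith
  have hL1 : 1 ≤ L := by
    have : 0 ≤ ∑ k, ∑ j, ‖l k j‖ :=
      Finset.sum_nonneg fun k _ => Finset.sum_nonneg fun j _ => norm_nonneg _
    linarith
  have hdot : ∀ (y z : Fin n → ℂ) (ρ : ℝ), 1 ≤ ρ → (∀ j, ‖z j‖ ≤ ρ) →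
      ‖dot y z‖ ≤ (∑ j, ‖y j‖) * ρ := by
    intro y z ρ hρ hz
    unfold dot
    refine (norm_sum_le _ _).trans ?_
    rw [Finset.sum_mul]
    refine Finset.sum_le_sum fun j _ => ?_
    rw [norm_mul]
    exact mul_le_mul_of_nonneg_left (hz j) (norm_nonneg _)
  set K : ℝ := C0 * (1 + L ^ 2) with hK
  have hK0 : 0 ≤ K := by positivity
  have hSQ : ∀ (k : Fin d) (z : Fin n → ℂ) (ρ : ℝ), 1 ≤ ρ → (∀ j, ‖z j‖ ≤ ρ) →
      ‖E.S (dot (l k) z)‖ ≤ Real.exp (K * ρ ^ 2) ∧ ‖E.Q (dot (l k) z)‖ ≤ Real.exp (K * ρ ^ 2) := by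
    intro k z ρ hρ hz
    have h1 : ‖dot (l k) z‖ ≤ L * ρ := by
      refine (hdot (l k) z ρ hρ hz).trans ?_
      refine mul_le_mul_of_nonneg_right ?_ (by linarith)
      have h2 : ∑ j, ‖l k j‖ ≤ ∑ k, ∑ j, ‖l k j‖ :=
        Finset.single_le_sum (f := fun k => ∑ j, ‖l k j‖)
          (fun k _ => Finset.sum_nonneg fun j _ => norm_nonneg _) (Finset.mem_univ k)
      linarith
    have h3 : C0 * (1 + ‖dot (l k) z‖ ^ 2) ≤ K * ρ ^ 2 := by
      have h4 : ‖dot (l k) z‖ ^ 2 ≤ (L * ρ) ^ 2 := pow_le_pow_left₀ (norm_nonneg _) h1 2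
      have h5 : (1 : ℝ) ≤ ρ ^ 2 := one_le_pow₀ hρ
      have h6 : 1 + ‖dot (l k) z‖ ^ 2 ≤ (1 + L ^ 2) * ρ ^ 2 := by nlinarith
      calc C0 * (1 + ‖dot (l k) z‖ ^ 2) ≤ C0 * ((1 + L ^ 2) * ρ ^ 2) :=
            mul_le_mul_of_nonneg_left h6 hC0
        _ = K * ρ ^ 2 := by rw [hK]; ring
    have h7 := Real.exp_le_exp.2 h3
    exact ⟨(hgr _).1.trans h7, (hgr _).2.trans h7⟩
  set C : ℝ := G + 2 * d * K with hC
  refine ⟨C, by have : 0 ≤ 2 * (d : ℝ) * K := by positivity
                linarith, ?_⟩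
  intro D0 D c ρ z hρ hz
  have hρ0 : (0 : ℝ) ≤ ρ := by linarith
  unfold Phi
  refine (norm_sum_le _ _).trans ?_
  rw [Finset.sum_mul]
  refine Finset.sum_le_sum fun i _ => ?_
  rw [norm_mul]
  refine mul_le_mul_of_nonneg_left ?_ (norm_nonneg _)
  rw [norm_mul, norm_pow, norm_prod]
  refine mul_le_mul ?_ ?_ (Finset.prod_nonneg fun k _ => norm_nonneg _) (by positivity)
  · have h1 : ‖dot g z‖ ≤ C * ρ := by
      refine (hdot g z ρ hρ hz).trans (mul_le_mul_of_nonneg_right ?_ hρ0)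
      have : 0 ≤ 2 * (d : ℝ) * K := by positivity
      linarith
    have h2 : 1 ≤ C * ρ := by
      have h3 : 1 ≤ C := by
        have : 0 ≤ 2 * (d : ℝ) * K := by positivity
        linarith
      nlinarith
    calc ‖dot g z‖ ^ (i.1 : ℕ) ≤ (C * ρ) ^ (i.1 : ℕ) := pow_le_pow_left₀ (norm_nonneg _) h1 _
      _ ≤ (C * ρ) ^ D0 := pow_le_pow_right₀ h2 i.1.2.le
  · have h1 : ∀ k : Fin d, ‖E.S (dot (l k) z) ^ (2 * (D - ((i.2 k : Fin D) : ℕ))) *
        E.Q (dot (l k) z) ^ ((i.2 k : Fin D) : ℕ)‖ ≤ Real.exp (2 * D * (K * ρ ^ 2)) := by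
      intro k
      obtain ⟨hS, hQ⟩ := hSQ k z ρ hρ hz
      have hE : 1 ≤ Real.exp (K * ρ ^ 2) := Real.one_le_exp (by positivity)
      rw [norm_mul, norm_pow, norm_pow]
      calc ‖E.S (dot (l k) z)‖ ^ (2 * (D - ((i.2 k : Fin D) : ℕ))) *
            ‖E.Q (dot (l k) z)‖ ^ ((i.2 k : Fin D) : ℕ)
          ≤ Real.exp (K * ρ ^ 2) ^ (2 * (D - ((i.2 k : Fin D) : ℕ))) *
            Real.exp (K * ρ ^ 2) ^ ((i.2 k : Fin D) : ℕ) := by gcongr
        _ = Real.exp (K * ρ ^ 2) ^ (2 * (D - ((i.2 k : Fin D) : ℕ)) + ((i.2 k : Fin D) : ℕ)) := by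
            rw [pow_add]
        _ ≤ Real.exp (K * ρ ^ 2) ^ (2 * D) := by
            refine pow_le_pow_right₀ hE ?_
            have := (i.2 k).2.le
            omega
        _ = Real.exp (2 * D * (K * ρ ^ 2)) := by
            rw [← Real.exp_nat_mul]
            push_cast
            ring_nf
    calc ∏ k, ‖E.S (dot (l k) z) ^ (2 * (D - ((i.2 k : Fin D) : ℕ))) *
          E.Q (dot (l k) z) ^ ((i.2 k : Fin D) : ℕ)‖
        ≤ ∏ _k : Fin d, Real.exp (2 * D * (K * ρ ^ 2)) :=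
          Finset.prod_le_prod (fun k _ => norm_nonneg _) (fun k _ => h1 k)
      _ = Real.exp (d * (2 * D * (K * ρ ^ 2))) := by
          rw [Finset.prod_const, Finset.card_univ, Fintype.card_fin, ← Real.exp_nat_mul]
      _ ≤ Real.exp (C * D * ρ ^ 2) := by
          refine Real.exp_le_exp.2 ?_
          have h2 : (2 * d * K) * (D * ρ ^ 2) ≤ C * (D * ρ ^ 2) :=
            mul_le_mul_of_nonneg_right (by linarith) (by positivity)
          nlinarith

end Pool.Agent.EBM
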