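import Pool.Agent.EBM.SiE
import Pool.Agent.BKR.Num

/-! # The choice of the parameters -/

namespace Pool.Agent.EBM

/-- bound for the sum of the absolute values of the coefficients -/
noncomputable def Sbd (C1 B : ℝ) (b n d D0 D T : ℕ) : ℝ :=
  (D0 * D ^ d : ℕ) * (C1 * (D0 * D ^ d : ℕ) * Abd B b n d D0 D T)

/-- the upper bound for the value -/
noncomputable def Ubd (C C1 CE B V R : ℝ) (b n d D0 D T N t : ℕ) : ℝ :=
  C ^ t * (t.factorial * ((t : ℝ) ^ t * (Sbd C1 B b n d D0 D T *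
    ((CE * (V * (n * N + R + 2))) ^ D0 * Real.exp (CE * D * (V * (n * N + R + 2)) ^ 2))) *
    ((2 * N + 1) / (R - N)) ^ (N * (t / n))))

/-- the bound for the conjugates -/
noncomputable def Hbd (C1 B : ℝ) (b n d D0 D T t : ℕ) : ℝ :=
  Sbd C1 B b n d D0 D T * ((4 * B ^ 2 * (D0 + d * D + t)) ^ t * B ^ (D0 + d * D + t))

namespace NumE

open Pool.Agent.BKR.Num (ppow gain)

/-- the relations between the parameters -/
structure Ctx (n N d D0 D T t : ℕ) (R : ℝ) : Prop where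
  hR1 : 1 ≤ R
  ht : 1 ≤ t
  hRt : R ^ (2 * (n + 1)) = t
  hDt : D ≤ t
  hDR : D * R ^ 2 ≤ 2 * N * t
  hD0 : D0 ≤ D
  hD01 : 1 ≤ D0
  hd : d ≤ n + 1
  hTt : T ≤ t
  hDD : D0 * D ^ d = D ^ (n + 1)

/-- `X` is at most `(K R ^ e) ^ t` -/
def Adm (n N e : ℕ) (X : ℕ → ℕ → ℕ → ℕ → ℕ → ℝ → ℝ) : Prop :=
  ∃ K : ℝ, 0 ≤ K ∧ ∀ d D0 D T t R, Ctx n N d D0 D T t R →
    0 ≤ X d D0 D T t R ∧ X d D0 D T t R ≤ (K * R ^ e) ^ t

variable {n N e e' : ℕ} {X Y : ℕ → ℕ → ℕ → ℕ → ℕ → ℝ → ℝ}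

theorem Adm.mul (hX : Adm n N e X) (hY : Adm n N e' Y) :
    Adm n N (e + e') fun d D0 D T t R => X d D0 D T t R * Y d D0 D T t R := by
  obtain ⟨K, hK, h⟩ := hX
  obtain ⟨K', hK', h'⟩ := hY
  refine ⟨K * K', mul_nonneg hK hK', fun d D0 D T t R c => ?_⟩
  obtain ⟨h1, h2⟩ := h d D0 D T t R c
  obtain ⟨h3, h4⟩ := h' d D0 D T t R c
  refine ⟨mul_nonneg h1 h3, ?_⟩
  calc X d D0 D T t R * Y d D0 D T t R ≤ (K * R ^ e) ^ t * (K' * R ^ e') ^ t :=
        mul_le_mul h2 h4 h3 (h1.trans h2)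
    _ = (K * K' * R ^ (e + e')) ^ t := by rw [← mul_pow, pow_add]; ring

theorem Adm.pow (hX : Adm n N e X) (δ : ℕ) :
    Adm n N (e * δ) fun d D0 D T t R => X d D0 D T t R ^ δ := by
  obtain ⟨K, hK, h⟩ := hX
  refine ⟨K ^ δ, pow_nonneg hK δ, fun d D0 D T t R c => ?_⟩
  obtain ⟨h1, h2⟩ := h d D0 D T t R c
  refine ⟨pow_nonneg h1 δ, (pow_le_pow_left₀ h1 h2 δ).trans_eq ?_⟩
  rw [← pow_mul, mul_comm t δ, pow_mul, mul_pow, ← pow_mul]

theorem adm_powt (c : ℝ) (hc : 0 ≤ c) : Adm n N 0 fun _ _ _ _ t _ => c ^ t :=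
  ⟨c, hc, fun _ _ _ _ t _ _ => ⟨pow_nonneg hc t, by simp⟩⟩

theorem adm_const (c : ℝ) (hc : 1 ≤ c) : Adm n N 0 fun _ _ _ _ _ _ => c :=
  ⟨c, by linarith, fun _ _ _ _ t _ h => ⟨by linarith, by
    simpa using ppow hc le_rfl h.ht⟩⟩

theorem Ctx.deg_le {d D0 D T t : ℕ} {R : ℝ} (h : Ctx n N d D0 D T t R) :
    D0 + d * D ≤ (n + 2) * t := by
  have h1 := h.hD0.trans h.hDt
  have h2 : d * D ≤ (n + 1) * t := Nat.mul_le_mul h.hd h.hDt
  calc D0 + d * D ≤ t + (n + 1) * t := add_le_add h1 h2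
    _ = (n + 2) * t := by ring

/-- powers with an exponent that is at most a multiple of `t` -/
theorem adm_powlin (c : ℝ) (hc : 1 ≤ c) (k : ℕ) (f : ℕ → ℕ → ℕ → ℕ → ℕ → ℕ)
    (hf : ∀ d D0 D T t R, Ctx n N d D0 D T t R → f d D0 D T t ≤ k * t) :
    Adm n N 0 fun d D0 D T t _ => c ^ f d D0 D T t :=
  ⟨c ^ k, by positivity, fun d D0 D T t R h => ⟨by positivity, by
    rw [pow_zero, mul_one, ← pow_mul]
    exact ppow hc le_rfl (hf d D0 D T t R h)⟩⟩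

/-- powers `(c (D0 + d D + x)) ^ (m y)`, `x, y` at most `n T` or `t` -/
theorem adm_base (c : ℝ) (hc : 1 ≤ c) (k m : ℕ) (f g : ℕ → ℕ → ℕ → ℕ → ℕ → ℕ)
    (hf : ∀ d D0 D T t R, Ctx n N d D0 D T t R → f d D0 D T t ≤ k * t)
    (hf1 : ∀ d D0 D T t R, Ctx n N d D0 D T t R → 1 ≤ f d D0 D T t)
    (hg : ∀ d D0 D T t R, Ctx n N d D0 D T t R → g d D0 D T t ≤ m * t) :
    Adm n N (2 * (n + 1) * m) fun d D0 D T t _ => (c * (f d D0 D T t : ℝ)) ^ g d D0 D T t := by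
  refine ⟨(c * k) ^ m, by positivity, fun d D0 D T t R h => ⟨by positivity, ?_⟩⟩
  have h1 : (1 : ℝ) ≤ c * (f d D0 D T t : ℝ) :=
    one_le_mul_of_one_le_of_one_le hc (by exact_mod_cast hf1 d D0 D T t R h)
  have h2 : c * (f d D0 D T t : ℝ) ≤ c * k * t := by
    rw [mul_assoc]
    refine mul_le_mul_of_nonneg_left ?_ (by linarith)
    exact_mod_cast hf d D0 D T t R h
  calc (c * (f d D0 D T t : ℝ)) ^ g d D0 D T t ≤ (c * k * t) ^ (m * t) :=
        ppow h1 h2 (hg d D0 D T t R h)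
    _ = ((c * k) ^ m * R ^ (2 * (n + 1) * m)) ^ t := by
        rw [pow_mul, mul_pow _ (t : ℝ) m, ← h.hRt, ← pow_mul R]

theorem adm_fact : Adm n N (2 * (n + 1)) fun _ _ _ _ t _ => (t.factorial : ℝ) := by
  refine ⟨1, zero_le_one, fun d D0 D T t R h => ⟨by positivity, ?_⟩⟩
  rw [one_mul, h.hRt]
  show ((t.factorial : ℕ) : ℝ) ≤ _
  exact_mod_cast Nat.factorial_le_pow t

theorem adm_tt : Adm n N (2 * (n + 1)) fun _ _ _ _ t _ => (t : ℝ) ^ t := by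
  refine ⟨1, zero_le_one, fun d D0 D T t R h => ⟨by positivity, ?_⟩⟩
  rw [one_mul, h.hRt]

theorem adm_DD : Adm n N 0 fun d D0 D _ _ _ => ((D0 * D ^ d : ℕ) : ℝ) := by
  refine ⟨2 ^ (n + 1), by positivity, fun d D0 D T t R h => ⟨by positivity, ?_⟩⟩
  show ((D0 * D ^ d : ℕ) : ℝ) ≤ _
  rw [h.hDD, pow_zero, mul_one, ← pow_mul, mul_comm (n + 1) t, pow_mul]
  have : D ^ (n + 1) ≤ (2 ^ t) ^ (n + 1) :=
    Nat.pow_le_pow_left (h.hDt.trans Nat.lt_two_pow_self.le) _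
  exact_mod_cast this

/-- the square of `R` times the degree is at most a multiple of `t` -/
theorem Ctx.le' {d D0 D T t : ℕ} {R : ℝ} (h : Ctx n N d D0 D T t R) :
    D * (n * N + R + 2) ^ 2 ≤ (n * N + 3) ^ 2 * (2 * N * t) := by
  have h3 := h.hR1
  have h4 : (0 : ℝ) ≤ n * N := by positivity
  have h5 : (n * N + R + 2 : ℝ) ≤ (n * N + 3) * R := by nlinarith
  calc (D : ℝ) * (n * N + R + 2) ^ 2 ≤ D * ((n * N + 3) * R) ^ 2 := by gcongr
    _ = (n * N + 3) ^ 2 * (D * R ^ 2) := by ring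
    _ ≤ (n * N + 3) ^ 2 * (2 * N * t) := by
        have := h.hDR
        gcongr

theorem adm_x (c c' : ℝ) (hc : 0 ≤ c) (hc' : 0 ≤ c') :
    Adm n N 0 fun _ D0 _ _ _ R => (c * (c' * (n * N + R + 2))) ^ D0 := by
  refine ⟨Real.exp (c * (c' * ((n * N + 3) ^ 2 * (2 * N)))), by positivity,
    fun d D0 D T t R h => ?_⟩
  have h3 := h.hR1
  have hx : (1 : ℝ) ≤ n * N + R + 2 := by
    have : (0 : ℝ) ≤ n * N := by positivity
    linarith
  have h0 : 0 ≤ c * (c' * (n * N + R + 2)) := by positivity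
  refine ⟨by positivity, ?_⟩
  have h1 : (D0 : ℝ) ≤ D := by exact_mod_cast h.hD0
  calc (c * (c' * (n * N + R + 2))) ^ D0 ≤ Real.exp (c * (c' * (n * N + R + 2))) ^ D0 := by
        refine pow_le_pow_left₀ h0 ?_ _
        have := Real.add_one_le_exp (c * (c' * (n * N + R + 2)))
        linarith
    _ = Real.exp (D0 * (c * (c' * (n * N + R + 2)))) := (Real.exp_nat_mul _ _).symm
    _ ≤ Real.exp (t * (c * (c' * ((n * N + 3) ^ 2 * (2 * N))))) := by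
        refine Real.exp_le_exp.2 ?_
        have h6 : (n * N + R + 2 : ℝ) ≤ (n * N + R + 2) ^ 2 := by nlinarith
        calc (D0 : ℝ) * (c * (c' * (n * N + R + 2))) ≤ D * (c * (c' * (n * N + R + 2) ^ 2)) := by
              gcongr
          _ = c * (c' * (D * (n * N + R + 2) ^ 2)) := by ring
          _ ≤ c * (c' * ((n * N + 3) ^ 2 * (2 * N * t))) := by
              have := h.le'
              gcongr
          _ = _ := by ring
    _ = _ := by rw [Real.exp_nat_mul, pow_zero, mul_one]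

theorem adm_exp (c c' : ℝ) (hc : 0 ≤ c) :
    Adm n N 0 fun _ _ D _ _ R => Real.exp (c * D * (c' * (n * N + R + 2)) ^ 2) := by
  refine ⟨Real.exp (c * (c' ^ 2 * ((n * N + 3) ^ 2 * (2 * N)))), by positivity,
    fun d D0 D T t R h => ⟨by positivity, ?_⟩⟩
  rw [pow_zero, mul_one, ← Real.exp_nat_mul]
  refine Real.exp_le_exp.2 ?_
  calc c * D * (c' * (n * N + R + 2)) ^ 2 = c * (c' ^ 2 * (D * (n * N + R + 2) ^ 2)) := by ring
    _ ≤ c * (c' ^ 2 * ((n * N + 3) ^ 2 * (2 * N * t))) := by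
        have := h.le'
        gcongr
    _ = _ := by ring

theorem adm_abd {b : ℕ} {B : ℝ} (hb : 1 ≤ b) (hB : 1 ≤ B) :
    Adm n N (0 + (2 * (n + 1) * n + 0)) fun d D0 D T _ _ => Abd B b n d D0 D T := by
  have hb' : (1 : ℝ) ≤ b := by exact_mod_cast hb
  have h4 : (1 : ℝ) ≤ 4 * B ^ 2 := by nlinarith
  have := (adm_powlin (n := n) (N := N) (b : ℝ) hb' (2 * n + (n + 2) + n)
    (fun d D0 D T _ => 2 * (n * T) + (D0 + d * D + n * T)) fun d D0 D T t R h => by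
      have h1 := h.deg_le
      have h2 : n * T ≤ n * t := Nat.mul_le_mul_left _ h.hTt
      nlinarith).mul ((adm_base (n := n) (N := N) (4 * B ^ 2) h4 ((n + 2) + n) n
      (fun d D0 D T _ => D0 + d * D + n * T) (fun _ _ _ T _ => n * T)
      (fun d D0 D T t R h => by
        have h1 := h.deg_le
        have h2 : n * T ≤ n * t := Nat.mul_le_mul_left _ h.hTt
        nlinarith) (fun d D0 D T t R h => by
        have := h.hD01
        omega) (fun d D0 D T t R h => Nat.mul_le_mul_left _ h.hTt)).mul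
      (adm_powlin (n := n) (N := N) B hB ((n + 2) + n)
      (fun d D0 D T _ => D0 + d * D + n * T) fun d D0 D T t R h => by
        have h1 := h.deg_le
        have h2 : n * T ≤ n * t := Nat.mul_le_mul_left _ h.hTt
        nlinarith))
  simp only [Nat.cast_add, Nat.cast_mul] at this
  exact this

theorem adm_sbd {b : ℕ} {C1 B : ℝ} (hb : 1 ≤ b) (hC1 : 1 ≤ C1) (hB : 1 ≤ B) :
    Adm n N (2 * (n + 1) * n) fun d D0 D T _ _ => Sbd C1 B b n d D0 D T := by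
  have := adm_DD.mul (((adm_const C1 hC1).mul adm_DD).mul (adm_abd (n := n) (N := N) hb hB))
  simp only [zero_add, add_zero] at this
  exact this

theorem adm_hbd {b : ℕ} {C1 B : ℝ} (hb : 1 ≤ b) (hC1 : 1 ≤ C1) (hB : 1 ≤ B) :
    Adm n N (2 * (n + 1) * n + 2 * (n + 1) * 1) fun d D0 D T t _ => Hbd C1 B b n d D0 D T t := by
  have h4 : (1 : ℝ) ≤ 4 * B ^ 2 := by nlinarith
  have := (adm_sbd (n := n) (N := N) hb hC1 hB).mul ((adm_base (n := n) (N := N) (4 * B ^ 2) h4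
      ((n + 2) + 1) 1
      (fun d D0 D _ t => D0 + d * D + t) (fun _ _ _ _ t => t)
      (fun d D0 D T t R h => by
        have h1 := h.deg_le
        nlinarith) (fun d D0 D T t R h => by
        have := h.hD01
        omega) (fun d D0 D T t R h => by simp)).mul
      (adm_powlin (n := n) (N := N) B hB ((n + 2) + 1)
      (fun d D0 D _ t => D0 + d * D + t) fun d D0 D T t R h => by
        have h1 := h.deg_le
        nlinarith))
  simp only [Nat.cast_add, Nat.cast_mul, zero_add, add_zero] at this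
  exact this

theorem adm_den {b : ℕ} (hb : 1 ≤ b) :
    Adm n N 0 fun d D0 D _ t _ => ((b ^ (2 * t + (D0 + d * D + t)) : ℕ) : ℝ) := by
  have hb' : (1 : ℝ) ≤ b := by exact_mod_cast hb
  have := adm_powlin (n := n) (N := N) (b : ℝ) hb' (2 + (n + 2) + 1)
    (fun d D0 D _ t => 2 * t + (D0 + d * D + t)) fun d D0 D T t R h => by
      have h1 := h.deg_le
      nlinarith
  simpa only [Nat.cast_pow] using this

theorem adm_s (s : ℝ) (hs : 1 ≤ s) : Adm n N 0 fun d _ D _ _ _ => s ^ (2 * D * d) :=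
  adm_powlin (n := n) (N := N) s hs (2 * (n + 1)) (fun d _ D _ _ => 2 * D * d)
    fun d D0 D T t R h => by
      have h1 : D * d ≤ t * (n + 1) := Nat.mul_le_mul h.hDt h.hd
      nlinarith

/-- `Ubd` without the gain -/
noncomputable def Ubd' (C C1 CE B V R : ℝ) (b n d D0 D T N t : ℕ) : ℝ :=
  C ^ t * (t.factorial * ((t : ℝ) ^ t * (Sbd C1 B b n d D0 D T *
    ((CE * (V * (n * N + R + 2))) ^ D0 * Real.exp (CE * D * (V * (n * N + R + 2)) ^ 2)))))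

theorem adm_ubd {b : ℕ} {C C1 CE B V : ℝ} (hb : 1 ≤ b) (hC : 1 ≤ C)
    (hC1 : 1 ≤ C1) (hCE : 1 ≤ CE) (hB : 1 ≤ B) (hV : 1 ≤ V) :
    Adm n N (2 * (n + 1) + (2 * (n + 1) + 2 * (n + 1) * n))
      fun d D0 D T t R => Ubd' C C1 CE B V R b n d D0 D T N t := by
  have := (adm_powt (n := n) (N := N) C (by positivity)).mul (adm_fact.mul (adm_tt.mul
    ((adm_sbd hb hC1 hB).mul ((adm_x CE V (by positivity) (by positivity)).mul
    (adm_exp CE V (by positivity))))))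
  simp only [zero_add, add_zero] at this
  exact this

end NumE

open NumE
open Pool.Agent.BKR.Num (ppow gain)

/-- `N = 2 n (n + 1) (n + 4 + δ (n + 1))` or so (it must not depend on `b, B, s`), `M` large,
`R = t ^ (1 / (2 (n + 1)))` -/
theorem num (n δ : ℕ) (hn : 0 < n) (hδ : 0 < δ) (C C1 CE V : ℝ) (hC : 1 ≤ C) (hC1 : 1 ≤ C1)
    (hCE : 1 ≤ CE) (hV : 1 ≤ V) :
    ∃ N : ℕ, 0 < N ∧ ∀ (b : ℕ) (B s : ℝ), 1 ≤ b → 1 ≤ B → 1 ≤ s →
      ∃ M : ℕ, 0 < M ∧ ∀ d D0 D T : ℕ, d ≤ n + 1 → 0 < D0 → D0 ≤ D →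
      D0 * D ^ d = D ^ (n + 1) → D = 2 * N * M ^ n → T = M ^ (n + 1) → ∀ t : ℕ, T ≤ t →
      ∃ R : ℝ, (N : ℝ) + 1 ≤ R ∧
        Ubd C C1 CE B V R b n d D0 D T N t * s ^ (2 * D * d) *
          (((b ^ (2 * t + (D0 + d * D + t)) : ℕ) : ℝ) ^ δ * Hbd C1 B b n d D0 D T t ^ δ) < 1 := by
  obtain ⟨e, he⟩ : ∃ e, e = 2 * (n + 1) + (2 * (n + 1) + 2 * (n + 1) * n) + 0 +
    (0 * δ + (2 * (n + 1) * n + 2 * (n + 1) * 1) * δ) := ⟨_, rfl⟩
  obtain ⟨N, hN⟩ : ∃ N, N = 2 * n * (e + 1) := ⟨_, rfl⟩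
  have hN0 : 0 < N := by rw [hN]; positivity
  refine ⟨N, hN0, fun b B s hb hB hs => ?_⟩
  obtain ⟨K, hK0, hK⟩ := ((adm_ubd (n := n) (N := N) hb hC hC1 hCE hB hV).mul (adm_s s hs)).mul
    (((adm_den hb).pow δ).mul ((adm_hbd hb hC1 hB).pow δ))
  rw [← he] at hK
  obtain ⟨M0, hM⟩ := exists_nat_gt (K * (2 * ((2 * N + 1 : ℕ) : ℝ)) ^ (e + 1) + 4 * N + 2 + n)
  have hKL : 0 ≤ K * (2 * ((2 * N + 1 : ℕ) : ℝ)) ^ (e + 1) := by positivity
  have hM1 : 4 * N + 2 + n ≤ M0 := by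
    have h1 : ((4 * N + 2 + n : ℕ) : ℝ) ≤ M0 := by push_cast; linarith
    exact_mod_cast h1
  obtain ⟨M, hMM⟩ : ∃ M, M = M0 ^ 2 := ⟨_, rfl⟩
  have hMM0 : M0 ≤ M := by rw [hMM, sq]; exact Nat.le_mul_of_pos_left _ (by omega)
  refine ⟨M, by omega, ?_⟩
  intro d D0 D T hd hD0 hD0D hDD hD hT t ht
  have hMt : M ≤ t := by
    calc M = M ^ 1 := (pow_one M).symm
      _ ≤ M ^ (n + 1) := Nat.pow_le_pow_right (by omega) (by omega)
      _ ≤ t := by rw [← hT]; exact ht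
  have ht0 : 1 ≤ t := by omega
  set R : ℝ := (t : ℝ) ^ (1 / (2 * ((n : ℝ) + 1))) with hR
  have hR0 : 0 ≤ R := by positivity
  have hRt : R ^ (2 * (n + 1)) = t := by
    rw [hR, ← Real.rpow_natCast, ← Real.rpow_mul (by positivity)]
    push_cast
    rw [one_div, inv_mul_cancel₀ (by positivity), Real.rpow_one]
  have hMR : (M0 : ℝ) ≤ R := by
    refine le_of_pow_le_pow_left₀ (n := 2 * (n + 1)) (by omega) hR0 ?_
    rw [hRt, ← Nat.cast_pow, pow_mul, ← hMM, ← hT]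
    exact_mod_cast ht
  have hMR2 : (M : ℝ) ≤ R ^ 2 := by
    rw [hMM]
    push_cast
    gcongr
  have hR1 : 4 * N + 2 ≤ R := by
    refine le_trans ?_ hMR
    have h1 : 4 * N + 2 ≤ M0 := by omega
    exact_mod_cast h1
  have hN0' : (0 : ℝ) ≤ N := by positivity
  have hctx : Ctx n N d D0 D T t R := by
    refine ⟨by linarith, ht0, hRt, ?_, ?_, hD0D, hD0, hd, ht, hDD⟩
    · calc D = 2 * N * M ^ n := hD
        _ ≤ M * M ^ n := Nat.mul_le_mul_right _ (by omega)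
        _ = T := by rw [hT]; ring
        _ ≤ t := ht
    · rw [hD]
      push_cast
      calc 2 * (N : ℝ) * (M : ℝ) ^ n * R ^ 2 ≤ 2 * N * (R ^ 2) ^ n * R ^ 2 := by gcongr
        _ = 2 * N * R ^ (2 * (n + 1)) := by ring
        _ = _ := by rw [hRt]
  refine ⟨R, by linarith, ?_⟩
  obtain ⟨h1, h2⟩ := hK d D0 D T t R hctx
  obtain ⟨h3, h4⟩ := gain n (e + 1) t R hn (by rw [← hN]; push_cast; linarith) (by omega)
  rw [← hN] at h3 h4
  have hRpos : 0 < R := by linarith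
  calc Ubd C C1 CE B V R b n d D0 D T N t * s ^ (2 * D * d) *
          (((b ^ (2 * t + (D0 + d * D + t)) : ℕ) : ℝ) ^ δ * Hbd C1 B b n d D0 D T t ^ δ)
      = (Ubd' C C1 CE B V R b n d D0 D T N t * s ^ (2 * D * d) *
          (((b ^ (2 * t + (D0 + d * D + t)) : ℕ) : ℝ) ^ δ * Hbd C1 B b n d D0 D T t ^ δ)) *
        ((2 * N + 1) / (R - N)) ^ (N * (t / n)) := by
        rw [Ubd, Ubd']; ring
    _ ≤ (K * R ^ e) ^ t * ((2 * ((2 * N + 1 : ℕ) : ℝ)) ^ (e + 1) / R ^ (e + 1)) ^ t :=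
        mul_le_mul h2 h4 h3 (by positivity)
    _ = (K * (2 * ((2 * N + 1 : ℕ) : ℝ)) ^ (e + 1) / R) ^ t := by
        rw [← mul_pow]
        congr 1
        field_simp
        ring
    _ < 1 := by
        refine pow_lt_one₀ (by positivity) ?_ (by omega)
        rw [div_lt_one hRpos]
        refine lt_of_lt_of_le ?_ hMR
        have : (0 : ℝ) ≤ n := by positivity
        linarith

end Pool.Agent.EBM
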