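import Pool.Agent.EBM.Dir
import Pool.Agent.BKR.Words

/-! # From words in the unit vectors to all words, and back -/

namespace Pool.Agent.EBM
open Pool.Agent.BKR

variable {n : ℕ}

private theorem wordE_uv (w : Fin n → ℂ) : w = fun j' => ∑ j, w j * uv ℂ j j' := by
  funext j'
  unfold uv
  simp

private theorem wordE_perm (w : Fin n → ℂ) (A B : List (Fin n → ℂ)) :
    (A ++ w :: B).Perm (w :: (A ++ B)) := List.perm_middle

private theorem wordE_zero_aux {Φ : (Fin n → ℂ) → ℂ} (h : Sm Φ) (z : Fin n → ℂ) (t : ℕ)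
    (h0 : ∀ js : List (Fin n), js.length < t → DW (js.map (uv ℂ)) Φ z = 0)
    (ws : List (Fin n → ℂ)) : ∀ js : List (Fin n), ws.length + js.length < t →
      DW (ws ++ js.map (uv ℂ)) Φ z = 0 := by
  induction ws with
  | nil =>
    intro js hjs
    rw [List.nil_append]
    exact h0 js (by simpa using hjs)
  | cons w ws ih =>
    intro js hjs
    rw [List.length_cons] at hjs
    have e1 := DW_sum_dir h [] (ws ++ js.map (uv ℂ)) Finset.univ w (uv ℂ) z
    rw [List.nil_append, ← wordE_uv w] at e1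
    rw [List.cons_append, e1]
    refine Finset.sum_eq_zero fun j _ => ?_
    have e2 := ih (j :: js) (by rw [List.length_cons]; omega)
    rw [List.map_cons, DW_perm h (wordE_perm (uv ℂ j) ws (js.map (uv ℂ)))] at e2
    rw [List.nil_append, e2, mul_zero]

theorem DW_words_zero {Φ : (Fin n → ℂ) → ℂ} (h : Sm Φ) (z : Fin n → ℂ) (t : ℕ)
    (h0 : ∀ js : List (Fin n), js.length < t → DW (js.map (uv ℂ)) Φ z = 0) :
    ∀ ws : List (Fin n → ℂ), ws.length < t → DW ws Φ z = 0 := by
  intro ws hws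
  have := wordE_zero_aux h z t h0 ws [] (by simpa using hws)
  simpa using this

private theorem wordE_bound_aux {Φ : (Fin n → ℂ) → ℂ} (h : Sm Φ) (z : Fin n → ℂ)
    (v κ : Fin n → Fin n → ℂ) (hκ : ∀ j, uv ℂ j = fun j' => ∑ i, κ j i * v i j') (C M : ℝ)
    (hC0 : 0 ≤ C) (hM0 : 0 ≤ M) (hC : ∀ j, ∑ i, ‖κ j i‖ ≤ C) (t : ℕ)
    (hb : ∀ is : List (Fin n), is.length = t → ‖DW (is.map v) Φ z‖ ≤ M)
    (js : List (Fin n)) : ∀ is : List (Fin n), is.length + js.length = t →
      ‖DW (is.map v ++ js.map (uv ℂ)) Φ z‖ ≤ C ^ js.length * M := by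
  induction js with
  | nil =>
    intro is his
    have := hb is (by simpa using his)
    simpa using this
  | cons j js ih =>
    intro is his
    rw [List.length_cons] at his
    have e1 := DW_sum_dir h (is.map v) (js.map (uv ℂ)) Finset.univ (κ j) v z
    rw [← hκ j] at e1
    rw [List.map_cons, e1]
    refine (norm_sum_le _ _).trans ?_
    have e4 : ∀ i ∈ Finset.univ, ‖κ j i * DW (is.map v ++ v i :: js.map (uv ℂ)) Φ z‖ ≤
        ‖κ j i‖ * (C ^ js.length * M) := by
      intro i _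
      rw [norm_mul]
      refine mul_le_mul_of_nonneg_left ?_ (norm_nonneg _)
      rw [DW_perm h (wordE_perm (v i) (is.map v) (js.map (uv ℂ)))]
      exact ih (i :: is) (by rw [List.length_cons]; omega)
    refine (Finset.sum_le_sum e4).trans ?_
    rw [← Finset.sum_mul, List.length_cons, pow_succ']
    have e5 : 0 ≤ C ^ js.length * M := mul_nonneg (pow_nonneg hC0 _) hM0
    calc (∑ i, ‖κ j i‖) * (C ^ js.length * M) ≤ C * (C ^ js.length * M) :=
          mul_le_mul_of_nonneg_right (hC j) e5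
      _ = C * C ^ js.length * M := by ring

theorem DW_words_bound {Φ : (Fin n → ℂ) → ℂ} (h : Sm Φ) (z : Fin n → ℂ)
    (v κ : Fin n → Fin n → ℂ) (hκ : ∀ j, uv ℂ j = fun j' => ∑ i, κ j i * v i j') (C M : ℝ)
    (hC0 : 0 ≤ C) (hM0 : 0 ≤ M) (hC : ∀ j, ∑ i, ‖κ j i‖ ≤ C) (t : ℕ)
    (hb : ∀ is : List (Fin n), is.length = t → ‖DW (is.map v) Φ z‖ ≤ M) :
    ∀ js : List (Fin n), js.length = t → ‖DW (js.map (uv ℂ)) Φ z‖ ≤ C ^ t * M := by
  intro js hjs
  have := wordE_bound_aux h z v κ hκ C M hC0 hM0 hC t hb js [] (by simpa using hjs)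
  rw [hjs] at this
  simpa using this

/-- all derivatives vanish at one point -/
theorem DW_all_zero {Φ : (Fin n → ℂ) → ℂ} (h : Sm Φ) (z0 : Fin n → ℂ)
    (h0 : ∀ js : List (Fin n), DW (js.map (uv ℂ)) Φ z0 = 0) (z : Fin n → ℂ) : Φ z = 0 := by
  obtain ⟨w, hw⟩ : ∃ w : Fin n → ℂ, w = fun j => z j - z0 j := ⟨_, rfl⟩
  have h1 := Complex.hasSum_taylorSeries_of_entire (differentiable_line h z0 w) 0 1
  have h2 : ∀ k : ℕ, iteratedDeriv k (fun s : ℂ => Φ (fun j => z0 j + s * w j)) 0 = 0 := by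
    intro k
    rw [iteratedDeriv_line h z0 w k 0]
    have h3 : (fun j => z0 j + 0 * w j) = z0 := by
      funext j
      rw [zero_mul, add_zero]
    rw [h3]
    exact DW_words_zero h z0 (k + 1) (fun js _ => h0 js) _ (by rw [List.length_replicate]; omega)
  have h4 : (fun k : ℕ => ((k.factorial : ℂ)⁻¹ • ((1 : ℂ) - 0) ^ k •
      iteratedDeriv k (fun s : ℂ => Φ (fun j => z0 j + s * w j)) 0)) = fun _ => 0 := by
    funext k
    rw [h2 k, smul_zero, smul_zero]
  rw [h4] at h1
  have h5 := h1.unique hasSum_zero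
  have h6 : (fun j => z0 j + 1 * w j) = z := by
    funext j
    rw [hw]
    ring
  rw [← h6]
  exact h5

end Pool.Agent.EBM
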