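import Pool.Agent.EBM.LineE
import Pool.Agent.EBM.WordE
import Pool.Agent.EBM.Leib
import Pool.Agent.EBM.Link
import Pool.Agent.EBM.NumE
import Pool.Agent.BKR.Liou

/-! # Schneider and Lang on a grid, for elliptic functions -/

namespace Pool.Agent.EBM
open MvPolynomial Pool.Agent.BKR Pool.Agent.ZCM

theorem SLGE_dirs (n : ℕ) (hn : 0 < n) (v : Fin n → Fin n → ℂ) (hv : LinearIndependent ℂ v)
    (u : Fin n → ℂ) :
    ∃ (κ : Fin n → Fin n → ℂ) (C V : ℝ), 1 ≤ C ∧ 1 ≤ V ∧ (∀ i j, ‖v i j‖ ≤ V) ∧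
      (∀ j, ‖u j‖ ≤ V) ∧
      (∀ j, uv ℂ j = fun j' => ∑ i, κ j i * v i j') ∧ ∀ j, ∑ i, ‖κ j i‖ ≤ C := by
  have : Nonempty (Fin n) := ⟨⟨0, hn⟩⟩
  have hcard : Fintype.card (Fin n) = Module.finrank ℂ (Fin n → ℂ) := by simp
  let bs := basisOfLinearIndependentOfCardEqFinrank hv hcard
  have hbs : ∀ i, bs i = v i := fun i => by
    simp [bs]
  have hu0 : 0 ≤ ∑ j, ‖u j‖ := by positivity
  have hv0 : 0 ≤ ∑ i : Fin n, ∑ j, ‖v i j‖ := by positivity
  refine ⟨fun j i => bs.repr (uv ℂ j) i, 1 + ∑ j : Fin n, ∑ i, ‖bs.repr (uv ℂ j) i‖,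
    1 + ∑ i : Fin n, ∑ j, ‖v i j‖ + ∑ j, ‖u j‖, ?_, ?_, ?_, ?_, ?_, ?_⟩
  · have : 0 ≤ ∑ j : Fin n, ∑ i, ‖bs.repr (uv ℂ j) i‖ := by positivity
    linarith
  · linarith
  · intro i j
    have h1 : ‖v i j‖ ≤ ∑ j, ‖v i j‖ :=
      Finset.single_le_sum (f := fun j => ‖v i j‖) (fun _ _ => norm_nonneg _) (Finset.mem_univ j)
    have h2 : ∑ j, ‖v i j‖ ≤ ∑ i : Fin n, ∑ j, ‖v i j‖ :=
      Finset.single_le_sum (f := fun i => ∑ j, ‖v i j‖) (fun _ _ => by positivity)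
        (Finset.mem_univ i)
    linarith
  · intro j
    have h1 : ‖u j‖ ≤ ∑ j, ‖u j‖ :=
      Finset.single_le_sum (f := fun j => ‖u j‖) (fun _ _ => norm_nonneg _) (Finset.mem_univ j)
    linarith
  · intro j
    have h := bs.sum_repr (uv ℂ j)
    funext j'
    have h' := congrFun h j'
    rw [← h']
    simp [hbs, Finset.sum_apply]
  · intro j
    have h2 : ∑ i, ‖bs.repr (uv ℂ j) i‖ ≤ ∑ j : Fin n, ∑ i, ‖bs.repr (uv ℂ j) i‖ :=
      Finset.single_le_sum (f := fun j => ∑ i, ‖bs.repr (uv ℂ j) i‖) (fun _ _ => by positivity)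
        (Finset.mem_univ j)
    linarith

variable {n d D0 D : ℕ}

theorem SLGE_gen (a : ℂ) (g : Fin n → ℂ) (l : Fin d → Fin n → ℂ) (w : Fin n → ℂ) (i : EV d) :
    gen a g l w i = ∑ j, C (w j) * gen a g l (uv ℂ j) i := by
  have h0 : ∀ y : Fin n → ℂ, dot y w = ∑ j, w j * dot y (uv ℂ j) := by
    intro y
    unfold dot uv
    refine Finset.sum_congr rfl fun j _ => ?_
    simp [mul_comm]
  rcases i with _ | ⟨k, i⟩
  · simp only [gen]
    rw [h0, map_sum]
    simp only [map_mul]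
  · by_cases hi : i = 0
    · simp only [gen, hi, if_true]
      rw [h0 (l k), Finset.mul_sum, map_sum, Finset.sum_mul]
      refine Finset.sum_congr rfl fun j _ => ?_
      simp only [map_mul]
      ring
    · simp only [gen, hi, if_false]
      rw [h0 (l k), map_sum, Finset.sum_mul]
      refine Finset.sum_congr rfl fun j _ => ?_
      simp only [map_mul]
      ring

theorem SLGE_T (a : ℂ) (g : Fin n → ℂ) (l : Fin d → Fin n → ℂ) (w : Fin n → ℂ)
    (P : MvPolynomial (EV d) ℂ) : T a g l w P = ∑ j, w j • T a g l (uv ℂ j) P := by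
  induction P using MvPolynomial.induction_on with
  | C c =>
    have h1 : ∀ w' : Fin n → ℂ, T a g l w' (C c) = 0 := fun w' => (T a g l w').map_algebraMap c
    simp only [h1, smul_zero, Finset.sum_const_zero]
  | add p q hp hq =>
    simp only [map_add, hp, hq, smul_add, Finset.sum_add_distrib]
  | mul_X p i hp =>
    have h1 : ∀ w' : Fin n → ℂ, T a g l w' (X i) = gen a g l w' i := fun w' => by
      rw [T, mkDerivation_X]
    simp only [Derivation.leibniz, h1, hp, smul_eq_mul, smul_add, Finset.sum_add_distrib]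
    rw [SLGE_gen, Finset.mul_sum, Finset.mul_sum]
    congr 1
    · refine Finset.sum_congr rfl fun j _ => ?_
      rw [smul_eq_C_mul]
      ring
    · refine Finset.sum_congr rfl fun j _ => ?_
      rw [smul_eq_C_mul, smul_eq_C_mul]
      ring

theorem SLGE_span (a : ℂ) (g : Fin n → ℂ) (l : Fin d → Fin n → ℂ) (P : MvPolynomial (EV d) ℂ)
    (ws : List (Fin n → ℂ)) : TW a g l ws P ∈ Submodule.span ℂ
      {Q | ∃ js : List (Fin n), js.length = ws.length ∧ Q = TW a g l (js.map (uv ℂ)) P} := by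
  induction ws with
  | nil => exact Submodule.subset_span ⟨[], rfl, rfl⟩
  | cons w ws ih =>
    change T a g l w (TW a g l ws P) ∈ _
    refine Submodule.span_induction (p := fun Q _ => T a g l w Q ∈ Submodule.span ℂ
      {Q | ∃ js : List (Fin n), js.length = (w :: ws).length ∧
        Q = TW a g l (js.map (uv ℂ)) P}) ?_ ?_ ?_ ?_ ih
    · rintro _ ⟨js, hjs, rfl⟩
      rw [SLGE_T]
      refine Submodule.sum_mem _ fun j _ => Submodule.smul_mem _ _ ?_
      refine Submodule.subset_span ⟨j :: js, by simp [hjs], rfl⟩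
    · rw [map_zero]
      exact Submodule.zero_mem _
    · intro x y _ _ hx hy
      rw [map_add]
      exact Submodule.add_mem _ hx hy
    · intro r x _ hx
      rw [Derivation.map_smul]
      exact Submodule.smul_mem _ _ hx

theorem SLGE_zero (a : ℂ) (g : Fin n → ℂ) (l : Fin d → Fin n → ℂ) (P : MvPolynomial (EV d) ℂ)
    (pt : EV d → ℂ) (ws : List (Fin n → ℂ))
    (h : ∀ js : List (Fin n), js.length = ws.length →
      eval pt (TW a g l (js.map (uv ℂ)) P) = 0) : eval pt (TW a g l ws P) = 0 := by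
  refine Submodule.span_induction (p := fun Q _ => eval pt Q = 0) ?_ ?_ ?_ ?_
    (SLGE_span a g l P ws)
  · rintro _ ⟨js, hjs, rfl⟩
    exact h js hjs
  · exact map_zero _
  · intro x y _ _ hx hy
    rw [map_add, hx, hy, add_zero]
  · intro r x _ hx
    rw [smul_eval, hx, mul_zero]

theorem SLGE_td (K : Type*) [Field K] (c : Idx D0 D d → K) :
    (PC c).totalDegree ≤ D0 + d * D := by
  unfold PC
  refine totalDegree_finsetSum_le fun i _ => ?_
  refine (totalDegree_mul _ _).trans ?_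
  rw [totalDegree_C, zero_add]
  exact td_mon i

theorem SLGE_nm (c : Idx D0 D d → ℂ) : nm (PC c) ≤ ∑ i, ‖c i‖ := by
  unfold PC
  refine (nm_sum_le _ _).trans (Finset.sum_le_sum fun i _ => ?_)
  refine (nm_mul_le _ _).trans ?_
  rw [nm_C]
  have := nm_mon i (D0 := D0) (D := D) (d := d)
  have h0 := norm_nonneg (c i)
  nlinarith

theorem SLGE_map_eval {A B σ : Type*} [CommRing A] [CommRing B] (φ : A →+* B) (w : σ → A)
    (P : MvPolynomial σ A) : φ (eval w P) = eval (fun i => φ (w i)) (map φ P) := by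
  rw [eval_map]
  induction P using MvPolynomial.induction_on with
  | C c => simp
  | add p q hp hq => rw [map_add, map_add, hp, hq, eval₂_add]
  | mul_X p i hp => rw [map_mul, map_mul, hp, eval₂_mul, eval_X, eval₂_X]

/-- near a good point -/
theorem SLGE_germ (E : Ell) (g : Fin n → ℂ) (l : Fin d → Fin n → ℂ) (c : Idx D0 D d → ℂ)
    {γ : Fin n → ℂ} (hγ : Good E l γ) :
    Phi E g l c =ᶠ[nhds γ] fun z => SP E l D z * eval (cpt E g l z) (PC c) := by
  filter_upwards [(good_open E l).mem_nhds hγ] with z hz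
  exact Phi_eq E g l c hz

/-- the derivatives of the entire function at a good point where all shorter words vanish -/
theorem SLGE_lead (E : Ell) (g : Fin n → ℂ) (l : Fin d → Fin n → ℂ) (c : Idx D0 D d → ℂ)
    {γ : Fin n → ℂ} (hγ : Good E l γ) (t : ℕ)
    (h : ∀ js : List (Fin n), js.length < t →
      eval (cpt E g l γ) (TW E.a g l (js.map (uv ℂ)) (PC c)) = 0) (ws : List (Fin n → ℂ))
    (hws : ws.length ≤ t) :
    DW ws (Phi E g l c) γ = SP E l D γ * eval (cpt E g l γ) (TW E.a g l ws (PC c)) := by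
  rw [DW_congr (SLGE_germ E g l c hγ) ws]
  rw [DW_mul (SP E l D) (fun z => eval (cpt E g l z) (PC c)) (sm_SP E l D) γ
    (sm_eval E g l (PC c) hγ) t ?_ ws hws, DW_eval E g l ws (PC c) hγ]
  intro ws' hws'
  rw [DW_eval E g l ws' (PC c) hγ]
  exact SLGE_zero E.a g l (PC c) _ ws' fun js hjs => h js (by omega)

theorem SLGE_SP (E : Ell) (l : Fin d → Fin n → ℂ) (D : ℕ) {z : Fin n → ℂ} (hz : Good E l z) :
    SP E l D z ≠ 0 := by
  unfold SP
  refine Finset.prod_ne_zero_iff.2 fun k _ => pow_ne_zero _ fun h => hz k ((E.hS0 _).1 h)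

theorem SLGE_SP_low (E : Ell) (l : Fin d → Fin n → ℂ) (D : ℕ) (z : Fin n → ℂ) (s : ℝ)
    (h : ∀ k, 1 ≤ ‖E.S (dot (l k) z)‖ * s) : 1 ≤ ‖SP E l D z‖ * s ^ (2 * D * d) := by
  have h1 : ‖SP E l D z‖ * s ^ (2 * D * d) = ∏ k, (‖E.S (dot (l k) z)‖ * s) ^ (2 * D) := by
    unfold SP
    rw [norm_prod]
    simp only [norm_pow, mul_pow]
    rw [Finset.prod_mul_distrib, Finset.prod_const, Finset.card_univ, Fintype.card_fin, ← pow_mul]
  rw [h1]
  exact Finset.prod_induction _ (fun x : ℝ => 1 ≤ x)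
    (fun _ _ => one_le_mul_of_one_le_of_one_le) le_rfl fun k _ => one_le_pow₀ (h k)

theorem SLGE_one_le (C1 B : ℝ) (hC1 : 1 ≤ C1) (hB : 1 ≤ B) (b n d D0 D T' t : ℕ) (hb : 1 ≤ b)
    (hD0 : 0 < D0) (hD : 0 < D) : 1 ≤ Hbd C1 B b n d D0 D T' t := by
  have hb1 : (1 : ℝ) ≤ b := by exact_mod_cast hb
  have hD01 : (1 : ℝ) ≤ D0 := by exact_mod_cast hD0
  have q1 : (1 : ℝ) ≤ 4 * B ^ 2 := by nlinarith
  have q2 : ∀ x : ℕ, (1 : ℝ) ≤ 4 * B ^ 2 * (D0 + d * D + x) := by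
    intro x
    refine one_le_mul_of_one_le_of_one_le q1 ?_
    have h1 : (0 : ℝ) ≤ d * D := by positivity
    have h2 : (0 : ℝ) ≤ x := Nat.cast_nonneg _
    linarith
  have q3 : (1 : ℝ) ≤ (D0 * D ^ d : ℕ) := by
    exact_mod_cast Nat.one_le_iff_ne_zero.2 (by positivity)
  have q4 : (1 : ℝ) ≤ Abd B b n d D0 D T' := by
    unfold Abd
    refine one_le_mul_of_one_le_of_one_le (one_le_pow₀ hb1)
      (one_le_mul_of_one_le_of_one_le ?_ (one_le_pow₀ hB))
    have := q2 (n * T')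
    push_cast at this
    exact one_le_pow₀ this
  have q5 : (1 : ℝ) ≤ Sbd C1 B b n d D0 D T' := by
    unfold Sbd
    exact one_le_mul_of_one_le_of_one_le q3
      (one_le_mul_of_one_le_of_one_le (one_le_mul_of_one_le_of_one_le hC1 q3) q4)
  unfold Hbd
  exact one_le_mul_of_one_le_of_one_le q5
    (one_le_mul_of_one_le_of_one_le (one_le_pow₀ (q2 t)) (one_le_pow₀ hB))

theorem SLGE_low (E : Ell) (l : Fin d → Fin n → ℂ) (v : Fin n → Fin n → ℂ) (u : Fin n → ℂ)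
    (hgrid : ∀ a : Fin n → ℕ, Good E l (gq u v a)) (N : ℕ) :
    ∃ s : ℝ, 1 ≤ s ∧ ∀ a : Fin n → Fin N, ∀ k,
      1 ≤ ‖E.S (dot (l k) (gq u v fun i => (a i : ℕ)))‖ * s := by
  refine ⟨1 + ∑ a : Fin n → Fin N, ∑ k, ‖E.S (dot (l k) (gq u v fun i => (a i : ℕ)))‖⁻¹, ?_, ?_⟩
  · have : 0 ≤ ∑ a : Fin n → Fin N, ∑ k, ‖E.S (dot (l k) (gq u v fun i => (a i : ℕ)))‖⁻¹ := by
      positivity
    linarith
  · intro a k
    have h0 : E.S (dot (l k) (gq u v fun i => (a i : ℕ))) ≠ 0 := fun h =>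
      hgrid (fun i => (a i : ℕ)) k ((E.hS0 _).1 h)
    have h1 : 0 < ‖E.S (dot (l k) (gq u v fun i => (a i : ℕ)))‖ := norm_pos_iff.2 h0
    have h2 : ‖E.S (dot (l k) (gq u v fun i => (a i : ℕ)))‖⁻¹ ≤
        1 + ∑ a : Fin n → Fin N, ∑ k, ‖E.S (dot (l k) (gq u v fun i => (a i : ℕ)))‖⁻¹ := by
      have h3 : ‖E.S (dot (l k) (gq u v fun i => (a i : ℕ)))‖⁻¹ ≤
          ∑ k, ‖E.S (dot (l k) (gq u v fun i => (a i : ℕ)))‖⁻¹ :=
        Finset.single_le_sum (f := fun k => ‖E.S (dot (l k) (gq u v fun i => (a i : ℕ)))‖⁻¹)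
          (fun _ _ => by positivity) (Finset.mem_univ k)
      have h4 : ∑ k, ‖E.S (dot (l k) (gq u v fun i => (a i : ℕ)))‖⁻¹ ≤
          ∑ a : Fin n → Fin N, ∑ k, ‖E.S (dot (l k) (gq u v fun i => (a i : ℕ)))‖⁻¹ :=
        Finset.single_le_sum
          (f := fun a : Fin n → Fin N => ∑ k, ‖E.S (dot (l k) (gq u v fun i => (a i : ℕ)))‖⁻¹)
          (fun _ _ => by positivity) (Finset.mem_univ a)
      linarith
    calc (1 : ℝ) = ‖E.S (dot (l k) (gq u v fun i => (a i : ℕ)))‖ *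
          ‖E.S (dot (l k) (gq u v fun i => (a i : ℕ)))‖⁻¹ := (mul_inv_cancel₀ h1.ne').symm
      _ ≤ _ := mul_le_mul_of_nonneg_left h2 h1.le

/-- some derivative does not vanish -/
theorem SLGE_exists (E : Ell) (g : Fin n → ℂ) (l : Fin d → Fin n → ℂ)
    (c : Idx D0 D d → ℂ) (hc : c ≠ 0)
    (hind : (∀ z, Good E l z → eval (cpt E g l z) (PC c) = 0) → c = 0)
    {γ : Fin n → ℂ} (hγ : Good E l γ) : ∃ js : List (Fin n),
      eval (cpt E g l γ) (TW E.a g l (js.map (uv ℂ)) (PC c)) ≠ 0 := by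
  by_contra hcon
  simp only [not_exists, not_not, ne_eq] at hcon
  have h0 : ∀ js : List (Fin n), DW (js.map (uv ℂ)) (Phi E g l c) γ = 0 := by
    intro js
    rw [SLGE_lead E g l c hγ js.length (fun js' _ => hcon js') (js.map (uv ℂ)) (by simp), hcon js,
      mul_zero]
  have h1 := DW_all_zero (sm_Phi E g l c) γ h0
  refine hc (hind fun z hz => ?_)
  have h2 := Phi_eq E g l c hz
  rw [h1 z] at h2
  exact (mul_eq_zero.1 h2.symm).resolve_left (SLGE_SP E l D hz)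

theorem slge (E : Ell) (n d : ℕ) (hn : 0 < n) (g : Fin n → ℂ) (hd : d = n + 1 ∨ d = n)
    (l : Fin d → Fin n → ℂ)
    (hind : ∀ (D0 D : ℕ) (c : Idx D0 D d → ℂ), (d = n + 1 → D0 = 1) →
      (∀ z, Good E l z → eval (cpt E g l z) (PC c) = 0) → c = 0)
    (v : Fin n → Fin n → ℂ) (hv : LinearIndependent ℂ v) (u : Fin n → ℂ)
    (hgrid : ∀ a : Fin n → ℕ, Good E l (gq u v a))
    (K : Type) [Field K] [NumberField K] (ι : K →+* ℂ) (aK : K) (gK : Fin n → K)
    (lK : Fin d → Fin n → K) (wK : (Fin n → ℕ) → EV d → K) (haK : ι aK = E.a)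
    (hgK : ∀ j, ι (gK j) = g j) (hlK : ∀ k j, ι (lK k j) = l k j)
    (hwK : ∀ a i, ι (wK a i) = cpt E g l (gq u v a) i) : False := by
  classical
  obtain ⟨κ, C, V, hC, hV, hvV, huV, hκ, hκC⟩ := SLGE_dirs n hn v hv u
  obtain ⟨C1, hC1, hS⟩ := siegel K
  obtain ⟨CE, hCE, hgrow⟩ := grow_Phi E g l
  have hδ : 0 < Module.finrank ℚ K := Module.finrank_pos
  obtain ⟨N, hN, hnum⟩ := num n (Module.finrank ℚ K) hn hδ C C1 CE V hC hC1 hCE hV
  obtain ⟨y, hy⟩ : ∃ y : (Unit ⊕ Fin n) ⊕ ((Fin d × Fin n) ⊕ ((Fin n → Fin N) × EV d)) → K,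
      y = fun x => match x with
        | Sum.inl (Sum.inl _) => aK
        | Sum.inl (Sum.inr j) => gK j
        | Sum.inr (Sum.inl q) => lK q.1 q.2
        | Sum.inr (Sum.inr q) => wK (fun i => (q.1 i : ℕ)) q.2 := ⟨_, rfl⟩
  obtain ⟨b, hb, hint⟩ := exists_den K y
  obtain ⟨B, hB, hsz⟩ := exists_size K y
  rw [hy] at hint hsz
  have i1 : IsIntegral ℤ ((b : K) * aK) := hint (Sum.inl (Sum.inl ()))
  have i2 : ∀ j, IsIntegral ℤ ((b : K) * gK j) := fun j => hint (Sum.inl (Sum.inr j))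
  have i3 : ∀ k j, IsIntegral ℤ ((b : K) * lK k j) := fun k j => hint (Sum.inr (Sum.inl (k, j)))
  have i4 : ∀ (r : Fin n → Fin N) i, IsIntegral ℤ ((b : K) * wK (fun i => (r i : ℕ)) i) :=
    fun r i => hint (Sum.inr (Sum.inr (r, i)))
  have s1 : ∀ σ : K →+* ℂ, ‖σ aK‖ ≤ B := fun σ => hsz (Sum.inl (Sum.inl ())) σ
  have s2 : ∀ (σ : K →+* ℂ) j, ‖σ (gK j)‖ ≤ B := fun σ j => hsz (Sum.inl (Sum.inr j)) σ
  have s3 : ∀ (σ : K →+* ℂ) k j, ‖σ (lK k j)‖ ≤ B := fun σ k j =>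
    hsz (Sum.inr (Sum.inl (k, j))) σ
  have s4 : ∀ (σ : K →+* ℂ) (r : Fin n → Fin N) i, ‖σ (wK (fun i => (r i : ℕ)) i)‖ ≤ B :=
    fun σ r i => hsz (Sum.inr (Sum.inr (r, i))) σ
  clear hint hsz
  obtain ⟨s, hs, hsS⟩ := SLGE_low E l v u hgrid N
  obtain ⟨M, hM, hnum⟩ := hnum b B s hb hB hs
  obtain ⟨D, hD⟩ : ∃ D, D = 2 * N * M ^ n := ⟨_, rfl⟩
  obtain ⟨T', hT'⟩ : ∃ T', T' = M ^ (n + 1) := ⟨_, rfl⟩
  have hDpos : 0 < D := by rw [hD]; positivity
  have hTpos : 0 < T' := by rw [hT']; positivity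
  obtain ⟨D0, hD0, hD0D, hcard, hdn, hg0⟩ : ∃ D0, 0 < D0 ∧ D0 ≤ D ∧ D0 * D ^ d = D ^ (n + 1) ∧
      d ≤ n + 1 ∧ (d = n + 1 → D0 = 1) := by
    rcases hd with hd | hd
    · exact ⟨1, one_pos, hDpos, by rw [hd, one_mul], hd.le, fun _ => rfl⟩
    · exact ⟨D, hDpos, le_rfl, by rw [hd, pow_succ, mul_comm], by omega, fun h => by omega⟩
  have hsz : 2 * (T' * N) ^ n ≤ D0 * D ^ d := by
    rw [hcard, hD, hT']
    have e1 : (2 * N * M ^ n) ^ (n + 1) = 2 * (2 ^ n * N) * (M ^ (n + 1) * N) ^ n := by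
      rw [mul_pow, mul_pow, mul_pow, ← pow_mul, ← pow_mul, pow_succ 2, pow_succ N,
        Nat.mul_comm n (n + 1)]
      ring
    rw [e1]
    have e2 : 1 ≤ 2 ^ n * N := Nat.one_le_iff_ne_zero.2 (by positivity)
    calc 2 * (M ^ (n + 1) * N) ^ n = 2 * 1 * (M ^ (n + 1) * N) ^ n := by ring
      _ ≤ 2 * (2 ^ n * N) * (M ^ (n + 1) * N) ^ n := by gcongr
  obtain ⟨c, hc0, hcb, hcz⟩ := hS n d D0 D T' N aK gK lK (fun r i => wK (fun i => (r i : ℕ)) i) b B
    hb hB hn hN hTpos hD0 hDpos i1 i2 i3 i4 s1 s2 s3 s4 hsz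
  obtain ⟨cC, hcC⟩ : ∃ cC : Idx D0 D d → ℂ, cC = fun i => ι (c i : K) := ⟨_, rfl⟩
  -- values
  have hval : ∀ (js : List (Fin n)) (a : Fin n → ℕ),
      ι (eval (wK a) (TW aK gK lK (js.map (uv K)) (PC fun i => (c i : K)))) =
        eval (cpt E g l (gq u v a)) (TW E.a g l (js.map (uv ℂ)) (PC cC)) := by
    intro js a
    rw [SLGE_map_eval, TW_map, map_PC, haK, hcC]
    simp only [hgK, hlK, hwK]
  have hvan : ∀ js : List (Fin n), js.length < T' → ∀ a : Fin n → ℕ, (∀ i, a i < N) →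
      eval (cpt E g l (gq u v a)) (TW E.a g l (js.map (uv ℂ)) (PC cC)) = 0 := by
    intro js hjs a ha
    rw [← hval]
    have hcnt : ∀ j, js.count j < T' := fun j => lt_of_le_of_lt List.count_le_length hjs
    have h := hcz (fun j => ⟨js.count j, hcnt j⟩) (fun i => ⟨a i, ha i⟩)
    simp only at h
    rw [TW_perm aK gK lK ((perm_tw js).map (uv K)), h, map_zero]
  have hcC0 : cC ≠ 0 := by
    intro h
    apply hc0
    funext i
    have h1 : ι (c i : K) = 0 := by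
      have := congrFun h i
      rw [hcC] at this
      exact this
    have h2 : (c i : K) = 0 := ι.injective (by rw [h1, map_zero])
    exact_mod_cast h2
  have hex : ∃ t, ∃ js : List (Fin n), js.length = t ∧ ∃ a : Fin n → ℕ, (∀ i, a i < N) ∧
      eval (cpt E g l (gq u v a)) (TW E.a g l (js.map (uv ℂ)) (PC cC)) ≠ 0 := by
    obtain ⟨js, hjs⟩ := SLGE_exists E g l cC hcC0 (hind D0 D cC hg0) (hgrid fun _ => 0)
    exact ⟨_, js, rfl, fun _ => 0, fun _ => hN, hjs⟩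
  obtain ⟨t, ht⟩ : ∃ t, t = Nat.find hex := ⟨_, rfl⟩
  have ht1 := Nat.find_spec hex
  rw [← ht] at ht1
  obtain ⟨js, hjs, a, ha, hne⟩ := ht1
  have hmin : ∀ js' : List (Fin n), js'.length < t → ∀ a : Fin n → ℕ, (∀ i, a i < N) →
      eval (cpt E g l (gq u v a)) (TW E.a g l (js'.map (uv ℂ)) (PC cC)) = 0 := by
    intro js' hlt a ha
    by_contra hcon
    have := Nat.find_min hex (m := js'.length) (by rw [← ht]; exact hlt)
    exact this ⟨js', rfl, a, ha, hcon⟩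
  have hTt : T' ≤ t := by
    by_contra hcon
    exact hne (hvan js (by rw [hjs]; exact not_le.1 hcon) a ha)
  obtain ⟨R, hR, hfin⟩ := hnum d D0 D T' hdn hD0 hD0D hcard hD hT' t hTt
  -- sum of the coefficients
  have hsum : ∀ σ : K →+* ℂ, ∑ i, ‖σ (c i : K)‖ ≤ Sbd C1 B b n d D0 D T' := by
    intro σ
    calc ∑ i, ‖σ (c i : K)‖ ≤ ∑ _i : Idx D0 D d, C1 * (D0 * D ^ d : ℕ) * Abd B b n d D0 D T' :=
          Finset.sum_le_sum fun i _ => hcb i σ
      _ = Sbd C1 B b n d D0 D T' := by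
          rw [Finset.sum_const, Sbd, nsmul_eq_mul]
          congr 1
          simp [Fintype.card_prod]
  obtain ⟨ξ, hξ⟩ : ∃ ξ, ξ = eval (wK a)
    (TW aK gK lK (js.map (uv K)) (PC fun i => (c i : K))) := ⟨_, rfl⟩
  have hιξ : ι ξ = eval (cpt E g l (gq u v a)) (TW E.a g l (js.map (uv ℂ)) (PC cC)) := by
    rw [hξ, hval]
  have hξ0 : ξ ≠ 0 := by
    intro h
    apply hne
    rw [← hιξ, h, map_zero]
  have htd : (TW aK gK lK (js.map (uv K)) (PC fun i => (c i : K))).totalDegree ≤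
      D0 + d * D + t := by
    refine (td_TW _ _ _ _ _).trans ?_
    rw [List.length_map, hjs]
    exact Nat.add_le_add_right (SLGE_td K _) t
  have hwa : wK a = fun i => wK (fun j => ((⟨a j, ha j⟩ : Fin N) : ℕ)) i := rfl
  have hint : IsIntegral ℤ (((b ^ (2 * t + (D0 + d * D + t)) : ℕ) : K) * ξ) := by
    have h0 : ∀ m, IsIntegral ℤ ((1 : K) * (PC fun i => (c i : K)).coeff m) := by
      intro m
      have h1 : (PC fun i => (c i : K)) = map (algebraMap (NumberField.RingOfIntegers K) K) (PC c) :=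
        (map_PC _ c).symm
      rw [one_mul, h1, coeff_map]
      exact ((PC c).coeff m).2
    have h1 := int_TW aK gK lK js (PC fun i => (c i : K)) b 1 i1 i2 i3 h0
    rw [hjs, one_mul] at h1
    have h2 := int_eval (TW aK gK lK (js.map (uv K)) (PC fun i => (c i : K))) (wK a) b
      ((b : K) ^ (2 * t)) (fun i => i4 (fun j => ⟨a j, ha j⟩) i) h1 (D0 + d * D + t) htd
    rw [hξ]
    convert h2 using 1
    push_cast
    rw [pow_add]
  have hnb : ∀ σ : K →+* ℂ, ‖σ ξ‖ ≤ Hbd C1 B b n d D0 D T' t := by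
    intro σ
    rw [hξ, SLGE_map_eval, TW_map, map_PC]
    have h1 := norm_eval_le (TW (σ aK) (fun j => σ (gK j)) (fun k j => σ (lK k j))
      (js.map (uv ℂ)) (PC fun i => σ (c i : K))) (fun i => σ (wK a i)) B hB
      (fun i => s4 σ (fun j => ⟨a j, ha j⟩) i)
    have h2 : (TW (σ aK) (fun j => σ (gK j)) (fun k j => σ (lK k j))
      (js.map (uv ℂ)) (PC fun i => σ (c i : K))).totalDegree ≤ D0 + d * D + t := by
      refine (td_TW _ _ _ _ _).trans ?_
      rw [List.length_map, hjs]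
      exact Nat.add_le_add_right (SLGE_td ℂ _) t
    have h3 := nm_TW (σ aK) (fun j => σ (gK j)) (fun k j => σ (lK k j)) js
      (PC fun i => σ (c i : K)) B hB (s1 σ) (s2 σ) (s3 σ) (D0 + d * D) (SLGE_td ℂ _)
    rw [hjs] at h3
    have h4 := (SLGE_nm fun i => σ (c i : K)).trans (hsum σ)
    refine h1.trans ?_
    unfold Hbd
    have h5 : (0 : ℝ) ≤ (4 * B ^ 2 * (((D0 + d * D : ℕ) : ℝ) + t)) ^ t := by positivity
    have h6 := h3.trans (mul_le_mul_of_nonneg_left h4 h5)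
    have h7 : (((D0 + d * D : ℕ) : ℝ) + t) = D0 + d * D + t := by push_cast; ring
    rw [h7] at h6
    have h8 : B ^ (TW (σ aK) (fun j => σ (gK j)) (fun k j => σ (lK k j))
      (js.map (uv ℂ)) (PC fun i => σ (c i : K))).totalDegree ≤ B ^ (D0 + d * D + t) :=
      pow_le_pow_right₀ hB h2
    calc _ ≤ ((4 * B ^ 2 * (D0 + d * D + t)) ^ t * Sbd C1 B b n d D0 D T') *
          B ^ (D0 + d * D + t) := mul_le_mul h6 h8 (by positivity) (by
            rw [h7] at h5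
            exact mul_nonneg h5 ((nm_nonneg _).trans h4))
      _ = _ := by ring
  have hH1 := SLGE_one_le C1 B hC1 hB b n d D0 D T' t hb hD0 hDpos
  -- the upper bound
  have hΦ : Sm (Phi E g l cC) := sm_Phi E g l cC
  have hzero : ∀ a : Fin n → ℕ, (∀ i, a i < N) → ∀ ws : List (Fin n → ℂ), ws.length < t →
      DW ws (Phi E g l cC) (gq u v a) = 0 := by
    intro a ha ws hws
    rw [SLGE_lead E g l cC (hgrid a) t (fun js' hjs' => hmin js' hjs' a ha) ws hws.le,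
      SLGE_zero E.a g l (PC cC) _ ws (fun js' hjs' => hmin js' (by omega) a ha), mul_zero]
  have hlead : DW (js.map (uv ℂ)) (Phi E g l cC) (gq u v a) = SP E l D (gq u v a) * ι ξ := by
    rw [SLGE_lead E g l cC (hgrid a) t (fun js' hjs' => hmin js' hjs' a ha) (js.map (uv ℂ))
      (by simp [hjs]), hιξ]
  have hN0 : (0 : ℝ) ≤ N := Nat.cast_nonneg _
  have hn0 : (0 : ℝ) ≤ n := Nat.cast_nonneg _
  have hRN : 0 < R - N := by linarith
  have hR0 : 0 < R := by linarith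
  have hρ1 : 1 ≤ V * (n * N + R + 2) := by
    refine one_le_mul_of_one_le_of_one_le hV ?_
    have : (0 : ℝ) ≤ n * N := by positivity
    linarith
  have hcs : ∑ i, ‖cC i‖ ≤ Sbd C1 B b n d D0 D T' := by
    rw [hcC]
    exact hsum ι
  have hcs0 : 0 ≤ ∑ i, ‖cC i‖ := by positivity
  have hS0 := hcs0.trans hcs
  have hCE0 : 0 < CE := by linarith
  have hMb : ∀ z : Fin n → ℂ, (∀ j, ‖z j‖ ≤ V * (n * N + R + 2)) → ‖Phi E g l cC z‖ ≤
      Sbd C1 B b n d D0 D T' * ((CE * (V * (n * N + R + 2))) ^ D0 *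
        Real.exp (CE * D * (V * (n * N + R + 2)) ^ 2)) := by
    intro z hz
    refine (hgrow D0 D cC _ z hρ1 hz).trans ?_
    refine mul_le_mul_of_nonneg_right hcs ?_
    positivity
  have hup : ‖DW (js.map (uv ℂ)) (Phi E g l cC) (gq u v a)‖ ≤
      Ubd C C1 CE B V R b n d D0 D T' N t := by
    unfold Ubd
    refine DW_words_bound hΦ (gq u v a) v κ hκ C _ (by linarith) ?_ hκC t ?_ js hjs
    · positivity
    · intro is his
      exact word_boundE hn hΦ u v N t hzero V R _ hV (by positivity) hR huV hvV hMb is his a ha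
  have hSP : 1 ≤ ‖SP E l D (gq u v a)‖ * s ^ (2 * D * d) :=
    SLGE_SP_low E l D _ s fun k => hsS (fun i => ⟨a i, ha i⟩) k
  have hξU : ‖ι ξ‖ ≤ Ubd C C1 CE B V R b n d D0 D T' N t * s ^ (2 * D * d) := by
    rw [hlead, norm_mul] at hup
    have hs0 : 0 ≤ s ^ (2 * D * d) := by positivity
    calc ‖ι ξ‖ = 1 * ‖ι ξ‖ := (one_mul _).symm
      _ ≤ (‖SP E l D (gq u v a)‖ * s ^ (2 * D * d)) * ‖ι ξ‖ :=
          mul_le_mul_of_nonneg_right hSP (norm_nonneg _)
      _ = (‖SP E l D (gq u v a)‖ * ‖ι ξ‖) * s ^ (2 * D * d) := by ring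
      _ ≤ _ := mul_le_mul_of_nonneg_right hup hs0
  have hL := liouville K ι ξ hξ0 (b ^ (2 * t + (D0 + d * D + t)))
    (Nat.one_le_iff_ne_zero.2 (by positivity)) hint _ hH1 hnb
  have : (1 : ℝ) < 1 := by
    calc (1 : ℝ) ≤ _ := hL
      _ ≤ _ := mul_le_mul_of_nonneg_right hξU (by positivity)
      _ < 1 := hfin
  exact lt_irrefl _ this

end Pool.Agent.EBM
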