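import Pool.Agent.EBM.Defs

/-! # A rational shift which avoids the poles -/

open scoped Pointwise

namespace Pool.Agent.EBM

theorem eq_zero_of_div_mem (G : Submodule ℤ ℂ) (hG : G.FG) (c : ℂ)
    (h : ∀ m : ℕ, 0 < m → c / (m : ℂ) ∈ G) : c = 0 := by
  have : Module.Finite ℤ G := Module.Finite.iff_fg.2 hG
  let b := Module.Free.chooseBasis ℤ G
  have hc : c ∈ G := by simpa using h 1 one_pos
  have key : ∀ i, b.repr ⟨c, hc⟩ i = 0 := by
    intro i
    have hdvd : (((b.repr ⟨c, hc⟩ i).natAbs + 1 : ℕ) : ℤ) ∣ b.repr ⟨c, hc⟩ i := by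
      have hm := h ((b.repr ⟨c, hc⟩ i).natAbs + 1) (Nat.succ_pos _)
      refine ⟨b.repr ⟨_, hm⟩ i, ?_⟩
      have h2 : (⟨c, hc⟩ : G) =
          (((b.repr ⟨c, hc⟩ i).natAbs + 1 : ℕ) : ℤ) • (⟨_, hm⟩ : G) := by
        apply Subtype.ext
        have hne : (((b.repr ⟨c, hc⟩ i).natAbs + 1 : ℕ) : ℂ) ≠ 0 :=
          Nat.cast_ne_zero.2 (Nat.succ_ne_zero _)
        change c = (((b.repr ⟨c, hc⟩ i).natAbs + 1 : ℕ) : ℤ) •
          (c / (((b.repr ⟨c, hc⟩ i).natAbs + 1 : ℕ) : ℂ))
        rw [zsmul_eq_mul]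
        rw [Int.cast_natCast, mul_div_cancel₀ _ hne]
      have h3 := congrArg (fun x => b.repr x i) h2
      simp only [map_zsmul, Finsupp.smul_apply, smul_eq_mul] at h3
      exact h3
    refine Int.eq_zero_of_dvd_of_natAbs_lt_natAbs hdvd ?_
    rw [Int.natAbs_natCast]
    exact Nat.lt_succ_self _
  have h0 : (⟨c, hc⟩ : G) = 0 := by
    apply b.repr.injective
    ext i
    rw [key i]
    simp
  exact congrArg Subtype.val h0

/-- the set of the rational vectors `b` for which `∑ b i M i k` lies in the group generated by `Λ`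
and the `M i k` is a proper subgroup of infinite index, for every `k`; by the lemma of Neumann, they
do not cover `ℚ ^ n` -/
theorem exists_shift (L : PeriodPair) (n d : ℕ) (M : Fin n → Fin d → ℂ)
    (hM : ∀ k, ∃ i, M i k ≠ 0) : ∃ b : Fin n → ℚ, ∀ (a : Fin n → ℤ) (k : Fin d),
      ∑ i, ((a i : ℂ) + (b i : ℂ)) * M i k ∉ L.lattice := by
  classical
  by_contra hcon
  push Not at hcon
  let G : Fin d → Submodule ℤ ℂ :=
    fun k => L.lattice ⊔ Submodule.span ℤ (Set.range (fun i => M i k))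
  have hGfg : ∀ k, (G k).FG := by
    intro k
    refine Submodule.FG.sup ?_ (Submodule.fg_span (Set.finite_range _))
    exact Submodule.fg_span (Set.toFinite _)
  let φ : Fin d → (Fin n → ℚ) →+ ℂ := fun k =>
    { toFun := fun b => ∑ i, (b i : ℂ) * M i k
      map_zero' := by simp
      map_add' := by
        intro x y
        simp [add_mul, Finset.sum_add_distrib] }
  have hφ : ∀ k b, φ k b = ∑ i, (b i : ℂ) * M i k := fun _ _ => rfl
  let H : Fin d → AddSubgroup (Fin n → ℚ) := fun k => (G k).toAddSubgroup.comap (φ k)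
  have hH : ∀ k b, b ∈ H k ↔ φ k b ∈ G k := fun _ _ => Iff.rfl
  have hcov : ⋃ k ∈ (Finset.univ : Finset (Fin d)),
      ((fun _ => 0 : Fin d → (Fin n → ℚ)) k) +ᵥ (H k : Set (Fin n → ℚ)) = Set.univ := by
    rw [Set.eq_univ_iff_forall]
    intro b
    obtain ⟨a, k, hk⟩ := hcon b
    simp only [Finset.mem_univ, Set.iUnion_true, Set.mem_iUnion]
    refine ⟨k, ?_⟩
    simp only [zero_vadd, SetLike.mem_coe]
    rw [hH, hφ]
    have h1 : ∑ i, (b i : ℂ) * M i k =
        ∑ i, ((a i : ℂ) + (b i : ℂ)) * M i k - ∑ i, (a i) • M i k := by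
      rw [← Finset.sum_sub_distrib]
      refine Finset.sum_congr rfl fun i _ => ?_
      rw [zsmul_eq_mul]
      ring
    rw [h1]
    refine Submodule.sub_mem _ (Submodule.mem_sup_left hk) (Submodule.mem_sup_right ?_)
    exact Submodule.sum_mem _ fun i _ =>
      Submodule.smul_mem _ _ (Submodule.subset_span ⟨i, rfl⟩)
  obtain ⟨k, -, hk⟩ := AddSubgroup.exists_finiteIndex_of_leftCoset_cover hcov
  have htop : ∀ x : Fin n → ℚ, x ∈ H k := by
    intro x
    have hN : ((H k).index : ℚ) ≠ 0 := Nat.cast_ne_zero.2 hk.index_ne_zero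
    have h1 := AddSubgroup.nsmul_index_mem (H k) ((1 / ((H k).index : ℚ)) • x)
    have h2 : (H k).index • ((1 / ((H k).index : ℚ)) • x) = x := by
      rw [← Nat.cast_smul_eq_nsmul ℚ, smul_smul, mul_one_div_cancel hN, one_smul]
    rwa [h2] at h1
  obtain ⟨i, hi⟩ := hM k
  refine hi (eq_zero_of_div_mem (G k) (hGfg k) (M i k) fun m hm => ?_)
  have h1 := htop (Pi.single i (1 / (m : ℚ)))
  rw [hH, hφ, Finset.sum_eq_single i] at h1
  · simpa [div_eq_inv_mul] using h1
  · intro j _ hj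
    simp [Pi.single_eq_of_ne hj]
  · intro h
    exact absurd (Finset.mem_univ _) h

end Pool.Agent.EBM
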