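import Pool.Agent.EBM.SLGE
import Pool.Agent.EBM.IndN
import Pool.Agent.EBM.Shift
import Pool.Agent.EBM.Inst
import Pool.Agent.EBM.FldE

/-! # `slge` for a lattice: grid, number field and independence are supplied -/

namespace Pool.Agent.EBM
open MvPolynomial Pool.Agent.BKR

theorem SLGL_dot_add {n : ℕ} (y z w : Fin n → ℂ) :
    dot y (fun j => z j + w j) = dot y z + dot y w := by
  unfold dot
  rw [← Finset.sum_add_distrib]
  exact Finset.sum_congr rfl fun j _ => mul_add _ _ _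

theorem SLGL_dot_sum {n m : ℕ} (y : Fin n → ℂ) (c : Fin m → ℂ) (v : Fin m → Fin n → ℂ) :
    dot y (fun j => ∑ i, c i * v i j) = ∑ i, c i * dot y (v i) := by
  unfold dot
  simp only [Finset.mul_sum]
  rw [Finset.sum_comm]
  refine Finset.sum_congr rfl fun i _ => Finset.sum_congr rfl fun j _ => ?_
  ring

/-- a non-zero form does not vanish on a basis -/
theorem SLGL_nz {n : ℕ} (hn : 0 < n) (v : Fin n → Fin n → ℂ) (hv : LinearIndependent ℂ v)
    (y : Fin n → ℂ) (hy : y ≠ 0) : ∃ i, dot y (v i) ≠ 0 := by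
  by_contra hcon
  simp only [not_exists, not_not, ne_eq] at hcon
  have : Nonempty (Fin n) := ⟨⟨0, hn⟩⟩
  have hcard : Fintype.card (Fin n) = Module.finrank ℂ (Fin n → ℂ) := by simp
  let bs := basisOfLinearIndependentOfCardEqFinrank hv hcard
  have hbs : ∀ i, bs i = v i := fun i => by simp [bs]
  apply hy
  funext j
  have h := bs.sum_repr (Pi.single j 1 : Fin n → ℂ)
  have h1 : (Pi.single j 1 : Fin n → ℂ) =
      fun j' => ∑ i, bs.repr (Pi.single j 1 : Fin n → ℂ) i * v i j' := by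
    funext j'
    have h' := congrFun h j'
    rw [← h']
    simp [hbs, Finset.sum_apply]
  have h2 : dot y (Pi.single j 1 : Fin n → ℂ) = y j := by
    unfold dot
    rw [Finset.sum_eq_single j]
    · simp
    · intro k _ hk
      simp [Pi.single_eq_of_ne hk]
    · simp
  rw [← h2, h1, SLGL_dot_sum]
  simp [hcon]

section
variable (L : PeriodPair)

theorem SLGL_rat (q : ℚ) : (q : ℂ) ∈ EndF L := (mem_EndK L _).1 (by
  have h := (EndK L).algebraMap_mem q
  rwa [eq_ratCast] at h)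

theorem SLGL_ne : ∃ w ∈ L.lattice, w ≠ 0 := ⟨L.ω₁, L.ω₁_mem_lattice, L.indep.ne_zero 0⟩

variable (h2 : IsAlgebraic ℚ L.g₂) (h3 : IsAlgebraic ℚ L.g₃)
include h2 h3

theorem SLGL_core (E : Ell) (hΛ : E.Λ = L.lattice.toAddSubgroup) (hx : E.x = L.weierstrassP)
    (hy : ∀ z, E.y z = L.derivWeierstrassP z / 2) (ha : E.a = -L.g₂ / 4)
    (n d : ℕ) (hn : 0 < n) (g : Fin n → ℂ) (hd : d = n + 1 ∨ d = n) (l : Fin d → Fin n → ℂ)
    (hind : ∀ (D0 D : ℕ) (c : Idx D0 D d → ℂ), (d = n + 1 → D0 = 1) →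
      (∀ z, Good E l z → eval (cpt E g l z) (PC c) = 0) → c = 0)
    (v : Fin n → Fin n → ℂ) (hv : LinearIndependent ℂ v) (hg : ∀ j, IsAlgebraic ℚ (g j))
    (hl : ∀ k j, IsAlgebraic ℚ (l k j)) (hgv : ∀ i, IsAlgebraic ℚ (dot g (v i)))
    (hl0 : ∀ k, l k ≠ 0) (hlv : ∀ k i, dot (l k) (v i) ∈ ELog L) : False := by
  obtain ⟨b, hb⟩ := exists_shift L n d (fun i k => dot (l k) (v i))
    fun k => SLGL_nz hn v hv (l k) (hl0 k)
  set u : Fin n → ℂ := fun j => ∑ i, ((b i : ℚ) : ℂ) * v i j with hu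
  have hgrid : ∀ a : Fin n → ℕ, Good E l (gq u v a) := by
    intro a k hk
    rw [hΛ] at hk
    apply hb (fun i => (a i : ℤ)) k
    have h1 : dot (l k) (gq u v a) =
        ∑ i, (((a i : ℤ) : ℂ) + ((b i : ℚ) : ℂ)) * dot (l k) (v i) := by
      unfold gq
      rw [hu, SLGL_dot_add, SLGL_dot_sum, SLGL_dot_sum, ← Finset.sum_add_distrib]
      refine Finset.sum_congr rfl fun i _ => ?_
      push_cast
      ring
    rw [← h1]
    exact hk
  have hlu : ∀ k, dot (l k) u ∈ ELog L := by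
    intro k
    rw [hu, SLGL_dot_sum]
    exact elog_sum L h2 h3 _ _ fun i _ => elog_mul L h2 h3 (SLGL_rat L (b i)) (hlv k i)
  have hgu : IsAlgebraic ℚ (dot g u) := by
    rw [hu, SLGL_dot_sum]
    refine Finset.sum_induction _ (fun x : ℂ => IsAlgebraic ℚ x) (fun _ _ => IsAlgebraic.add)
      isAlgebraic_zero fun i _ => ?_
    exact (isAlgebraic_algebraMap (R := ℚ) (A := ℂ) (b i)).mul (hgv i)
  obtain ⟨K, _, _, ι, aK, gK, lK, wK, h1, h2', h3', h4⟩ :=
    exists_fld L h2 h3 E hΛ hx hy ha n d g l v u hg hl hgv hgu hlv hlu hgrid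
  exact slge E n d hn g hd l hind v hv u hgrid K ι aK gK lK wK h1 h2' h3' h4

theorem slgL_hom (n : ℕ) (hn : 0 < n) (v : Fin n → Fin n → ℂ) (hv : LinearIndependent ℂ v)
    (l : Fin (n + 1) → Fin n → ℂ) (hlin : LinearIndependent ℂ fun i : Fin n => l i.castSucc)
    (lam : Fin n → ℂ)
    (hlam : l (Fin.last n) = fun j => ∑ i : Fin n, lam i * l i.castSucc j) (i0 : Fin n)
    (hi0 : lam i0 ∉ EndF L) (hl0 : ∀ k, l k ≠ 0) (hl : ∀ k j, IsAlgebraic ℚ (l k j))
    (hlv : ∀ k i, dot (l k) (v i) ∈ ELog L) : False := by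
  obtain ⟨E, hΛ, hx, hy, ha, hb⟩ := exists_ell L
  refine SLGL_core L h2 h3 E hΛ hx hy ha n (n + 1) hn (fun _ => 0) (Or.inl rfl) l ?_ v hv
    (fun _ => isAlgebraic_zero) hl (fun i => ?_) hl0 hlv
  · intro D0 D c hD0 hc
    obtain rfl := hD0 rfl
    refine ind_hom E n D (fun _ => 0) l hlin lam hlam i0 (fun N hN => ?_) c hc
    by_contra hcon
    push Not at hcon
    apply hi0
    refine ⟨N, hN, fun x hx' => ?_⟩
    have h := hcon x (by rw [hΛ]; exact hx')
    rw [hΛ, ← mul_assoc] at h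
    exact h
  · have h : dot (fun _ => (0 : ℂ)) (v i) = 0 := by simp [dot]
    rw [h]
    exact isAlgebraic_zero

theorem slgL_inh (n : ℕ) (hn : 0 < n) (v : Fin n → Fin n → ℂ) (hv : LinearIndependent ℂ v)
    (g : Fin n → ℂ) (hg0 : g ≠ 0) (hg : ∀ j, IsAlgebraic ℚ (g j))
    (l : Fin n → Fin n → ℂ) (hlin : LinearIndependent ℂ l) (hl : ∀ k j, IsAlgebraic ℚ (l k j))
    (hgv : ∀ i, IsAlgebraic ℚ (dot g (v i)))
    (hlv : ∀ k i, dot (l k) (v i) ∈ ELog L) : False := by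
  obtain ⟨E, hΛ, hx, hy, ha, hb⟩ := exists_ell L
  refine SLGL_core L h2 h3 E hΛ hx hy ha n n hn g (Or.inr rfl) l ?_ v hv hg hl hgv
    (fun k => hlin.ne_zero k) hlv
  intro D0 D c _ hc
  refine ind_inh E ?_ n D0 D g hg0 l hlin c hc
  obtain ⟨w, hw, hw0⟩ := SLGL_ne L
  exact ⟨w, by rw [hΛ]; exact hw, hw0⟩

end

end Pool.Agent.EBM
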