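import Pool.Agent.EBM.AlgT
import Pool.Agent.BKR.Sieg

/-! # The auxiliary function -/

namespace Pool.Agent.EBM
open MvPolynomial Pool.Agent.BKR NumberField Matrix Pool.Agent.ZCM

/-- the bound for the entries of the linear system -/
noncomputable def Abd (B : ℝ) (b n d D0 D T : ℕ) : ℝ :=
  (b : ℝ) ^ (2 * (n * T) + (D0 + d * D + n * T)) *
    ((4 * B ^ 2 * (D0 + d * D + n * T)) ^ (n * T) * B ^ (D0 + d * D + n * T))

theorem siegel (K : Type) [Field K] [NumberField K] : ∃ C1 : ℝ, 1 ≤ C1 ∧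
    ∀ (n d D0 D T' N : ℕ) (a : K) (g : Fin n → K) (l : Fin d → Fin n → K)
      (w : (Fin n → Fin N) → EV d → K) (b : ℕ) (B : ℝ), 1 ≤ b → 1 ≤ B → 0 < n → 0 < N →
      0 < T' → 0 < D0 → 0 < D →
      IsIntegral ℤ ((b : K) * a) → (∀ j, IsIntegral ℤ ((b : K) * g j)) →
      (∀ k j, IsIntegral ℤ ((b : K) * l k j)) → (∀ r i, IsIntegral ℤ ((b : K) * w r i)) →
      (∀ σ : K →+* ℂ, ‖σ a‖ ≤ B) → (∀ (σ : K →+* ℂ) j, ‖σ (g j)‖ ≤ B) →
      (∀ (σ : K →+* ℂ) k j, ‖σ (l k j)‖ ≤ B) → (∀ (σ : K →+* ℂ) r i, ‖σ (w r i)‖ ≤ B) →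
      2 * (T' * N) ^ n ≤ D0 * D ^ d →
      ∃ c : Idx D0 D d → 𝓞 K, c ≠ 0 ∧
        (∀ i (σ : K →+* ℂ), ‖σ (c i : K)‖ ≤ C1 * (D0 * D ^ d : ℕ) * Abd B b n d D0 D T') ∧
        ∀ (τ : Fin n → Fin T') (r : Fin n → Fin N),
          eval (w r) (TW a g l ((tw fun j => (τ j : ℕ)).map (uv K)) (PC fun i => (c i : K))) = 0 := by
  obtain ⟨C1, hC1, hS⟩ := sieg_house K
  refine ⟨C1, hC1, ?_⟩
  intro n d D0 D T' N a g l w b B hb hB hn hN hT hD0 hD ia ig il iw ba bg bl bw hcount
  have hcI : Fintype.card (Idx D0 D d) = D0 * D ^ d := by simp [Idx]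
  have hcJ : Fintype.card ((Fin n → Fin T') × (Fin n → Fin N)) = (T' * N) ^ n := by
    simp [mul_pow]
  have hb1 : (1 : ℝ) ≤ b := by exact_mod_cast hb
  have hD01 : (1 : ℝ) ≤ D0 := by exact_mod_cast hD0
  set A : ℕ := D0 + d * D + n * T' with hA
  have hAc : ((D0 : ℝ) + d * D + n * T') = (A : ℝ) := by rw [hA]; push_cast; ring
  have hA0 : 1 ≤ A := by omega
  have hA1' : (1 : ℝ) ≤ A := by exact_mod_cast hA0
  have hG : 1 ≤ 4 * B ^ 2 * (A : ℝ) := by nlinarith
  have hA1 : 1 ≤ Abd B b n d D0 D T' := by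
    unfold Abd
    rw [hAc, ← hA]
    have k1 := one_le_pow₀ (n := 2 * (n * T') + A) hb1
    have k2 := one_le_pow₀ (n := n * T') hG
    have k3 := one_le_pow₀ (n := A) hB
    have k23 := one_le_mul_of_one_le_of_one_le k2 k3
    exact one_le_mul_of_one_le_of_one_le k1 k23
  have hlen : ∀ τ : Fin n → Fin T', (tw fun j => (τ j : ℕ)).length ≤ n * T' := by
    intro τ
    rw [sieg_tw_length]
    calc ∑ j, (τ j : ℕ) ≤ ∑ _j : Fin n, T' := Finset.sum_le_sum fun j _ => (τ j).2.le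
      _ = n * T' := by simp
  have hbI : IsIntegral ℤ (b : K) := by
    exact_mod_cast (isIntegral_algebraMap (R := ℤ) (A := K) (x := (b : ℤ)))
  set ent : (Fin n → Fin T') × (Fin n → Fin N) → Idx D0 D d → K := fun f i =>
    (b : K) ^ (2 * (n * T')) * (b : K) ^ A *
      eval (w f.2) (TW a g l ((tw fun j => (f.1 j : ℕ)).map (uv K)) (mon K i)) with hent
  have hint : ∀ f i, IsIntegral ℤ (ent f i) := by
    intro f i
    simp only [hent]
    have h0 : ∀ m, IsIntegral ℤ ((1 : K) * (mon K i).coeff m) := by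
      intro m
      have h1 : (mon K i).coeff m = algebraMap ℤ K ((mon ℤ i).coeff m) := by
        rw [← map_mon (algebraMap ℤ K) i, MvPolynomial.coeff_map]
      rw [one_mul, h1]
      exact isIntegral_algebraMap
    have h1 := fun m => int_TW a g l (tw fun j => (f.1 j : ℕ)) (mon K i) b 1 ia ig il h0 m
    have h2 := int_eval (TW a g l ((tw fun j => (f.1 j : ℕ)).map (uv K)) (mon K i)) (w f.2) b _
      (iw f.2) h1 A (by
        refine (td_TW a g l _ _).trans ?_
        rw [List.length_map]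
        have h3 := hlen f.1
        have h4 : (mon K i).totalDegree ≤ D0 + d * D := td_mon i
        omega)
    have h3 : (b : K) ^ (2 * (n * T')) =
        (b : K) ^ (2 * (n * T') - 2 * (tw fun j => (f.1 j : ℕ)).length) *
        (b : K) ^ (2 * (tw fun j => (f.1 j : ℕ)).length) := by
      rw [← pow_add]
      congr 1
      have := hlen f.1
      omega
    rw [h3]
    have h4 := (hbI.pow (2 * (n * T') - 2 * (tw fun j => (f.1 j : ℕ)).length)).mul h2
    have h5 : (b : K) ^ (2 * (n * T') - 2 * (tw fun j => (f.1 j : ℕ)).length) *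
        (b : K) ^ (2 * (tw fun j => (f.1 j : ℕ)).length) * (b : K) ^ A *
        eval (w f.2) (TW a g l ((tw fun j => (f.1 j : ℕ)).map (uv K)) (mon K i)) =
        (b : K) ^ (2 * (n * T') - 2 * (tw fun j => (f.1 j : ℕ)).length) *
        (1 * (b : K) ^ (2 * (tw fun j => (f.1 j : ℕ)).length) * (b : K) ^ A *
        eval (w f.2) (TW a g l ((tw fun j => (f.1 j : ℕ)).map (uv K)) (mon K i))) := by
      ring
    rw [h5]
    exact h4
  set M : Matrix ((Fin n → Fin T') × (Fin n → Fin N)) (Idx D0 D d) (𝓞 K) :=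
    fun f i => ⟨ent f i, hint f i⟩ with hM
  have hMc : ∀ f i, ((M f i : 𝓞 K) : K) = ent f i := fun f i => rfl
  have hMb : ∀ f i (σ : K →+* ℂ), ‖σ (M f i : K)‖ ≤ Abd B b n d D0 D T' := by
    intro f i σ
    rw [hMc]
    simp only [hent]
    rw [map_mul, map_mul, map_pow, map_pow, map_natCast, norm_mul, norm_mul, norm_pow, norm_pow,
      Complex.norm_natCast]
    have hσ : σ (eval (w f.2) (TW a g l ((tw fun j => (f.1 j : ℕ)).map (uv K)) (mon K i))) =
        eval (fun i => σ (w f.2 i)) (TW (σ a) (fun j => σ (g j)) (fun k j => σ (l k j))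
          ((tw fun j => (f.1 j : ℕ)).map (uv ℂ)) (mon ℂ i)) := by
      rw [← map_mon σ i, ← TW_map σ, eval_map]
      exact MvPolynomial.eval₂_comp σ (w f.2) _
    rw [hσ]
    have h1 := norm_eval_le (TW (σ a) (fun j => σ (g j)) (fun k j => σ (l k j))
          ((tw fun j => (f.1 j : ℕ)).map (uv ℂ)) (mon ℂ i)) (fun i => σ (w f.2 i)) B hB
          (bw σ f.2)
    have htd : (TW (σ a) (fun j => σ (g j)) (fun k j => σ (l k j))
          ((tw fun j => (f.1 j : ℕ)).map (uv ℂ)) (mon ℂ i)).totalDegree ≤ A := by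
      refine (td_TW _ _ _ _ _).trans ?_
      rw [List.length_map]
      have h3 := hlen f.1
      have h4 : (mon ℂ i).totalDegree ≤ D0 + d * D := td_mon i
      omega
    have h2 := nm_TW (σ a) (fun j => σ (g j)) (fun k j => σ (l k j)) (tw fun j => (f.1 j : ℕ))
      (mon ℂ i) B hB (ba σ) (bg σ) (bl σ) (D0 + d * D) (td_mon i)
    have h3 : nm (TW (σ a) (fun j => σ (g j)) (fun k j => σ (l k j))
          ((tw fun j => (f.1 j : ℕ)).map (uv ℂ)) (mon ℂ i)) ≤ (4 * B ^ 2 * A) ^ (n * T') := by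
      refine h2.trans ?_
      have h5 := nm_mon (D0 := D0) (D := D) (d := d) i
      have h6 : 0 ≤ nm (mon ℂ i) := nm_nonneg _
      set len := (tw fun j => (f.1 j : ℕ)).length with hlend
      have h7 : len ≤ n * T' := hlen f.1
      have h8 : ((D0 + d * D : ℕ) : ℝ) + (len : ℝ) ≤ A := by
        rw [hA]
        have : ((len : ℕ) : ℝ) ≤ ((n * T' : ℕ) : ℝ) := by exact_mod_cast h7
        push_cast at this ⊢
        linarith
      calc (4 * B ^ 2 * (((D0 + d * D : ℕ) : ℝ) + len)) ^ len * nm (mon ℂ i)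
          ≤ (4 * B ^ 2 * A) ^ len * 1 := by gcongr
        _ = (4 * B ^ 2 * A) ^ len := mul_one _
        _ ≤ (4 * B ^ 2 * A) ^ (n * T') := pow_le_pow_right₀ hG h7
    have hBn : 0 ≤ B := by linarith
    have hev : ‖eval (fun i => σ (w f.2 i)) (TW (σ a) (fun j => σ (g j)) (fun k j => σ (l k j))
          ((tw fun j => (f.1 j : ℕ)).map (uv ℂ)) (mon ℂ i))‖ ≤
          (4 * B ^ 2 * A) ^ (n * T') * B ^ A := by
      refine h1.trans ?_
      gcongr
    unfold Abd
    rw [hAc, ← hA]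
    calc (b : ℝ) ^ (2 * (n * T')) * (b : ℝ) ^ A * ‖eval (fun i => σ (w f.2 i))
          (TW (σ a) (fun j => σ (g j)) (fun k j => σ (l k j))
          ((tw fun j => (f.1 j : ℕ)).map (uv ℂ)) (mon ℂ i))‖
        ≤ (b : ℝ) ^ (2 * (n * T')) * (b : ℝ) ^ A * ((4 * B ^ 2 * A) ^ (n * T') * B ^ A) := by
          gcongr
      _ = (b : ℝ) ^ (2 * (n * T') + A) * ((4 * B ^ 2 * A) ^ (n * T') * B ^ A) := by
          rw [pow_add (b : ℝ) (2 * (n * T')) A]
  obtain ⟨c, hc0, hc, hcb⟩ := hS _ _ M (Abd B b n d D0 D T') hA1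
    (by rw [hcJ]; positivity) (by rw [hcI, hcJ]; exact hcount) hMb
  refine ⟨c, hc0, ?_, ?_⟩
  · intro i σ
    have := hcb i σ
    rwa [hcI] at this
  · intro τ r
    have h1 : (M *ᵥ c) (τ, r) = 0 := by rw [hc]; rfl
    have h2 : ∑ i, ((M (τ, r) i : 𝓞 K) : K) * ((c i : 𝓞 K) : K) = 0 := by
      have h3 := congrArg (algebraMap (𝓞 K) K) h1
      rw [Matrix.mulVec, dotProduct, map_sum, map_zero] at h3
      simpa only [map_mul] using h3
    have h3 : eval (w r) (TW a g l ((tw fun j => (τ j : ℕ)).map (uv K)) (PC fun i => (c i : K))) =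
        ∑ i, (c i : K) *
          eval (w r) (TW a g l ((tw fun j => (τ j : ℕ)).map (uv K)) (mon K i)) := by
      rw [TW_sum, map_sum]
      refine Finset.sum_congr rfl fun i _ => ?_
      rw [map_mul, eval_C]
    rw [h3]
    have hbK : (b : K) ≠ 0 := by
      have : (b : ℕ) ≠ 0 := by omega
      exact_mod_cast this
    have h4 : (b : K) ^ (2 * (n * T')) * (b : K) ^ A * (∑ i, (c i : K) *
          eval (w r) (TW a g l ((tw fun j => (τ j : ℕ)).map (uv K)) (mon K i))) = 0 := by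
      rw [Finset.mul_sum, ← h2]
      refine Finset.sum_congr rfl fun i _ => ?_
      rw [hMc]
      simp only [hent]
      ring
    exact (mul_eq_zero.1 h4).resolve_left (by positivity)

end Pool.Agent.EBM
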